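import Mathlib

/-! Definitions for the disproof of the universal TSP conjecture MP_399332_lc (frozen S14588). -/

set_option autoImplicit false

namespace Pool.Agent.TSP92

open Finset

/-! ### Walks and tours -/

/-- Cost of the walk that starts at `x` and then goes through the list in order. -/
def wcost {α : Type} (d : α → α → ℝ) : α → List α → ℝ
  | _, [] => 0
  | x, y :: l => d x y + wcost d y l

/-- A closed walk from `x`, with all its points in `V`, meets every point of `S` and has cost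
at most `c`. -/
def Reach {α : Type} (d : α → α → ℝ) (V : Set α) (x : α) (S : Set α) (c : ℝ) : Prop :=
  ∃ l : List α, (∀ y ∈ l, y ∈ V) ∧ (∀ s ∈ S, s ∈ l) ∧ wcost d x (l ++ [x]) ≤ c

/-- Cost of the closed tour through the list (the expression of the frozen statement). -/
def tcost {α : Type} (d : α → α → ℝ) (M : List α) : ℝ :=
  ((M.zip (M.rotate 1)).map (fun p => d p.1 p.2)).sum

/-- Metric axioms in the form of the frozen statement. -/
structure IsMet {α : Type} (d : α → α → ℝ) : Prop where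
  zero : ∀ x y, d x y = 0 ↔ x = y
  symm : ∀ x y, d x y = d y x
  tri : ∀ x y z, d x z ≤ d x y + d y z

/-! ### Lattice points -/

/-- Euclidean distance of integer points. -/
noncomputable def d2 {ι : Type} [Fintype ι] (v w : ι → ℤ) : ℝ :=
  Real.sqrt (∑ i, ((v i : ℝ) - (w i : ℝ)) ^ 2)

/-- Integer points of Euclidean norm at most `ρ`. -/
noncomputable def Vf (ι : Type) [Fintype ι] [DecidableEq ι] (ρ : ℕ) : Finset (ι → ℤ) :=
  (Fintype.piFinset (fun _ : ι => Finset.Icc (-(ρ : ℤ)) (ρ : ℤ))).filter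
    (fun v => ∑ i, (v i) ^ 2 ≤ (ρ : ℤ) ^ 2)

/-- Integer points at sup distance at most one from `v`. -/
noncomputable def nbh {ι : Type} [Fintype ι] [DecidableEq ι] (v : ι → ℤ) : Finset (ι → ℤ) :=
  Fintype.piFinset (fun i : ι => Finset.Icc (v i - 1) (v i + 1))

/-- Labels met within sup distance one of `v`. -/
noncomputable def Lam {ι : Type} [Fintype ι] [DecidableEq ι] (lab : (ι → ℤ) → ℕ) (v : ι → ℤ) : Finset ℕ :=
  (nbh v).image lab

/-- Product hat function centred at the integer point `v`. -/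
noncomputable def hat {ι : Type} [Fintype ι] (v : ι → ℤ) (x : ι → ℝ) : ℝ :=
  ∏ i, max 0 (1 - |x i - (v i : ℝ)|)

/-- The integer box `[-M, M]^ι`. -/
noncomputable def box (ι : Type) [Fintype ι] [DecidableEq ι] (M : ℕ) : Finset (ι → ℤ) :=
  Fintype.piFinset (fun _ : ι => Finset.Icc (-(M : ℤ)) (M : ℤ))

/-! ### The space: a Cayley graph of `F_q^r` -/

/-- The homomorphism `ℤ^d → F_q^r` with columns `h i`. -/
def HH {q r d : ℕ} (h : Fin d → (Fin r → ZMod q)) (y : Fin d → ℤ) : Fin r → ZMod q :=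
  ∑ i, (y i) • h i

/-- Word norm. -/
noncomputable def NN {q r d : ℕ} (h : Fin d → (Fin r → ZMod q)) (x : Fin r → ZMod q) : ℕ :=
  sInf {n : ℕ | ∃ y : Fin d → ℤ, HH h y = x ∧ ∑ i, (y i).natAbs = n}

/-- Scaled word metric. -/
noncomputable def dX {q r d : ℕ} (h : Fin d → (Fin r → ZMod q)) (x y : Fin r → ZMod q) : ℝ :=
  (NN h (x - y) : ℝ) / ((d : ℝ) * q)

/-- Vandermonde columns. -/
def vand (q r d : ℕ) : Fin d → (Fin r → ZMod q) := fun i a => ((i : ℕ) : ZMod q) ^ (a : ℕ)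

/-! ### Digits -/

/-- Sign of a bit. -/
def sg (b : Bool) : ℤ := if b then 1 else -1

/-- Value of a bit. -/
def bt (b : Bool) : ℤ := if b then 1 else 0

/-- Signed binary expansion (an odd integer of absolute value less than `2^l`). -/
def sdig {l : ℕ} (g : Fin l → Bool) : ℤ := ∑ a : Fin l, (2 : ℤ) ^ (a : ℕ) * sg (g a)

/-- Binary expansion (an integer in `[0, 2^l)`). -/
def ndig {l : ℕ} (z : Fin l → Bool) : ℤ := ∑ a : Fin l, (2 : ℤ) ^ (a : ℕ) * bt (z a)

/-- Inner product of the random row with `u`. -/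
def rowG {ι : Type} [Fintype ι] {l : ℕ} (g : ι → Fin l → Bool) (u : ι → ℤ) : ℤ :=
  ∑ i, sdig (g i) * u i

/-! ### Brouwer -/

/-- No continuously differentiable retraction of the closed unit ball of `ℝ^n` to the sphere. -/
def NoRetract (n : ℕ) : Prop :=
  ∀ (r : EuclideanSpace ℝ (Fin n) → EuclideanSpace ℝ (Fin n)) (U : Set (EuclideanSpace ℝ (Fin n))),
    IsOpen U → Metric.closedBall 0 1 ⊆ U → ContDiffOn ℝ 1 r U →
    (∀ x ∈ Metric.closedBall (0 : EuclideanSpace ℝ (Fin n)) 1, ‖r x‖ = 1) →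
    (∀ x, ‖x‖ = 1 → r x = x) → False

/-- For a continuously differentiable retraction `r` the maps `x + t (r x - x)` are, for small
`t`, bijections of the closed ball with positive Jacobian. -/
def SmallT (n : ℕ) : Prop :=
  ∀ (r : EuclideanSpace ℝ (Fin n) → EuclideanSpace ℝ (Fin n)) (U : Set (EuclideanSpace ℝ (Fin n))),
    IsOpen U → Metric.closedBall 0 1 ⊆ U → ContDiffOn ℝ 1 r U →
    (∀ x ∈ Metric.closedBall (0 : EuclideanSpace ℝ (Fin n)) 1, ‖r x‖ = 1) →
    (∀ x, ‖x‖ = 1 → r x = x) →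
    ∃ t0 : ℝ, 0 < t0 ∧ ∀ t ∈ Set.Icc (0 : ℝ) t0,
      Set.InjOn (fun x => x + t • (r x - x)) (Metric.closedBall 0 1) ∧
      (fun x => x + t • (r x - x)) '' Metric.closedBall 0 1 = Metric.closedBall 0 1 ∧
      ∀ x ∈ Metric.closedBall (0 : EuclideanSpace ℝ (Fin n)) 1,
        0 < (ContinuousLinearMap.id ℝ (EuclideanSpace ℝ (Fin n)) +
          t • (fderiv ℝ r x - ContinuousLinearMap.id ℝ (EuclideanSpace ℝ (Fin n)))).det

/-- Brouwer fixed point theorem for the closed unit ball of `ℝ^n`. -/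
def BrouwerBall (n : ℕ) : Prop :=
  ∀ f : EuclideanSpace ℝ (Fin n) → EuclideanSpace ℝ (Fin n),
    ContinuousOn f (Metric.closedBall 0 1) →
    Set.MapsTo f (Metric.closedBall 0 1) (Metric.closedBall 0 1) →
    ∃ x ∈ Metric.closedBall (0 : EuclideanSpace ℝ (Fin n)) 1, f x = x

/-- Zeros of a field on a product of two balls that points outwards. -/
def ZeroLemma (k l : ℕ) : Prop :=
  ∀ (G : (Fin k ⊕ Fin l → ℝ) → (Fin k ⊕ Fin l → ℝ)) (c : Fin k ⊕ Fin l → ℝ) (ρ : ℝ),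
    0 < ρ → Continuous G →
    (∀ x, ∑ a, (x (Sum.inl a) - c (Sum.inl a)) ^ 2 = ρ ^ 2 →
      ∑ b, (x (Sum.inr b) - c (Sum.inr b)) ^ 2 ≤ ρ ^ 2 →
      0 ≤ ∑ a, G x (Sum.inl a) * (x (Sum.inl a) - c (Sum.inl a))) →
    (∀ x, ∑ b, (x (Sum.inr b) - c (Sum.inr b)) ^ 2 = ρ ^ 2 →
      ∑ a, (x (Sum.inl a) - c (Sum.inl a)) ^ 2 ≤ ρ ^ 2 →
      0 ≤ ∑ b, G x (Sum.inr b) * (x (Sum.inr b) - c (Sum.inr b))) →
    ∃ x, ∑ a, (x (Sum.inl a) - c (Sum.inl a)) ^ 2 ≤ ρ ^ 2 ∧
      ∑ b, (x (Sum.inr b) - c (Sum.inr b)) ^ 2 ≤ ρ ^ 2 ∧ G x = 0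

end Pool.Agent.TSP92
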