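import Pool.Agent.Helper92.TSP.Defs

/-! Basic facts on the lattice distance. -/

set_option autoImplicit false

namespace Pool.Agent.TSP92

open Finset

theorem d2_eq_dist {ι : Type} [Fintype ι] (v w : ι → ℤ) :
    d2 v w = dist (WithLp.toLp 2 (fun i => (v i : ℝ)) : EuclideanSpace ℝ ι)
      (WithLp.toLp 2 (fun i => (w i : ℝ))) := by
  rw [EuclideanSpace.dist_eq]
  unfold d2
  congr 1
  apply Finset.sum_congr rfl
  intro i _
  rw [Real.dist_eq, sq_abs]

theorem d2_isMet {ι : Type} [Fintype ι] : IsMet (d2 : (ι → ℤ) → (ι → ℤ) → ℝ) := by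
  refine ⟨fun x y => ?_, fun x y => ?_, fun x y z => ?_⟩
  · rw [d2_eq_dist, dist_eq_zero]
    constructor
    · intro h
      funext i
      have := congrArg (fun f : EuclideanSpace ℝ ι => f i) h
      simpa using this
    · rintro rfl; rfl
  · rw [d2_eq_dist, d2_eq_dist, dist_comm]
  · rw [d2_eq_dist, d2_eq_dist, d2_eq_dist]
    exact dist_triangle _ _ _

theorem d2_nonneg {ι : Type} [Fintype ι] (v w : ι → ℤ) : 0 ≤ d2 v w := Real.sqrt_nonneg _

theorem d2_sq {ι : Type} [Fintype ι] (v w : ι → ℤ) :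
    d2 v w ^ 2 = ∑ i, ((v i : ℝ) - (w i : ℝ)) ^ 2 := by
  unfold d2
  rw [Real.sq_sqrt]
  exact Finset.sum_nonneg fun i _ => sq_nonneg _

theorem mem_Vf {ι : Type} [Fintype ι] [DecidableEq ι] (ρ : ℕ) (v : ι → ℤ) :
    v ∈ Vf ι ρ ↔ d2 v 0 ≤ ρ := by
  have key : d2 v 0 ≤ ρ ↔ ∑ i, (v i) ^ 2 ≤ (ρ : ℤ) ^ 2 := by
    unfold d2
    rw [Real.sqrt_le_left (by positivity)]
    simp only [Pi.zero_apply, Int.cast_zero, sub_zero]
    exact_mod_cast Iff.rfl
  rw [key]
  unfold Vf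
  rw [Finset.mem_filter, Fintype.mem_piFinset]
  constructor
  · exact fun h => h.2
  · intro h
    refine ⟨fun i => ?_, h⟩
    have h1 : (v i) ^ 2 ≤ (ρ : ℤ) ^ 2 :=
      le_trans (Finset.single_le_sum (f := fun i => (v i) ^ 2) (fun j _ => sq_nonneg (v j))
        (Finset.mem_univ i)) h
    rw [Finset.mem_Icc]
    exact abs_le.mp (abs_le_of_sq_le_sq h1 (by positivity))

theorem card_Vf_le (ι : Type) [Fintype ι] [DecidableEq ι] (ρ : ℕ) :
    (Vf ι ρ).card ≤ (2 * ρ + 1) ^ Fintype.card ι := by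
  unfold Vf
  refine le_trans (Finset.card_filter_le _ _) ?_
  rw [Fintype.card_piFinset]
  simp only [Int.card_Icc, Finset.prod_const, Finset.card_univ]
  apply le_of_eq
  congr 1
  omega

theorem mem_nbh {ι : Type} [Fintype ι] [DecidableEq ι] (v p : ι → ℤ) :
    p ∈ nbh v ↔ ∀ i, |p i - v i| ≤ 1 := by
  unfold nbh
  rw [Fintype.mem_piFinset]
  apply forall_congr'
  intro i
  rw [Finset.mem_Icc, abs_le]
  constructor
  · intro h; constructor <;> linarith [h.1, h.2]
  · intro h; constructor <;> linarith [h.1, h.2]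

theorem nbh_dist {ι : Type} [Fintype ι] [DecidableEq ι] (v p : ι → ℤ) (hp : p ∈ nbh v) :
    d2 p v ≤ Real.sqrt (Fintype.card ι) := by
  rw [mem_nbh] at hp
  unfold d2
  apply Real.sqrt_le_sqrt
  calc ∑ i, ((p i : ℝ) - (v i : ℝ)) ^ 2 ≤ ∑ _i : ι, (1 : ℝ) := by
        apply Finset.sum_le_sum
        intro i _
        have h1 : |(p i : ℝ) - v i| ≤ 1 := by exact_mod_cast hp i
        rw [← sq_abs]
        have h0 := abs_nonneg ((p i : ℝ) - v i)
        nlinarith
    _ = Fintype.card ι := by simp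

end Pool.Agent.TSP92
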