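import Pool.Agent.Helper92.TSP.Defs

/-! Small perturbations of the identity of the ball (towards no retraction). -/

set_option autoImplicit false

namespace Pool.Agent.TSP92

open Finset

/-- on the segment from a point of the ball to a point outside there is a point of the sphere -/
private lemma m01_cross {E : Type*} [NormedAddCommGroup E] [NormedSpace ℝ E] (x y : E)
    (hx : ‖x‖ ≤ 1) (hy : 1 < ‖y‖) : ∃ z, ‖z‖ = 1 ∧ ‖x - z‖ ≤ ‖x - y‖ := by
  have hc : ContinuousOn (fun s : ℝ => ‖x + s • (y - x)‖) (Set.Icc 0 1) := by fun_prop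
  have hmem : (1 : ℝ) ∈ Set.Icc (‖x + (0 : ℝ) • (y - x)‖) (‖x + (1 : ℝ) • (y - x)‖) := by
    constructor
    · simpa using hx
    · simpa using hy.le
  obtain ⟨s, hs, hs'⟩ := intermediate_value_Icc zero_le_one hc hmem
  refine ⟨x + s • (y - x), hs', ?_⟩
  have : x - (x + s • (y - x)) = s • (x - y) := by
    rw [← neg_sub x y, smul_neg]; abel
  rw [this, norm_smul, Real.norm_of_nonneg hs.1]
  exact mul_le_of_le_one_left (norm_nonneg _) hs.2

private lemma m01_det_ne {E : Type*} [NormedAddCommGroup E] [NormedSpace ℝ E]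
    [FiniteDimensional ℝ E] (D : E →L[ℝ] E) (hD : ‖D‖ < 1) :
    (ContinuousLinearMap.id ℝ E + D).det ≠ 0 := by
  intro h
  have hcomp : CompleteSpace E := FiniteDimensional.complete ℝ E
  -- kernel is trivial
  have hinj : Function.Injective ((ContinuousLinearMap.id ℝ E + D : E →L[ℝ] E) : E →ₗ[ℝ] E) := by
    rw [← LinearMap.ker_eq_bot, LinearMap.ker_eq_bot']
    intro v hv
    have h1 : v + D v = 0 := hv
    have h2 : ‖v‖ ≤ ‖D‖ * ‖v‖ := by
      have : v = -(D v) := eq_neg_of_add_eq_zero_left h1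
      calc ‖v‖ = ‖D v‖ := by rw [this, norm_neg, ← this]
        _ ≤ ‖D‖ * ‖v‖ := D.le_opNorm v
    by_contra hne
    have h3 : 0 < ‖v‖ := norm_pos_iff.mpr hne
    nlinarith
  have hdet : LinearMap.det ((ContinuousLinearMap.id ℝ E + D : E →L[ℝ] E) : E →ₗ[ℝ] E) = 0 := h
  have hsurj := LinearMap.injective_iff_surjective.mp hinj
  have hu : IsUnit (LinearMap.det
      ((ContinuousLinearMap.id ℝ E + D : E →L[ℝ] E) : E →ₗ[ℝ] E)) := by
    have e := LinearEquiv.isUnit_det' (LinearEquiv.ofBijective _ ⟨hinj, hsurj⟩)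
    exact e
  rw [hdet] at hu
  exact not_isUnit_zero hu

theorem smallT (n : ℕ) : SmallT n := by
  intro r U hU hBU hr h1 h2
  set B : Set (EuclideanSpace ℝ (Fin n)) := Metric.closedBall 0 1 with hB
  have hBc : IsCompact B := isCompact_closedBall _ _
  have hBconv : Convex ℝ B := convex_closedBall _ _
  have hdiff : ∀ x ∈ U, DifferentiableAt ℝ r x := fun x hx =>
    (hr.differentiableOn one_ne_zero x hx).differentiableAt (hU.mem_nhds hx)
  set g : EuclideanSpace ℝ (Fin n) → EuclideanSpace ℝ (Fin n) := fun x => r x - x with hg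
  have hgd : ∀ x ∈ U, HasFDerivAt g (fderiv ℝ r x - ContinuousLinearMap.id ℝ _) x := fun x hx =>
    (hdiff x hx).hasFDerivAt.sub (hasFDerivAt_id x)
  have hcont : ContinuousOn (fun x => fderiv ℝ r x
      - ContinuousLinearMap.id ℝ (EuclideanSpace ℝ (Fin n))) B :=
    ((hr.continuousOn_fderiv_of_isOpen hU le_rfl).mono hBU).sub continuousOn_const
  obtain ⟨K, hK⟩ := hBc.exists_bound_of_continuousOn hcont
  have hK0 : 0 ≤ K := (norm_nonneg _).trans (hK 0 (by simp [hB]))
  have hlip : ∀ x ∈ B, ∀ y ∈ B, ‖g x - g y‖ ≤ K * ‖x - y‖ := by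
    intro x hx y hy
    refine hBconv.norm_image_sub_le_of_norm_hasFDerivWithin_le
      (f' := fun x => fderiv ℝ r x - ContinuousLinearMap.id ℝ _) ?_ hK hy hx
    intro z hz
    exact (hgd z (hBU hz)).hasFDerivWithinAt
  refine ⟨1 / (2 * (K + 1)), by positivity, fun t ht => ?_⟩
  have hK1 : 0 < K + 1 := by linarith
  have htK : t * K ≤ 1 / 2 := by
    have h3 : t * (2 * (K + 1)) ≤ 1 := by
      have := ht.2
      rwa [le_div_iff₀ (by positivity)] at this
    nlinarith [ht.1]
  have ht1 : t ≤ 1 := by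
    refine ht.2.trans ?_
    rw [div_le_one (by positivity)]
    linarith
  have hmaps : ∀ x ∈ B, x + t • (r x - x) ∈ B := by
    intro x hx
    have h3 : r x ∈ B := by
      rw [hB, mem_closedBall_zero_iff]
      exact (h1 x hx).le
    exact hBconv.add_smul_sub_mem hx h3 ⟨ht.1, ht1⟩
  refine ⟨?_, ?_, ?_⟩
  · intro x hx y hy hxy
    simp only at hxy
    have h3 : x - y = t • (g y - g x) := by
      have : x + t • g x = y + t • g y := hxy
      rw [smul_sub]
      rw [← sub_eq_zero] at this ⊢
      rw [← this]; abel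
    have h4 : ‖x - y‖ ≤ 1 / 2 * ‖x - y‖ := by
      calc ‖x - y‖ = t * ‖g y - g x‖ := by
            rw [h3, norm_smul, Real.norm_of_nonneg ht.1]
        _ ≤ t * (K * ‖y - x‖) := mul_le_mul_of_nonneg_left (hlip y hy x hx) ht.1
        _ = (t * K) * ‖x - y‖ := by rw [norm_sub_rev y x]; ring
        _ ≤ 1 / 2 * ‖x - y‖ := mul_le_mul_of_nonneg_right htK (norm_nonneg _)
    have h5 : ‖x - y‖ = 0 := by linarith [norm_nonneg (x - y)]
    exact sub_eq_zero.mp (norm_eq_zero.mp h5)
  · refine Set.Subset.antisymm ?_ ?_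
    · rintro _ ⟨x, hx, rfl⟩
      exact hmaps x hx
    · intro y hy
      classical
      let G : EuclideanSpace ℝ (Fin n) → EuclideanSpace ℝ (Fin n) :=
        fun x => if x ∈ B then g x else 0
      have hGin : ∀ x ∈ B, G x = g x := fun x hx => if_pos hx
      have hGout : ∀ x, x ∉ B → G x = 0 := fun x hx => if_neg hx
      have hsph : ∀ z, ‖z‖ = 1 → g z = 0 := fun z hz => by
        show r z - z = 0
        rw [h2 z hz, sub_self]
      have hmix : ∀ x ∈ B, ∀ y, y ∉ B → ‖g x‖ ≤ K * ‖x - y‖ := by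
        intro x hx y hy
        have hx' : ‖x‖ ≤ 1 := by rwa [hB, mem_closedBall_zero_iff] at hx
        have hy' : 1 < ‖y‖ := by
          rw [hB, mem_closedBall_zero_iff] at hy
          exact not_le.mp hy
        obtain ⟨z, hz, hxz⟩ := m01_cross x y hx' hy'
        have hzB : z ∈ B := by rw [hB, mem_closedBall_zero_iff]; exact hz.le
        have h3 := hlip x hx z hzB
        rw [hsph z hz, sub_zero] at h3
        exact h3.trans (mul_le_mul_of_nonneg_left hxz hK0)
      have hGlip : ∀ x y, ‖G x - G y‖ ≤ K * ‖x - y‖ := by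
        intro x y
        by_cases hx : x ∈ B
        · by_cases hy : y ∈ B
          · rw [hGin x hx, hGin y hy]; exact hlip x hx y hy
          · rw [hGin x hx, hGout y hy, sub_zero]; exact hmix x hx y hy
        · by_cases hy : y ∈ B
          · rw [hGout x hx, hGin y hy, zero_sub, norm_neg, norm_sub_rev x y]
            exact hmix y hy x hx
          · rw [hGout x hx, hGout y hy, sub_self, norm_zero]
            positivity
      let T : EuclideanSpace ℝ (Fin n) → EuclideanSpace ℝ (Fin n) := fun x => y - t • G x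
      have hT : ContractingWith (1 / 2) T := by
        refine ⟨by rw [← NNReal.coe_lt_coe]; norm_num, LipschitzWith.of_dist_le_mul fun a b => ?_⟩
        rw [dist_eq_norm, dist_eq_norm]
        have h3 : T a - T b = t • (G b - G a) := by
          show (y - t • G a) - (y - t • G b) = _
          rw [smul_sub]; abel
        rw [h3, norm_smul, Real.norm_of_nonneg ht.1]
        calc t * ‖G b - G a‖ ≤ t * (K * ‖b - a‖) :=
              mul_le_mul_of_nonneg_left (hGlip b a) ht.1
          _ = (t * K) * ‖a - b‖ := by rw [norm_sub_rev b a]; ring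
          _ ≤ 1 / 2 * ‖a - b‖ := mul_le_mul_of_nonneg_right htK (norm_nonneg _)
          _ = _ := by norm_num
      set x := ContractingWith.fixedPoint T hT with hx
      have hfix : T x = x := hT.fixedPoint_isFixedPt
      have hxe : y = x + t • G x := by
        have : y - t • G x = x := hfix
        exact sub_eq_iff_eq_add.mp this
      by_cases hxB : x ∈ B
      · refine ⟨x, hxB, ?_⟩
        rw [hGin x hxB] at hxe
        exact hxe.symm
      · exfalso
        rw [hGout x hxB, smul_zero, add_zero] at hxe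
        rw [hxe] at hy
        exact hxB hy
  · intro x hx
    set D := fderiv ℝ r x - ContinuousLinearMap.id ℝ (EuclideanSpace ℝ (Fin n)) with hD
    have hDn : ‖D‖ ≤ K := hK x hx
    have hne : ∀ s ∈ Set.Icc (0 : ℝ) t,
        (ContinuousLinearMap.id ℝ (EuclideanSpace ℝ (Fin n)) + s • D).det ≠ 0 := by
      intro s hs
      apply m01_det_ne
      rw [norm_smul, Real.norm_of_nonneg hs.1]
      calc s * ‖D‖ ≤ t * K := mul_le_mul hs.2 hDn (norm_nonneg _) ht.1
        _ ≤ 1 / 2 := htK
        _ < 1 := by norm_num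
    have hcd : Continuous fun s : ℝ =>
        (ContinuousLinearMap.id ℝ (EuclideanSpace ℝ (Fin n)) + s • D).det :=
      ContinuousLinearMap.continuous_det.comp (by fun_prop)
    by_contra hneg
    push Not at hneg
    have h0 : (ContinuousLinearMap.id ℝ (EuclideanSpace ℝ (Fin n)) + (0 : ℝ) • D).det = 1 := by
      rw [zero_smul ℝ D, add_zero]
      show LinearMap.det (LinearMap.id : EuclideanSpace ℝ (Fin n) →ₗ[ℝ] _) = 1
      exact LinearMap.det_id
    have hmem : (0 : ℝ) ∈ Set.Icc
        ((ContinuousLinearMap.id ℝ (EuclideanSpace ℝ (Fin n)) + t • D).det)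
        ((ContinuousLinearMap.id ℝ (EuclideanSpace ℝ (Fin n)) + (0 : ℝ) • D).det) := by
      rw [h0]
      exact ⟨hneg, zero_le_one⟩
    obtain ⟨s, hs, hs'⟩ := intermediate_value_Icc' ht.1 hcd.continuousOn hmem
    exact hne s hs hs'

end Pool.Agent.TSP92
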