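import Pool.Agent.Helper92.TSP.Defs

/-! No smooth retraction, from the polynomial volume argument. -/

set_option autoImplicit false

namespace Pool.Agent.TSP92

open Finset MeasureTheory Polynomial

private lemma m02_poly (n : ℕ) (D : EuclideanSpace ℝ (Fin n) →L[ℝ] EuclideanSpace ℝ (Fin n)) :
    ∃ q : ℝ[X], q.natDegree ≤ n ∧ ∀ t : ℝ,
      (ContinuousLinearMap.id ℝ (EuclideanSpace ℝ (Fin n)) + t • D).det = q.eval t := by
  classical
  let b := (EuclideanSpace.basisFun (Fin n) ℝ).toBasis
  let A : Matrix (Fin n) (Fin n) ℝ := LinearMap.toMatrix b b (D : _ →ₗ[ℝ] _)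
  refine ⟨Matrix.det ((X : ℝ[X]) • A.map C + (1 : Matrix (Fin n) (Fin n) ℝ).map C), ?_, ?_⟩
  · have := Polynomial.natDegree_det_X_add_C_le A (1 : Matrix (Fin n) (Fin n) ℝ)
    simpa using this
  · intro t
    have h1 : (ContinuousLinearMap.id ℝ (EuclideanSpace ℝ (Fin n)) + t • D).det
        = Matrix.det (LinearMap.toMatrix b b
          ((ContinuousLinearMap.id ℝ (EuclideanSpace ℝ (Fin n)) + t • D :
            EuclideanSpace ℝ (Fin n) →L[ℝ] _) : EuclideanSpace ℝ (Fin n) →ₗ[ℝ] _)) := by
      rw [LinearMap.det_toMatrix]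
    have h2 : LinearMap.toMatrix b b
          ((ContinuousLinearMap.id ℝ (EuclideanSpace ℝ (Fin n)) + t • D :
            EuclideanSpace ℝ (Fin n) →L[ℝ] _) : EuclideanSpace ℝ (Fin n) →ₗ[ℝ] _)
        = 1 + t • A := by
      have : ((ContinuousLinearMap.id ℝ (EuclideanSpace ℝ (Fin n)) + t • D :
            EuclideanSpace ℝ (Fin n) →L[ℝ] _) : EuclideanSpace ℝ (Fin n) →ₗ[ℝ] _)
          = LinearMap.id + t • (D : EuclideanSpace ℝ (Fin n) →ₗ[ℝ] _) := by
        ext v; simp
      rw [this, map_add, map_smul, LinearMap.toMatrix_id]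
    rw [h1, h2, ← Polynomial.coe_evalRingHom, RingHom.map_det]
    congr 1
    ext i j
    simp [Matrix.map_apply, Matrix.one_apply, add_comm, apply_ite]
    ring

theorem noRetract_of (n : ℕ) (h : SmallT n) : NoRetract n := by
  classical
  intro r U hU hBU hr h1 h2
  obtain ⟨t0, ht0, hT⟩ := h r U hU hBU hr h1 h2
  set B : Set (EuclideanSpace ℝ (Fin n)) := Metric.closedBall 0 1 with hB
  have hBc : IsCompact B := isCompact_closedBall _ _
  have hBm : MeasurableSet B := Metric.isClosed_closedBall.measurableSet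
  have hdiff : ∀ x ∈ U, DifferentiableAt ℝ r x := fun x hx =>
    (hr.differentiableOn one_ne_zero x hx).differentiableAt (hU.mem_nhds hx)
  have hcD : ContinuousOn (fderiv ℝ r) B :=
    (hr.continuousOn_fderiv_of_isOpen hU le_rfl).mono hBU
  let D : EuclideanSpace ℝ (Fin n) → (EuclideanSpace ℝ (Fin n) →L[ℝ] EuclideanSpace ℝ (Fin n)) :=
    fun x => fderiv ℝ r x - ContinuousLinearMap.id ℝ _
  let J : ℝ → EuclideanSpace ℝ (Fin n) → ℝ := fun t x =>
    (ContinuousLinearMap.id ℝ (EuclideanSpace ℝ (Fin n)) + t • D x).det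
  have hJc : ∀ t, ContinuousOn (J t) B := by
    intro t
    refine ContinuousLinearMap.continuous_det.comp_continuousOn ?_
    exact continuousOn_const.add ((hcD.sub continuousOn_const).const_smul t)
  have hJint : ∀ t, IntegrableOn (J t) B volume := fun t =>
    (hJc t).integrableOn_compact hBc
  -- the volume for small parameters
  have hvol : ∀ t ∈ Set.Icc (0 : ℝ) t0, ∫ x in B, J t x = (volume B).toReal := by
    intro t ht
    obtain ⟨hinj, himg, hdet⟩ := hT t ht
    have hder : ∀ x ∈ B, HasFDerivWithinAt (fun x => x + t • (r x - x))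
        (ContinuousLinearMap.id ℝ (EuclideanSpace ℝ (Fin n)) + t • D x) B x := by
      intro x hx
      have h3 := (hdiff x (hBU hx)).hasFDerivAt
      exact ((hasFDerivAt_id x).add ((h3.sub (hasFDerivAt_id x)).const_smul t)).hasFDerivWithinAt
    have h4 := integral_image_eq_integral_abs_det_fderiv_smul volume hBm hder hinj
      (fun _ => (1 : ℝ))
    rw [himg] at h4
    have h5 : ∫ x in B, |(ContinuousLinearMap.id ℝ (EuclideanSpace ℝ (Fin n))
        + t • D x).det| • (1 : ℝ) = ∫ x in B, J t x := by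
      refine setIntegral_congr_fun hBm fun x hx => ?_
      show |(ContinuousLinearMap.id ℝ (EuclideanSpace ℝ (Fin n)) + t • D x).det| • (1 : ℝ) = _
      rw [smul_eq_mul, mul_one, abs_of_pos (hdet x hx)]
    rw [← h5, ← h4]
    simp [Measure.real]
  -- interpolation
  let v : ℕ → ℝ := fun i => t0 * (i / (n + 1))
  have hvs : Set.InjOn v (range (n + 1) : Finset ℕ) := by
    intro i _ j _ hij
    have h3 : t0 * ((i : ℝ) / (n + 1)) = t0 * ((j : ℝ) / (n + 1)) := hij
    have h4 := mul_left_cancel₀ ht0.ne' h3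
    have h5 : (n + 1 : ℝ) ≠ 0 := by positivity
    have h6 : (i : ℝ) = j := by
      rwa [div_left_inj' h5] at h4
    exact_mod_cast h6
  have hv : ∀ i ∈ range (n + 1), v i ∈ Set.Icc (0 : ℝ) t0 := by
    intro i hi
    rw [Finset.mem_range] at hi
    constructor
    · show 0 ≤ t0 * ((i : ℝ) / (n + 1))
      positivity
    · show t0 * ((i : ℝ) / (n + 1)) ≤ t0
      have : (i : ℝ) / (n + 1) ≤ 1 := by
        rw [div_le_one (by positivity)]
        exact_mod_cast hi.le
      nlinarith
  have hinterp : ∀ x, J 1 x = ∑ i ∈ range (n + 1),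
      J (v i) x * (Lagrange.basis (range (n + 1)) v i).eval 1 := by
    intro x
    obtain ⟨q, hq, hqe⟩ := m02_poly n (D x)
    have hdeg : q.degree < (range (n + 1)).card := by
      rw [Finset.card_range]
      exact lt_of_le_of_lt Polynomial.degree_le_natDegree
        (by exact_mod_cast Nat.lt_succ_of_le hq)
    have h3 := Lagrange.eq_interpolate hvs hdeg
    have h4 : q.eval 1 = _ := congrArg (Polynomial.eval 1) h3
    rw [Lagrange.interpolate_apply, Polynomial.eval_finsetSum] at h4
    show (ContinuousLinearMap.id ℝ (EuclideanSpace ℝ (Fin n)) + (1 : ℝ) • D x).det = _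
    rw [hqe, h4]
    refine Finset.sum_congr rfl fun i _ => ?_
    rw [Polynomial.eval_mul, Polynomial.eval_C, ← hqe]
  have hint1 : ∫ x in B, J 1 x = (volume B).toReal := by
    have h3 : ∫ x in B, J 1 x = ∑ i ∈ range (n + 1),
        (∫ x in B, J (v i) x) * (Lagrange.basis (range (n + 1)) v i).eval 1 := by
      simp_rw [hinterp]
      rw [integral_finsetSum]
      · refine Finset.sum_congr rfl fun i _ => ?_
        rw [integral_mul_const]
      · intro i _
        exact (hJint (v i)).mul_const _
    rw [h3]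
    have h4 : ∀ i ∈ range (n + 1), (∫ x in B, J (v i) x)
        * (Lagrange.basis (range (n + 1)) v i).eval 1
        = (volume B).toReal * (Lagrange.basis (range (n + 1)) v i).eval 1 := by
      intro i hi
      rw [hvol _ (hv i hi)]
    rw [Finset.sum_congr rfl h4, ← Finset.mul_sum, ← Polynomial.eval_finsetSum,
      Lagrange.sum_basis hvs ⟨0, by simp⟩, Polynomial.eval_one, mul_one]
  -- the determinant vanishes
  have hJ1 : ∀ x, J 1 x = (fderiv ℝ r x).det := by
    intro x
    show (ContinuousLinearMap.id ℝ (EuclideanSpace ℝ (Fin n)) + (1 : ℝ) •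
      (fderiv ℝ r x - ContinuousLinearMap.id ℝ _)).det = _
    rw [one_smul, add_sub_cancel]
  have hzero_ball : Set.EqOn (J 1) (fun _ => 0) (Metric.ball 0 1) := by
    intro x hx
    have hxB : x ∈ B := Metric.ball_subset_closedBall hx
    show J 1 x = 0
    rw [hJ1]
    by_contra hne
    -- `fderiv r x` is surjective
    have hsurj : Function.Surjective (fderiv ℝ r x) :=
      (LinearMap.equivOfDetNeZero
        (fderiv ℝ r x : EuclideanSpace ℝ (Fin n) →ₗ[ℝ] EuclideanSpace ℝ (Fin n))
        hne).surjective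
    have hdx := (hdiff x (hBU hxB)).hasFDerivAt
    have h3 : HasFDerivAt (fun y => inner ℝ (r y) (r y))
        ((fderivInnerCLM ℝ (r x, r x)).comp ((fderiv ℝ r x).prod (fderiv ℝ r x))) x :=
      hdx.inner ℝ hdx
    have h4 : (fun y => inner ℝ (r y) (r y)) =ᶠ[nhds x] fun _ => (1 : ℝ) := by
      filter_upwards [Metric.isOpen_ball.mem_nhds hx] with y hy
      rw [real_inner_self_eq_norm_sq, h1 y (Metric.ball_subset_closedBall hy)]
      norm_num
    have h5 := (h3.congr_of_eventuallyEq h4.symm).unique (hasFDerivAt_const (1 : ℝ) x)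
    obtain ⟨w, hw⟩ := hsurj (r x)
    have h6 := congrArg (fun L => L w) h5
    simp only [ContinuousLinearMap.comp_apply, ContinuousLinearMap.prod_apply,
      fderivInnerCLM_apply, zero_apply] at h6
    have hw' : fderiv ℝ r x w = r x := hw
    rw [hw', real_inner_self_eq_norm_sq, h1 x hxB] at h6
    norm_num at h6
  have hzero : Set.EqOn (J 1) (fun _ => 0) B := by
    refine hzero_ball.of_subset_closure (hJc 1) continuousOn_const
      Metric.ball_subset_closedBall ?_
    rw [closure_ball (0 : EuclideanSpace ℝ (Fin n)) one_ne_zero]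
  have hint0 : ∫ x in B, J 1 x = 0 := by
    rw [setIntegral_congr_fun hBm hzero]
    simp
  have hpos : 0 < (volume B).toReal :=
    ENNReal.toReal_pos (Metric.measure_closedBall_pos volume _ one_pos).ne'
      hBc.measure_lt_top.ne
  rw [hint0] at hint1
  linarith

end Pool.Agent.TSP92
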