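import Pool.Agent.Helper92.TSP.Defs

/-! Brouwer from no smooth retraction. -/

set_option autoImplicit false

namespace Pool.Agent.TSP92

open Finset

section Br

open Metric
open scoped RealInnerProductSpace

variable {n : ℕ}


/-- restrictions of smooth functions to the ball -/
private def brAlg (n : ℕ) :
    Subalgebra ℝ C(closedBall (0 : EuclideanSpace ℝ (Fin n)) 1, ℝ) where
  carrier := {g | ∃ G : EuclideanSpace ℝ (Fin n) → ℝ, ContDiff ℝ 1 G ∧
    ∀ x : closedBall (0 : EuclideanSpace ℝ (Fin n)) 1, g x = G x}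
  mul_mem' := by
    rintro g g' ⟨G, hG, h⟩ ⟨G', hG', h'⟩
    exact ⟨fun x => G x * G' x, hG.mul hG', fun x => by
      rw [ContinuousMap.mul_apply, h, h']⟩
  add_mem' := by
    rintro g g' ⟨G, hG, h⟩ ⟨G', hG', h'⟩
    exact ⟨fun x => G x + G' x, hG.add hG', fun x => by
      rw [ContinuousMap.add_apply, h, h']⟩
  algebraMap_mem' := by
    intro c
    exact ⟨fun _ => c, contDiff_const, fun x => rfl⟩

private theorem brAlg_sep (n : ℕ) : (brAlg n).SeparatesPoints := by
  intro x y hxy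
  have h : (x : EuclideanSpace ℝ (Fin n)) ≠ y := fun h => hxy (Subtype.ext h)
  have h2 : ∃ i, (x : EuclideanSpace ℝ (Fin n)) i ≠ (y : EuclideanSpace ℝ (Fin n)) i := by
    by_contra hcon
    push Not at hcon
    exact h (by ext i; exact hcon i)
  obtain ⟨i, hi⟩ := h2
  have hcont : Continuous fun z : closedBall (0 : EuclideanSpace ℝ (Fin n)) 1 =>
      (z : EuclideanSpace ℝ (Fin n)) i :=
    (EuclideanSpace.proj (𝕜 := ℝ) i).continuous.comp continuous_subtype_val
  refine ⟨_, ⟨⟨fun z => (z : EuclideanSpace ℝ (Fin n)) i, hcont⟩, ?_, rfl⟩, hi⟩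
  exact ⟨fun z => z i, (EuclideanSpace.proj (𝕜 := ℝ) i).contDiff, fun z => rfl⟩

/-- smooth approximation inside the ball -/
private theorem br_approx (f : EuclideanSpace ℝ (Fin n) → EuclideanSpace ℝ (Fin n))
    (hf : ContinuousOn f (closedBall 0 1)) (hmaps : Set.MapsTo f (closedBall 0 1) (closedBall 0 1))
    {δ : ℝ} (hδ : 0 < δ) :
    ∃ p : EuclideanSpace ℝ (Fin n) → EuclideanSpace ℝ (Fin n), ContDiff ℝ 1 p ∧
      ∀ x ∈ closedBall (0 : EuclideanSpace ℝ (Fin n)) 1, ‖p x‖ ≤ 1 ∧ ‖p x - f x‖ < δ := by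
  set η : ℝ := δ / (4 * (n + 1)) with hη
  have hη0 : 0 < η := by positivity
  have hnη : (n : ℝ) * η ≤ δ / 4 := by
    rw [hη]
    have h1 : (n : ℝ) * (δ / (4 * (n + 1))) = (δ / 4) * (n / (n + 1)) := by field_simp
    rw [h1]
    have h2 : (n : ℝ) / (n + 1) ≤ 1 := by
      rw [div_le_one (by positivity)]; linarith
    have h3 : 0 ≤ δ / 4 := by positivity
    nlinarith
  have hg : ∀ i : Fin n, ∃ G : EuclideanSpace ℝ (Fin n) → ℝ, ContDiff ℝ 1 G ∧
      ∀ x ∈ closedBall (0 : EuclideanSpace ℝ (Fin n)) 1, |G x - f x i| < η := by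
    intro i
    have hc : Continuous fun z : closedBall (0 : EuclideanSpace ℝ (Fin n)) 1 => f z i :=
      (EuclideanSpace.proj (𝕜 := ℝ) i).continuous.comp hf.domRestrict
    obtain ⟨⟨g, G, hG, hgG⟩, hg⟩ :=
      ContinuousMap.exists_mem_subalgebra_near_continuous_of_separatesPoints (brAlg n)
        (brAlg_sep n) _ hc η hη0
    refine ⟨G, hG, fun x hx => ?_⟩
    have h := hg ⟨x, hx⟩
    rw [Real.norm_eq_abs] at h
    have h2 : g ⟨x, hx⟩ = G x := hgG ⟨x, hx⟩
    rw [← h2]
    exact h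
  choose G hG1 hG2 using hg
  set P : EuclideanSpace ℝ (Fin n) → EuclideanSpace ℝ (Fin n) :=
    fun x => WithLp.toLp 2 (fun i => G i x) with hP
  have hPd : ContDiff ℝ 1 P := by
    rw [contDiff_euclidean]
    exact hG1
  have hPf : ∀ x ∈ closedBall (0 : EuclideanSpace ℝ (Fin n)) 1, ‖P x - f x‖ ≤ n * η := by
    intro x hx
    apply abs_le_of_sq_le_sq' _ (by positivity) |>.2
    rw [EuclideanSpace.norm_sq_eq]
    have h1 : ∀ i ∈ (Finset.univ : Finset (Fin n)), ‖(P x - f x) i‖ ^ 2 ≤ η ^ 2 := by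
      intro i _
      have h2 : (P x - f x) i = G i x - f x i := rfl
      rw [h2, Real.norm_eq_abs]
      exact pow_le_pow_left₀ (abs_nonneg _) (hG2 i x hx).le 2
    refine (Finset.sum_le_sum h1).trans ?_
    rw [Finset.sum_const, Finset.card_univ, Fintype.card_fin, nsmul_eq_mul, mul_pow]
    have h3 : (n : ℝ) ≤ (n : ℝ) ^ 2 := by
      have : n ≤ n ^ 2 := by nlinarith [Nat.zero_le n, Nat.le_self_pow (two_ne_zero) n]
      exact_mod_cast this
    exact mul_le_mul_of_nonneg_right h3 (by positivity)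
  set c : ℝ := (1 + n * η)⁻¹ with hc
  have hc0 : 0 < 1 + (n : ℝ) * η := by positivity
  have hPn : ∀ x ∈ closedBall (0 : EuclideanSpace ℝ (Fin n)) 1, ‖P x‖ ≤ 1 + n * η := by
    intro x hx
    have h1 : ‖f x‖ ≤ 1 := by simpa using hmaps hx
    calc ‖P x‖ = ‖f x + (P x - f x)‖ := by rw [add_sub_cancel]
      _ ≤ ‖f x‖ + ‖P x - f x‖ := norm_add_le _ _
      _ ≤ 1 + n * η := add_le_add h1 (hPf x hx)
  refine ⟨fun x => c • P x, hPd.const_smul c, fun x hx => ⟨?_, ?_⟩⟩
  · rw [norm_smul, Real.norm_of_nonneg (by positivity), hc]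
    calc (1 + (n : ℝ) * η)⁻¹ * ‖P x‖ ≤ (1 + (n : ℝ) * η)⁻¹ * (1 + n * η) :=
          mul_le_mul_of_nonneg_left (hPn x hx) (by positivity)
      _ = 1 := inv_mul_cancel₀ hc0.ne'
  · have h1 : c • P x - f x = (P x - f x) - (1 - c) • P x := by
      rw [sub_smul, one_smul]; abel
    have h2 : (1 - c) * (1 + n * η) = n * η := by
      rw [hc]; field_simp; ring
    have h3 : 0 ≤ 1 - c := by
      have h4 : c ≤ 1 := by
        rw [hc]
        apply inv_le_one_of_one_le₀
        have : 0 ≤ (n : ℝ) * η := by positivity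
        linarith
      linarith
    calc ‖c • P x - f x‖ = ‖(P x - f x) - (1 - c) • P x‖ := by rw [h1]
      _ ≤ ‖P x - f x‖ + ‖(1 - c) • P x‖ := norm_sub_le _ _
      _ ≤ n * η + (1 - c) * (1 + n * η) := by
          rw [norm_smul, Real.norm_of_nonneg h3]
          exact add_le_add (hPf x hx) (mul_le_mul_of_nonneg_left (hPn x hx) h3)
      _ = 2 * (n * η) := by rw [h2]; ring
      _ < δ := by linarith

end Br

theorem brouwer_of (n : ℕ) (h : NoRetract n) : BrouwerBall n := by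
  classical
  intro f hf hmaps
  by_contra hno
  push Not at hno
  -- the distance is bounded below
  have hcpt : IsCompact (Metric.closedBall (0 : EuclideanSpace ℝ (Fin n)) 1) :=
    isCompact_closedBall _ _
  have hne : (Metric.closedBall (0 : EuclideanSpace ℝ (Fin n)) 1).Nonempty :=
    ⟨0, by simp⟩
  obtain ⟨x₀, hx₀, hmin⟩ := hcpt.exists_isMinOn hne
    (f := fun x => ‖f x - x‖) ((hf.sub continuousOn_id).norm)
  have hδ : 0 < ‖f x₀ - x₀‖ := norm_pos_iff.2 (sub_ne_zero.2 (hno x₀ hx₀))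
  obtain ⟨p, hp, hpb⟩ := br_approx f hf hmaps hδ
  have hpx : ∀ x ∈ Metric.closedBall (0 : EuclideanSpace ℝ (Fin n)) 1, x ≠ p x := by
    intro x hx hxp
    have h1 : ‖f x₀ - x₀‖ ≤ ‖f x - x‖ := hmin hx
    have h2 := (hpb x hx).2
    rw [← hxp, norm_sub_rev] at h2
    linarith
  set u : EuclideanSpace ℝ (Fin n) → EuclideanSpace ℝ (Fin n) := fun x => x - p x with hu
  set a : EuclideanSpace ℝ (Fin n) → ℝ := fun x => inner ℝ (u x) (u x) with ha
  set b : EuclideanSpace ℝ (Fin n) → ℝ := fun x => inner ℝ x (u x) with hb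
  set Δ : EuclideanSpace ℝ (Fin n) → ℝ := fun x => b x ^ 2 + a x * (1 - inner ℝ x x) with hΔ
  have hud : ContDiff ℝ 1 u := contDiff_id.sub hp
  have had : ContDiff ℝ 1 a := hud.inner ℝ hud
  have hbd : ContDiff ℝ 1 b := contDiff_id.inner ℝ hud
  have hΔd : ContDiff ℝ 1 Δ :=
    (hbd.pow 2).add (had.mul (contDiff_const.sub (contDiff_id.inner ℝ contDiff_id)))
  set U : Set (EuclideanSpace ℝ (Fin n)) := {x | 0 < Δ x ∧ 0 < a x} with hU
  have hUo : IsOpen U := (isOpen_lt continuous_const hΔd.continuous).inter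
    (isOpen_lt continuous_const had.continuous)
  have ha0 : ∀ x ∈ Metric.closedBall (0 : EuclideanSpace ℝ (Fin n)) 1, 0 < a x := by
    intro x hx
    have h1 : u x ≠ 0 := sub_ne_zero.2 (hpx x hx)
    exact real_inner_self_pos.2 h1
  -- on the sphere
  have hsph : ∀ x : EuclideanSpace ℝ (Fin n), ‖x‖ = 1 → 0 < b x := by
    intro x hx
    have hxb : x ∈ Metric.closedBall (0 : EuclideanSpace ℝ (Fin n)) 1 := by simp [hx]
    have h1 : b x = 1 - inner ℝ x (p x) := by
      simp only [hb, hu]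
      rw [inner_sub_right, real_inner_self_eq_norm_sq, hx]; norm_num
    have h2 : ‖x - p x‖ ^ 2 = ‖x‖ ^ 2 - 2 * inner ℝ x (p x) + ‖p x‖ ^ 2 :=
      norm_sub_sq_real x (p x)
    have h3 : 0 < ‖x - p x‖ ^ 2 := by
      have : 0 < ‖x - p x‖ := norm_pos_iff.2 (sub_ne_zero.2 (hpx x hxb))
      positivity
    have h4 := (hpb x hxb).1
    have h5 : ‖p x‖ ^ 2 ≤ 1 := by
      have := norm_nonneg (p x)
      nlinarith
    rw [hx] at h2
    rw [h1]
    linarith
  have hΔ0 : ∀ x ∈ Metric.closedBall (0 : EuclideanSpace ℝ (Fin n)) 1, 0 < Δ x := by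
    intro x hx
    have hx1 : ‖x‖ ≤ 1 := by simpa using hx
    have h1 : inner ℝ x x = ‖x‖ ^ 2 := real_inner_self_eq_norm_sq x
    rcases hx1.lt_or_eq with hlt | heq
    · have h2 : 0 < 1 - inner ℝ x x := by
        rw [h1]
        have := norm_nonneg x
        nlinarith
      have h3 := ha0 x hx
      simp only [hΔ]
      have h4 := mul_pos h3 h2
      have h5 := sq_nonneg (b x)
      linarith
    · have h2 := hsph x heq
      simp only [hΔ]
      rw [h1, heq]
      have : 0 < b x ^ 2 := by positivity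
      simpa using this
  set t : EuclideanSpace ℝ (Fin n) → ℝ := fun x => (-b x + Real.sqrt (Δ x)) / a x with ht
  have htd : ContDiffOn ℝ 1 t U := by
    refine ContDiffOn.div (hbd.neg.contDiffOn.add (hΔd.contDiffOn.sqrt ?_)) had.contDiffOn ?_
    · intro x hx; exact hx.1.ne'
    · intro x hx; exact hx.2.ne'
  refine h (fun x => x + t x • u x) U hUo (fun x hx => ⟨hΔ0 x hx, ha0 x hx⟩) ?_ ?_ ?_
  · exact contDiffOn_id.add (htd.smul hud.contDiffOn)
  · intro x hx
    have h1 := ha0 x hx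
    have h2 := hΔ0 x hx
    have h3 : ‖x + t x • u x‖ ^ 2 = inner ℝ x x + 2 * (t x * b x) + t x ^ 2 * a x := by
      rw [norm_add_sq_real, real_inner_self_eq_norm_sq, inner_smul_right, norm_smul, mul_pow,
        Real.norm_eq_abs, sq_abs]
      simp only [ha]
      rw [real_inner_self_eq_norm_sq (u x)]
    have h4 : t x * a x = -b x + Real.sqrt (Δ x) := by
      simp only [ht]
      field_simp
    have h5 : Real.sqrt (Δ x) ^ 2 = Δ x := Real.sq_sqrt h2.le
    have h6 : a x * (inner ℝ x x + 2 * (t x * b x) + t x ^ 2 * a x) = a x * 1 := by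
      have h7 : a x * (inner ℝ x x + 2 * (t x * b x) + t x ^ 2 * a x) =
          a x * inner ℝ x x + 2 * (t x * a x) * b x + (t x * a x) ^ 2 := by ring
      rw [h7, h4]
      have h8 : Δ x = b x ^ 2 + a x * (1 - inner ℝ x x) := rfl
      rw [h8] at h5
      rw [h8]
      linear_combination h5
    have h9 := mul_left_cancel₀ h1.ne' h6
    rw [← h3] at h9
    have h10 : ‖x + t x • u x‖ = 1 := by
      have h11 := norm_nonneg (x + t x • u x)
      nlinarith
    exact h10
  · intro x hx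
    have h1 := hsph x hx
    have h2 : Δ x = b x ^ 2 := by
      simp only [hΔ]
      rw [real_inner_self_eq_norm_sq, hx]; ring
    have h3 : t x = 0 := by
      simp only [ht]
      rw [h2, Real.sqrt_sq h1.le]; simp
    show x + t x • u x = x
    rw [h3, zero_smul, add_zero]

end Pool.Agent.TSP92
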