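import Pool.Agent.Helper92.TSP.Defs

/-! Zeros of outward fields on a product of two balls. -/

set_option autoImplicit false

namespace Pool.Agent.TSP92

open Finset

/-- radial projection to the ball of radius `ρ` -/
private noncomputable def prj {ι : Type} [Fintype ι] (ρ : ℝ) (w : ι → ℝ) : ι → ℝ :=
  fun i => ρ / max ρ (Real.sqrt (∑ j, w j ^ 2)) * w i

private theorem prj_cont {ι : Type} [Fintype ι] {ρ : ℝ} (hρ : 0 < ρ) :
    Continuous (prj (ι := ι) ρ) := by
  unfold prj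
  refine continuous_pi fun i => ?_
  refine Continuous.mul (Continuous.div continuous_const (by fun_prop) fun w => ?_) (by fun_prop)
  exact (lt_of_lt_of_le hρ (le_max_left _ _)).ne'

private theorem prj_le {ι : Type} [Fintype ι] {ρ : ℝ} (hρ : 0 < ρ) (w : ι → ℝ) :
    ∑ i, prj ρ w i ^ 2 ≤ ρ ^ 2 := by
  unfold prj
  have h0 : 0 ≤ ∑ j, w j ^ 2 := Finset.sum_nonneg fun j _ => sq_nonneg _
  set m := max ρ (Real.sqrt (∑ j, w j ^ 2)) with hm
  have hm0 : 0 < m := lt_of_lt_of_le hρ (le_max_left _ _)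
  have h1 : ∑ j, w j ^ 2 ≤ m ^ 2 := by
    have h2 : Real.sqrt (∑ j, w j ^ 2) ≤ m := le_max_right _ _
    rw [← Real.sq_sqrt h0]
    exact pow_le_pow_left₀ (Real.sqrt_nonneg _) h2 2
  have h3 : ∑ i, (ρ / m * w i) ^ 2 = (ρ / m) ^ 2 * ∑ i, w i ^ 2 := by
    rw [Finset.mul_sum]
    exact Finset.sum_congr rfl fun i _ => by ring
  rw [h3, div_pow, div_mul_eq_mul_div, div_le_iff₀ (by positivity)]
  gcongr

private theorem prj_eq {ι : Type} [Fintype ι] {ρ : ℝ} (hρ : 0 < ρ) (w : ι → ℝ)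
    (hw : ∑ j, w j ^ 2 ≤ ρ ^ 2) : prj ρ w = w := by
  unfold prj
  have h1 : Real.sqrt (∑ j, w j ^ 2) ≤ ρ := by
    rw [Real.sqrt_le_left hρ.le]
    exact hw
  funext i
  rw [max_eq_left h1, div_self hρ.ne', one_mul]

private theorem prj_zero {ι : Type} [Fintype ι] {ρ : ℝ} (hρ : 0 < ρ) (v g : ι → ℝ)
    (h : prj ρ (fun i => v i - g i) = v) (hv : ∑ i, v i ^ 2 = ρ ^ 2 → 0 ≤ ∑ i, g i * v i) :
    ∀ i, g i = 0 := by
  set w : ι → ℝ := fun i => v i - g i with hw
  by_cases hle : ∑ j, w j ^ 2 ≤ ρ ^ 2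
  · rw [prj_eq hρ w hle] at h
    intro i
    have := congrFun h i
    simp only [hw] at this
    linarith
  · exfalso
    push Not at hle
    have h0 : 0 ≤ ∑ j, w j ^ 2 := Finset.sum_nonneg fun j _ => sq_nonneg _
    set m := Real.sqrt (∑ j, w j ^ 2) with hm
    have hm2 : m ^ 2 = ∑ j, w j ^ 2 := Real.sq_sqrt h0
    have hρm : ρ < m := by
      rw [hm, Real.lt_sqrt hρ.le]
      exact hle
    have hm0 : 0 < m := hρ.trans hρm
    have hv2 : ∀ i, v i = ρ / m * w i := by
      intro i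
      have := congrFun h i
      unfold prj at this
      rw [← hm, max_eq_right hρm.le] at this
      exact this.symm
    have hvn : ∑ i, v i ^ 2 = ρ ^ 2 := by
      have h3 : ∑ i, v i ^ 2 = (ρ / m) ^ 2 * ∑ i, w i ^ 2 := by
        rw [Finset.mul_sum]
        exact Finset.sum_congr rfl fun i _ => by rw [hv2]; ring
      rw [h3, ← hm2, div_pow, div_mul_cancel₀]
      positivity
    have h4 := hv hvn
    have h5 : ∀ i, g i = (1 - m / ρ) * v i := by
      intro i
      have h6 : w i = m / ρ * v i := by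
        rw [hv2, ← mul_assoc, div_mul_div_comm, mul_comm m ρ, div_self (by positivity), one_mul]
      have h7 : w i = v i - g i := rfl
      linarith
    have h8 : ∑ i, g i * v i = (1 - m / ρ) * ρ ^ 2 := by
      rw [← hvn, Finset.mul_sum]
      exact Finset.sum_congr rfl fun i _ => by rw [h5]; ring
    rw [h8] at h4
    have h9 : 1 < m / ρ := by
      rw [lt_div_iff₀ hρ]
      linarith
    have h10 : 0 < ρ ^ 2 := by positivity
    nlinarith

/-- componentwise radial projection -/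
private noncomputable def prc {k l : ℕ} (c : Fin k ⊕ Fin l → ℝ) (ρ : ℝ)
    (x : Fin k ⊕ Fin l → ℝ) : Fin k ⊕ Fin l → ℝ :=
  Sum.elim (fun a => c (Sum.inl a) + prj ρ (fun a => x (Sum.inl a) - c (Sum.inl a)) a)
    (fun b => c (Sum.inr b) + prj ρ (fun b => x (Sum.inr b) - c (Sum.inr b)) b)

private theorem prc_cont {k l : ℕ} (c : Fin k ⊕ Fin l → ℝ) {ρ : ℝ} (hρ : 0 < ρ) :
    Continuous (prc c ρ) := by
  refine continuous_pi fun i => ?_
  rcases i with a | b
  · have h1 : Continuous (fun x : Fin k ⊕ Fin l → ℝ => fun a => x (Sum.inl a) - c (Sum.inl a)) := by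
      fun_prop
    exact continuous_const.add ((continuous_apply a).comp ((prj_cont hρ).comp h1))
  · have h1 : Continuous (fun x : Fin k ⊕ Fin l → ℝ => fun b => x (Sum.inr b) - c (Sum.inr b)) := by
      fun_prop
    exact continuous_const.add ((continuous_apply b).comp ((prj_cont hρ).comp h1))

private theorem prc_eq {k l : ℕ} (c : Fin k ⊕ Fin l → ℝ) {ρ : ℝ} (hρ : 0 < ρ)
    (x : Fin k ⊕ Fin l → ℝ) (h1 : ∑ a, (x (Sum.inl a) - c (Sum.inl a)) ^ 2 ≤ ρ ^ 2)
    (h2 : ∑ b, (x (Sum.inr b) - c (Sum.inr b)) ^ 2 ≤ ρ ^ 2) : prc c ρ x = x := by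
  funext i
  rcases i with a | b
  · simp only [prc, Sum.elim_inl]
    rw [prj_eq hρ _ h1]
    ring
  · simp only [prc, Sum.elim_inr]
    rw [prj_eq hρ _ h2]
    ring

private theorem prc_inl {k l : ℕ} (c : Fin k ⊕ Fin l → ℝ) {ρ : ℝ} (hρ : 0 < ρ)
    (x : Fin k ⊕ Fin l → ℝ) :
    ∑ a, (prc c ρ x (Sum.inl a) - c (Sum.inl a)) ^ 2 ≤ ρ ^ 2 := by
  simp only [prc, Sum.elim_inl, add_sub_cancel_left]
  exact prj_le hρ _

private theorem prc_inr {k l : ℕ} (c : Fin k ⊕ Fin l → ℝ) {ρ : ℝ} (hρ : 0 < ρ)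
    (x : Fin k ⊕ Fin l → ℝ) :
    ∑ b, (prc c ρ x (Sum.inr b) - c (Sum.inr b)) ^ 2 ≤ ρ ^ 2 := by
  simp only [prc, Sum.elim_inr, add_sub_cancel_left]
  exact prj_le hρ _

theorem zeroLemma_of (k l : ℕ) (h : BrouwerBall (k + l)) : ZeroLemma k l := by
  intro G c ρ hρ hG hin hout
  set F : (Fin k ⊕ Fin l → ℝ) → (Fin k ⊕ Fin l → ℝ) :=
    fun x => prc c ρ (fun i => prc c ρ x i - G (prc c ρ x) i) with hF
  have hFc : Continuous F := by
    refine (prc_cont c hρ).comp ?_
    refine continuous_pi fun i => ?_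
    exact ((continuous_apply i).comp (prc_cont c hρ)).sub
      ((continuous_apply i).comp (hG.comp (prc_cont c hρ)))
  set T : EuclideanSpace ℝ (Fin (k + l)) → (Fin k ⊕ Fin l → ℝ) :=
    fun u i => c i + 2 * ρ * u (finSumFinEquiv i) with hT
  have hTc : Continuous T := by
    refine continuous_pi fun i => ?_
    fun_prop
  set f : EuclideanSpace ℝ (Fin (k + l)) → EuclideanSpace ℝ (Fin (k + l)) :=
    fun u => WithLp.toLp 2 (fun j => (F (T u) (finSumFinEquiv.symm j) -
      c (finSumFinEquiv.symm j)) / (2 * ρ)) with hf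
  have hfc : Continuous f := by
    refine (PiLp.continuous_toLp 2 _).comp ?_
    refine continuous_pi fun j => ?_
    exact (((continuous_apply _).comp (hFc.comp hTc)).sub continuous_const).div_const _
  have hmaps : Set.MapsTo f (Metric.closedBall 0 1) (Metric.closedBall 0 1) := by
    intro u _
    rw [mem_closedBall_zero_iff, EuclideanSpace.norm_eq, Real.sqrt_le_left zero_le_one, one_pow]
    have h1 : ∑ j, ‖f u j‖ ^ 2 = ∑ j : Fin (k + l), ((F (T u) (finSumFinEquiv.symm j) -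
        c (finSumFinEquiv.symm j)) / (2 * ρ)) ^ 2 := by
      refine Finset.sum_congr rfl fun j _ => ?_
      rw [Real.norm_eq_abs, sq_abs]
    have h2 : ∑ j : Fin (k + l), ((F (T u) (finSumFinEquiv.symm j) -
        c (finSumFinEquiv.symm j)) / (2 * ρ)) ^ 2 =
        ∑ i : Fin k ⊕ Fin l, ((F (T u) i - c i) / (2 * ρ)) ^ 2 :=
      Equiv.sum_comp finSumFinEquiv.symm
        (fun i : Fin k ⊕ Fin l => ((F (T u) i - c i) / (2 * ρ)) ^ 2)
    rw [h1, h2, Fintype.sum_sum_type]
    simp only [div_pow]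
    rw [← Finset.sum_div, ← Finset.sum_div, ← add_div, div_le_one (by positivity)]
    have h3 := prc_inl c hρ (fun i => prc c ρ (T u) i - G (prc c ρ (T u)) i)
    have h4 := prc_inr c hρ (fun i => prc c ρ (T u) i - G (prc c ρ (T u)) i)
    have h5 : 0 ≤ ρ ^ 2 := sq_nonneg ρ
    calc _ ≤ ρ ^ 2 + ρ ^ 2 := add_le_add h3 h4
      _ ≤ (2 * ρ) ^ 2 := by nlinarith
  obtain ⟨u, -, hu⟩ := h f hfc.continuousOn hmaps
  have hx : F (T u) = T u := by
    funext i
    have h1 := congrArg (fun v : EuclideanSpace ℝ (Fin (k + l)) => v (finSumFinEquiv i)) hu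
    simp only [hf, Equiv.symm_apply_apply] at h1
    rw [div_eq_iff (by positivity)] at h1
    simp only [hT] at h1 ⊢
    linarith
  set x := T u with hxdef
  have hx1 : ∑ a, (x (Sum.inl a) - c (Sum.inl a)) ^ 2 ≤ ρ ^ 2 := by
    rw [← hx]
    exact prc_inl c hρ _
  have hx2 : ∑ b, (x (Sum.inr b) - c (Sum.inr b)) ^ 2 ≤ ρ ^ 2 := by
    rw [← hx]
    exact prc_inr c hρ _
  have hfix : prc c ρ (fun i => x i - G x i) = x := by
    have h1 : F x = prc c ρ (fun i => x i - G x i) := by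
      simp only [hF]
      rw [prc_eq c hρ x hx1 hx2]
    rw [← h1]
    exact hx
  refine ⟨x, hx1, hx2, ?_⟩
  have hleft : ∀ a, G x (Sum.inl a) = 0 := by
    refine prj_zero hρ (fun a => x (Sum.inl a) - c (Sum.inl a)) (fun a => G x (Sum.inl a)) ?_
      (fun h1 => hin x h1 hx2)
    funext a
    have h1 := congrFun hfix (Sum.inl a)
    simp only [prc, Sum.elim_inl] at h1
    have h2 : (fun a => x (Sum.inl a) - G x (Sum.inl a) - c (Sum.inl a)) =
        (fun a => x (Sum.inl a) - c (Sum.inl a) - G x (Sum.inl a)) := by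
      funext a; ring
    rw [h2] at h1
    linarith
  have hright : ∀ b, G x (Sum.inr b) = 0 := by
    refine prj_zero hρ (fun b => x (Sum.inr b) - c (Sum.inr b)) (fun b => G x (Sum.inr b)) ?_
      (fun h1 => hout x h1 hx1)
    funext b
    have h1 := congrFun hfix (Sum.inr b)
    simp only [prc, Sum.elim_inr] at h1
    have h2 : (fun b => x (Sum.inr b) - G x (Sum.inr b) - c (Sum.inr b)) =
        (fun b => x (Sum.inr b) - c (Sum.inr b) - G x (Sum.inr b)) := by
      funext b; ring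
    rw [h2] at h1
    linarith
  funext i
  rcases i with a | b
  · exact hleft a
  · exact hright b

end Pool.Agent.TSP92
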