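import Pool.Agent.Helper92.TSP.Defs

/-! Closed walks. -/

set_option autoImplicit false

namespace Pool.Agent.TSP92

open Finset

theorem wcost_append {α : Type} (d : α → α → ℝ) (y : α) (l' : List α) (l : List α) :
    ∀ x : α, wcost d x (l ++ y :: l') = wcost d x (l ++ [y]) + wcost d y l' := by
  induction l with
  | nil => intro x; simp [wcost]
  | cons a l ih =>
    intro x
    simp only [List.cons_append, wcost]
    rw [ih a]
    ring

theorem wcost_nonneg {α : Type} (d : α → α → ℝ) (hd : ∀ x y, 0 ≤ d x y) (x : α) (l : List α) :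
    0 ≤ wcost d x l := by
  induction l generalizing x with
  | nil => exact le_rfl
  | cons a l ih => exact add_nonneg (hd _ _) (ih a)

theorem Reach.mono {α : Type} {d : α → α → ℝ} {V : Set α} {x : α} {S S' : Set α} {c c' : ℝ}
    (h : Reach d V x S c) (hS : S' ⊆ S) (hc : c ≤ c') : Reach d V x S' c' := by
  obtain ⟨l, h1, h2, h3⟩ := h
  exact ⟨l, h1, fun s hs => h2 s (hS hs), h3.trans hc⟩

theorem Reach.nil {α : Type} {d : α → α → ℝ} {V : Set α} {x : α} (hd : d x x = 0) :
    Reach d V x ∅ 0 := by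
  refine ⟨[], by simp, by simp, ?_⟩
  simp [wcost, hd]

theorem Reach.union {α : Type} {d : α → α → ℝ} {V : Set α} {x : α} {S T : Set α} {c c' : ℝ}
    (hx : x ∈ V) (h : Reach d V x S c) (h' : Reach d V x T c') :
    Reach d V x (S ∪ T) (c + c') := by
  obtain ⟨l, h1, h2, h3⟩ := h
  obtain ⟨l', h1', h2', h3'⟩ := h'
  refine ⟨l ++ x :: l', ?_, ?_, ?_⟩
  · intro y hy
    rcases List.mem_append.1 hy with hy | hy
    · exact h1 y hy
    · rcases List.mem_cons.1 hy with rfl | hy
      · exact hx
      · exact h1' y hy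
  · rintro s (hs | hs)
    · exact List.mem_append_left _ (h2 s hs)
    · exact List.mem_append_right _ (List.mem_cons_of_mem _ (h2' s hs))
  · have e : (l ++ x :: l') ++ [x] = l ++ x :: (l' ++ [x]) := by simp
    rw [e, wcost_append]
    exact add_le_add h3 h3'

theorem Reach.step {α : Type} {d : α → α → ℝ} {V : Set α} {x y : α} {S : Set α} {c : ℝ}
    (hs : ∀ a b, d a b = d b a) (hy : y ∈ V) (h : Reach d V y S c) :
    Reach d V x (insert y S) (2 * d x y + c) := by
  obtain ⟨l, h1, h2, h3⟩ := h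
  refine ⟨y :: (l ++ [y]), ?_, ?_, ?_⟩
  · intro z hz
    rcases List.mem_cons.1 hz with rfl | hz
    · exact hy
    · rcases List.mem_append.1 hz with hz | hz
      · exact h1 z hz
      · rw [List.mem_singleton] at hz
        rw [hz]
        exact hy
  · rintro s (rfl | hs')
    · exact List.mem_cons_self
    · exact List.mem_cons_of_mem _ (List.mem_append_left _ (h2 s hs'))
  · have e : (y :: (l ++ [y])) ++ [x] = y :: (l ++ y :: [x]) := by simp
    rw [e]
    simp only [wcost]
    rw [wcost_append]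
    simp only [wcost]
    rw [hs y x]
    linarith

theorem Reach.biUnion {α I : Type} {d : α → α → ℝ} {V : Set α} {x : α} (hd : d x x = 0)
    (hx : x ∈ V) (s : Finset I) (S : I → Set α) (c : I → ℝ)
    (h : ∀ i ∈ s, Reach d V x (S i) (c i)) :
    Reach d V x (⋃ i ∈ s, S i) (∑ i ∈ s, c i) := by
  classical
  induction s using Finset.induction_on with
  | empty =>
    have e : (⋃ i ∈ (∅ : Finset I), S i) = (∅ : Set α) := by simp
    rw [e, Finset.sum_empty]
    exact Reach.nil hd
  | insert i s hi ih =>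
    rw [Finset.set_biUnion_insert, Finset.sum_insert hi]
    exact (h i (Finset.mem_insert_self i s)).union hx
      (ih fun j hj => h j (Finset.mem_insert_of_mem hj))

private theorem wcost_map_le {α β : Type} {d : α → α → ℝ} {d' : β → β → ℝ} {V : Set α}
    {κ : ℝ} (F : α → β) (hF : ∀ v ∈ V, ∀ w ∈ V, d' (F v) (F w) ≤ κ * d v w) (l : List α) :
    ∀ x ∈ V, (∀ y ∈ l, y ∈ V) → wcost d' (F x) (l.map F) ≤ κ * wcost d x l := by
  induction l with
  | nil => intro x _ _; simp [wcost]
  | cons a l ih =>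
    intro x hx hl
    simp only [List.map_cons, wcost]
    have ha : a ∈ V := hl a List.mem_cons_self
    have h1 := hF x hx a ha
    have h2 := ih a ha fun y hy => hl y (List.mem_cons_of_mem _ hy)
    linarith

theorem Reach.map {α β : Type} {d : α → α → ℝ} {d' : β → β → ℝ} {V : Set α} {W : Set β}
    {x : α} {S : Set α} {c κ : ℝ} (F : α → β) (hx : x ∈ V) (hFV : ∀ v ∈ V, F v ∈ W)
    (hκ : 0 ≤ κ) (hF : ∀ v ∈ V, ∀ w ∈ V, d' (F v) (F w) ≤ κ * d v w)
    (h : Reach d V x S c) : Reach d' W (F x) (F '' S) (κ * c) := by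
  obtain ⟨l, h1, h2, h3⟩ := h
  refine ⟨l.map F, ?_, ?_, ?_⟩
  · intro y hy
    obtain ⟨z, hz, rfl⟩ := List.mem_map.1 hy
    exact hFV z (h1 z hz)
  · rintro _ ⟨s, hs, rfl⟩
    exact List.mem_map_of_mem (h2 s hs)
  · have e : l.map F ++ [F x] = (l ++ [x]).map F := by simp
    rw [e]
    refine (wcost_map_le F hF (l ++ [x]) x hx ?_).trans (mul_le_mul_of_nonneg_left h3 hκ)
    intro y hy
    rcases List.mem_append.1 hy with hy | hy
    · exact h1 y hy
    · rw [List.mem_singleton] at hy
      rw [hy]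
      exact hx

theorem IsMet.nonneg {α : Type} {d : α → α → ℝ} (hd : IsMet d) (x y : α) : 0 ≤ d x y := by
  have h1 := hd.tri x y x
  rw [(hd.zero x x).2 rfl, hd.symm y x] at h1
  linarith

theorem le_wcost {α : Type} {d : α → α → ℝ} (hd : IsMet d) (y : α) (l : List α) :
    ∀ x, d x y ≤ wcost d x (l ++ [y]) := by
  induction l with
  | nil => intro x; simp [wcost]
  | cons a l ih =>
    intro x
    simp only [List.cons_append, wcost]
    have := ih a
    have := hd.tri x a y
    linarith

theorem Reach.dist_le {α : Type} {d : α → α → ℝ} {V : Set α} {x s : α} {S : Set α} {c : ℝ}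
    (hd : IsMet d) (h : Reach d V x S c) (hs : s ∈ S) : 2 * d x s ≤ c := by
  obtain ⟨l, h1, h2, h3⟩ := h
  obtain ⟨l1, l2, rfl⟩ := List.append_of_mem (h2 s hs)
  have e : (l1 ++ s :: l2) ++ [x] = l1 ++ s :: (l2 ++ [x]) := by simp
  rw [e, wcost_append] at h3
  have h4 := le_wcost hd s l1 x
  have h5 := le_wcost hd x l2 s
  rw [hd.symm s x] at h5
  linarith

end Pool.Agent.TSP92
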