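import Pool.Agent.Helper92.TSP.Defs

/-! Shortcutting a closed walk to a tour. -/

set_option autoImplicit false

namespace Pool.Agent.TSP92

open Finset

private theorem sc_append {α : Type} (d : α → α → ℝ) (y : α) (l' : List α) (l : List α) :
    ∀ x : α, wcost d x (l ++ y :: l') = wcost d x (l ++ [y]) + wcost d y l' := by
  induction l with
  | nil => intro x; simp [wcost]
  | cons a l ih =>
    intro x
    simp only [List.cons_append, wcost]
    rw [ih a]
    ring

private theorem sc_nonneg {α : Type} {d : α → α → ℝ} (hd : IsMet d) (x y : α) : 0 ≤ d x y := by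
  have h1 := hd.tri x y x
  rw [(hd.zero x x).2 rfl, hd.symm y x] at h1
  linarith

private theorem sc_wnonneg {α : Type} {d : α → α → ℝ} (hd : IsMet d) (l : List α) :
    ∀ x, 0 ≤ wcost d x l := by
  induction l with
  | nil => intro x; exact le_rfl
  | cons a l ih => intro x; exact add_nonneg (sc_nonneg hd _ _) (ih a)

private theorem sc_skip {α : Type} {d : α → α → ℝ} (hd : IsMet d) (z a : α) (l : List α) :
    ∀ x, wcost d x (l ++ [z]) ≤ d x a + wcost d a (l ++ [z]) := by
  cases l with
  | nil => intro x; simpa [wcost] using hd.tri x a z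
  | cons b l =>
    intro x
    simp only [List.cons_append, wcost]
    have := hd.tri x a b
    linarith

private theorem sc_sublist {α : Type} {d : α → α → ℝ} (hd : IsMet d) (z : α)
    {l₁ l₂ : List α} (h : l₁.Sublist l₂) :
    ∀ x, wcost d x (l₁ ++ [z]) ≤ wcost d x (l₂ ++ [z]) := by
  induction h with
  | slnil => intro x; exact le_rfl
  | cons a _ ih =>
    intro x
    refine (sc_skip hd z a _ x).trans ?_
    simp only [List.cons_append, wcost]
    exact add_le_add le_rfl (ih a)
  | cons_cons a _ ih =>
    intro x
    simp only [List.cons_append, wcost]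
    exact add_le_add le_rfl (ih a)

private theorem sc_zip {α : Type} (d : α → α → ℝ) (b : α) (l : List α) :
    ∀ a, (((a :: l).zip (l ++ [b])).map (fun p => d p.1 p.2)).sum = wcost d a (l ++ [b]) := by
  induction l with
  | nil => intro a; simp [wcost]
  | cons c l ih =>
    intro a
    have := ih c
    simp only [List.cons_append, List.zip_cons_cons, List.map_cons, List.sum_cons, wcost] at this ⊢
    rw [this]

private theorem sc_tcost {α : Type} (d : α → α → ℝ) (a : α) (l : List α) :
    tcost d (a :: l) = wcost d a (l ++ [a]) := by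
  unfold tcost
  rw [List.rotate_cons_succ, List.rotate_zero]
  exact sc_zip d a l a

theorem shortcut {α : Type} [DecidableEq α] (d : α → α → ℝ) (hd : IsMet d) (x : α)
    (S : Finset α) (c : ℝ) (h : Reach d Set.univ x (S : Set α) c) :
    ∃ M : List α, M.Nodup ∧ (∀ y, y ∈ M ↔ y ∈ S) ∧ tcost d M ≤ c := by
  obtain ⟨l, -, h2, h3⟩ := h
  refine ⟨(l.filter (fun y => decide (y ∈ S))).dedup, List.nodup_dedup _, ?_, ?_⟩
  · intro y
    rw [List.mem_dedup, List.mem_filter, decide_eq_true_iff]
    exact ⟨fun hy => hy.2, fun hy => ⟨h2 y hy, hy⟩⟩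
  · have hsub : ((l.filter (fun y => decide (y ∈ S))).dedup).Sublist l :=
      (List.dedup_sublist _).trans List.filter_sublist
    generalize (l.filter (fun y => decide (y ∈ S))).dedup = M at hsub
    refine le_trans ?_ h3
    cases M with
    | nil =>
      have : tcost d ([] : List α) = 0 := by simp [tcost]
      rw [this]
      exact sc_wnonneg hd _ _
    | cons a M =>
      rw [sc_tcost]
      refine le_trans ?_ (sc_sublist hd x hsub x)
      simp only [List.cons_append, wcost]
      have h4 := sc_sublist hd a (l₁ := M) (l₂ := M ++ [x]) (List.sublist_append_left _ _) a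
      have e : M ++ [x] ++ [a] = M ++ x :: [a] := by simp
      have e2 := sc_append d x [a] M a
      rw [e, e2] at h4
      simp only [wcost] at h4
      linarith

end Pool.Agent.TSP92
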