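import Pool.Agent.Helper92.TSP.Defs

/-! Lower bound for a tour sorted by blocks through total variations. -/

set_option autoImplicit false

namespace Pool.Agent.TSP92

open Finset

private theorem tl_zip {α : Type} (d : α → α → ℝ) (b : α) (l : List α) :
    ∀ a, (((a :: l).zip (l ++ [b])).map (fun p => d p.1 p.2)).sum = wcost d a (l ++ [b]) := by
  induction l with
  | nil => intro a; simp [wcost]
  | cons c l ih =>
    intro a
    have := ih c
    simp only [List.cons_append, List.zip_cons_cons, List.map_cons, List.sum_cons, wcost] at this ⊢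
    rw [this]

private theorem tl_tcost {α : Type} (d : α → α → ℝ) (a : α) (l : List α) :
    tcost d (a :: l) = wcost d a (l ++ [a]) := by
  unfold tcost
  rw [List.rotate_cons_succ, List.rotate_zero]
  exact tl_zip d a l a

private theorem tl_nonneg {α : Type} {d : α → α → ℝ} (hd : IsMet d) (x y : α) : 0 ≤ d x y := by
  have h1 := hd.tri x y x
  rw [(hd.zero x x).2 rfl, hd.symm y x] at h1
  linarith

private theorem tl_le_append {α : Type} {d : α → α → ℝ} (hd : IsMet d) (b : α) (l : List α) :
    ∀ a, wcost d a l ≤ wcost d a (l ++ [b]) := by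
  induction l with
  | nil => intro a; simpa [wcost] using tl_nonneg hd a b
  | cons c l ih =>
    intro a
    simp only [List.cons_append, wcost]
    exact add_le_add le_rfl (ih c)

private theorem tl_mono {α : Type} {h h' : α → α → ℝ} (hh : ∀ x y, h x y ≤ h' x y)
    (l : List α) : ∀ a, wcost h a l ≤ wcost h' a l := by
  induction l with
  | nil => intro a; exact le_rfl
  | cons c l ih =>
    intro a
    simp only [wcost]
    exact add_le_add (hh a c) (ih c)

private theorem tl_sum {α I : Type} (s : Finset I) (h : I → α → α → ℝ) (l : List α) :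
    ∀ a, ∑ i ∈ s, wcost (h i) a l = wcost (fun x y => ∑ i ∈ s, h i x y) a l := by
  induction l with
  | nil => intro a; simp [wcost]
  | cons c l ih =>
    intro a
    simp only [wcost]
    rw [Finset.sum_add_distrib, ih c]

private theorem tl_smul {α : Type} (h : α → α → ℝ) (k : ℝ) (l : List α) :
    ∀ a, wcost (fun x y => k * h x y) a l = k * wcost h a l := by
  induction l with
  | nil => intro a; simp [wcost]
  | cons c l ih =>
    intro a
    simp only [wcost]
    rw [ih c]
    ring

open Classical in
/-- variation inside of one block -/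
private noncomputable def hB {α : Type} (blk : α → ℕ) (g : α → ℝ) (B : ℕ) (x y : α) : ℝ :=
  if blk x = B ∧ blk y = B then |g x - g y| else 0

private theorem hB_nonneg {α : Type} (blk : α → ℕ) (g : α → ℝ) (B : ℕ) (x y : α) :
    0 ≤ hB blk g B x y := by
  unfold hB
  split_ifs
  · exact abs_nonneg _
  · exact le_rfl

private theorem hB_wnonneg {α : Type} (blk : α → ℕ) (g : α → ℝ) (B : ℕ) (l : List α) :
    ∀ a, 0 ≤ wcost (hB blk g B) a l := by
  induction l with
  | nil => intro a; exact le_rfl
  | cons c l ih => intro a; exact add_nonneg (hB_nonneg _ _ _ _ _) (ih c)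

/-- the first point of the list against a later point of the same block -/
private theorem tl_first {α : Type} (blk : α → ℕ) (g : α → ℝ) (B : ℕ) (l : List α) :
    ∀ a, (a :: l).Pairwise (fun x y => blk x ≤ blk y) → blk a = B → ∀ y ∈ l, blk y = B →
      |g a - g y| ≤ wcost (hB blk g B) a l := by
  induction l with
  | nil => intro a _ _ y hy; simp at hy
  | cons b l ih =>
    intro a hp ha y hy hyB
    rw [List.pairwise_cons] at hp
    obtain ⟨h1, h2⟩ := hp
    have hb : blk b = B := by
      apply le_antisymm
      · rcases List.mem_cons.1 hy with rfl | hy'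
        · exact hyB.le
        · rw [← hyB]
          exact (List.pairwise_cons.1 h2).1 y hy'
      · rw [← ha]
        exact h1 b List.mem_cons_self
    have h3 : hB blk g B a b = |g a - g b| := by
      unfold hB
      rw [if_pos ⟨ha, hb⟩]
    simp only [wcost]
    rw [h3]
    rcases List.mem_cons.1 hy with rfl | hy'
    · have := hB_wnonneg blk g B l y
      linarith
    · have h4 := ih b h2 hb y hy' hyB
      have h5 := abs_sub_le (g a) (g b) (g y)
      linarith

private theorem tl_pair {α : Type} (blk : α → ℕ) (g : α → ℝ) (B : ℕ) (l : List α) :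
    ∀ a, (a :: l).Pairwise (fun x y => blk x ≤ blk y) → ∀ x ∈ a :: l, ∀ y ∈ a :: l,
      blk x = B → blk y = B → |g x - g y| ≤ wcost (hB blk g B) a l := by
  induction l with
  | nil =>
    intro a _ x hx y hy _ _
    rw [List.mem_singleton] at hx hy
    rw [hx, hy, sub_self, abs_zero]
    exact le_rfl
  | cons b l ih =>
    intro a hp x hx y hy hxB hyB
    rcases List.mem_cons.1 hx with rfl | hx'
    · rcases List.mem_cons.1 hy with rfl | hy'
      · rw [sub_self, abs_zero]
        exact hB_wnonneg _ _ _ _ _
      · exact tl_first blk g B _ x hp hxB y hy' hyB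
    · rcases List.mem_cons.1 hy with rfl | hy'
      · rw [abs_sub_comm]
        exact tl_first blk g B _ y hp hyB x hx' hxB
      · have h1 := ih b (List.pairwise_cons.1 hp).2 x hx' y hy' hxB hyB
        simp only [wcost]
        have := hB_nonneg blk g B a b
        linarith

theorem tour_lb {α I : Type} (d : α → α → ℝ) (hd : IsMet d) (l : List α) (blk : α → ℕ)
    (hl : l.Pairwise (fun x y => blk x ≤ blk y)) (s : Finset I) (f : I → α → ℝ)
    (hf : ∀ x y, ∑ i ∈ s, |f i x - f i y| ≤ 2 * d x y) (Bs : I → Finset ℕ) (c : ℝ)
    (hB : ∀ i ∈ s, ∀ B ∈ Bs i, ∃ x ∈ l, ∃ y ∈ l, blk x = B ∧ blk y = B ∧ c ≤ f i x - f i y) :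
    ∑ i ∈ s, ((Bs i).card : ℝ) * c ≤ 2 * tcost d l := by
  classical
  cases l with
  | nil =>
    have h1 : ∑ i ∈ s, ((Bs i).card : ℝ) * c = 0 := by
      refine Finset.sum_eq_zero fun i hi => ?_
      have : Bs i = ∅ := by
        rw [Finset.eq_empty_iff_forall_notMem]
        intro B hB'
        obtain ⟨x, hx, -⟩ := hB i hi B hB'
        simp at hx
      rw [this]
      simp
    rw [h1]
    simp [tcost]
  | cons a l =>
    rw [tl_tcost]
    have h1 : ∀ i ∈ s, ((Bs i).card : ℝ) * c ≤
        wcost (fun x y => ∑ B ∈ Bs i, TSP92.hB blk (f i) B x y) a l := by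
      intro i hi
      rw [← tl_sum, ← nsmul_eq_mul, ← Finset.sum_const]
      refine Finset.sum_le_sum fun B hB' => ?_
      obtain ⟨x, hx, y, hy, hxB, hyB, hc⟩ := hB i hi B hB'
      exact hc.trans ((le_abs_self _).trans (tl_pair blk (f i) B l a hl x hx y hy hxB hyB))
    refine (Finset.sum_le_sum h1).trans ?_
    rw [tl_sum]
    have h2 : ∀ x y, ∑ i ∈ s, ∑ B ∈ Bs i, TSP92.hB blk (f i) B x y ≤ 2 * d x y := by
      intro x y
      refine le_trans (Finset.sum_le_sum fun i _ => ?_) (hf x y)
      have h3 : ∀ B ∈ Bs i, TSP92.hB blk (f i) B x y ≤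
          if blk x = B then |f i x - f i y| else 0 := by
        intro B _
        unfold TSP92.hB
        by_cases h : blk x = B
        · rw [if_pos h]
          split_ifs
          · exact le_rfl
          · exact abs_nonneg _
        · rw [if_neg h, if_neg (fun h' => h h'.1)]
      refine (Finset.sum_le_sum h3).trans ?_
      rw [Finset.sum_ite_eq]
      split_ifs
      · exact le_rfl
      · exact abs_nonneg _
    refine (tl_mono h2 l a).trans ?_
    rw [tl_smul]
    exact mul_le_mul_of_nonneg_left (tl_le_append hd a l a) (by norm_num)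

end Pool.Agent.TSP92
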