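import Pool.Agent.Helper92.TSP.Defs
import Pool.Agent.Helper92.TSP.M05
import Pool.Agent.Helper92.TSP.M06
import Pool.Agent.Helper92.TSP.M07

/-! Part I: orders against sets meeting many blocks. -/

set_option autoImplicit false

namespace Pool.Agent.TSP92

open Finset

private theorem p1_length {X : Type} [Fintype X] [DecidableEq X] (L : List X) (hL : L.Nodup)
    (hall : ∀ x, x ∈ L) : L.length = Fintype.card X := by
  rw [← List.toFinset_card_of_nodup hL]
  have : L.toFinset = univ := by
    ext x
    simp [hall x]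
  rw [this, card_univ]

private theorem p1_sorted {X : Type} [DecidableEq X] (L : List X) (hL : L.Nodup) (m : ℕ) :
    L.Pairwise (fun x y => L.idxOf x / m ≤ L.idxOf y / m) := by
  rw [List.pairwise_iff_getElem]
  intro i j hi hj hij
  rw [hL.idxOf_getElem i hi, hL.idxOf_getElem j hj]
  exact Nat.div_le_div_right hij.le

/-- two far points in every full block -/
private theorem p1_base {X : Type} [Fintype X] [DecidableEq X] (d : X → X → ℝ)
    (R : ℝ) (m : ℕ) (hm0 : 0 < m)
    (hm : ∀ x, (Finset.univ.filter (fun y => d x y ≤ 2 * R)).card < m)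
    (L : List X) (hL : L.Nodup) (hall : ∀ x, x ∈ L) (B : ℕ) (hB : B < Fintype.card X / m) :
    ∃ u v : X, L.idxOf u / m = B ∧ L.idxOf v / m = B ∧ 2 * R < d u v := by
  classical
  have hlen := p1_length L hL hall
  have hBm : (B + 1) * m ≤ L.length := by
    rw [hlen]
    exact (Nat.le_div_iff_mul_le hm0).1 hB
  have hBm' : B * m + m ≤ L.length := by rw [← Nat.succ_mul]; exact hBm
  set Q : Finset X := univ.filter (fun y => L.idxOf y / m = B) with hQ
  have hdiv : ∀ i, i < m → (B * m + i) / m = B := by
    intro i hi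
    rw [mul_comm, Nat.mul_add_div hm0, Nat.div_eq_of_lt hi, add_zero]
  have hcard : m ≤ Q.card := by
    have h1 : (univ : Finset (Fin m)).card ≤ Q.card := by
      refine card_le_card_of_injOn (fun i : Fin m => L[B * m + (i : ℕ)]'(by
        have := i.2
        omega)) ?_ ?_
      · intro i _
        rw [hQ]
        simp only [coe_filter, mem_univ, true_and, Set.mem_ofPred_eq]
        rw [hL.idxOf_getElem]
        exact hdiv i i.2
      · intro i _ j _ hij
        have h2 := (hL.getElem_inj_iff).1 hij
        exact Fin.ext (by omega)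
    simpa using h1
  have hne : Q.Nonempty := by
    rw [← card_pos]
    omega
  obtain ⟨u, hu⟩ := hne
  by_contra hcon
  push Not at hcon
  have hsub : Q ⊆ univ.filter (fun y => d u y ≤ 2 * R) := by
    intro y hy
    rw [mem_filter]
    exact ⟨mem_univ _, hcon u y (mem_filter.1 hu).2 (mem_filter.1 hy).2⟩
  have := card_le_card hsub
  have := hm u
  omega

/-- a maximal separated set -/
private theorem p1_sep {X : Type} [DecidableEq X] (d : X → X → ℝ) (hd : IsMet d) (R : ℝ)
    (hR : 0 < R) (Good : Finset X) : ∃ A : Finset X, A ⊆ Good ∧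
      (∀ x ∈ A, ∀ y ∈ A, x ≠ y → 2 * R < d x y) ∧ ∀ g ∈ Good, ∃ x ∈ A, d x g ≤ 2 * R := by
  classical
  set F : Finset (Finset X) := Good.powerset.filter
    (fun A => ∀ x ∈ A, ∀ y ∈ A, x ≠ y → 2 * R < d x y) with hF
  have hne : F.Nonempty := ⟨∅, by simp [hF]⟩
  obtain ⟨A, hA, hmax⟩ := exists_max_image F card hne
  rw [hF, mem_filter, mem_powerset] at hA
  refine ⟨A, hA.1, hA.2, fun g hg => ?_⟩
  by_contra hcon
  push Not at hcon
  have hgA : g ∉ A := by
    intro h
    have h1 := hcon g h
    rw [(hd.zero g g).2 rfl] at h1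
    linarith
  have hins : insert g A ∈ F := by
    rw [hF, mem_filter, mem_powerset]
    refine ⟨insert_subset hg hA.1, ?_⟩
    intro x hx y hy hxy
    rcases mem_insert.1 hx with hx' | hx'
    · rcases mem_insert.1 hy with hy' | hy'
      · exact absurd (hx'.trans hy'.symm) hxy
      · rw [hd.symm, hx']
        exact hcon y hy'
    · rcases mem_insert.1 hy with hy' | hy'
      · rw [hy']
        exact hcon x hx'
      · exact hA.2 x hx' y hy' hxy
  have h1 := hmax _ hins
  rw [card_insert_of_notMem hgA] at h1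
  omega

/-- the test functions -/
private noncomputable def ff {X : Type} (d : X → X → ℝ) (R : ℝ) (x u : X) : ℝ :=
  max 0 (R - d x u)

private theorem ff_lip {X : Type} {d : X → X → ℝ} (hd : IsMet d) (R : ℝ) (x u v : X) :
    |ff d R x u - ff d R x v| ≤ d u v := by
  unfold ff
  refine (abs_max_sub_max_le_max _ _ _ _).trans ?_
  rw [sub_self, abs_zero]
  refine max_le (hd.nonneg u v) ?_
  have h1 := hd.tri x u v
  have h2 := hd.tri x v u
  rw [hd.symm v u] at h2
  rw [abs_le]
  constructor <;> linarith

private theorem ff_sum {X : Type} [DecidableEq X] {d : X → X → ℝ} (hd : IsMet d) (R : ℝ)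
    (A : Finset X) (hA : ∀ x ∈ A, ∀ y ∈ A, x ≠ y → 2 * R < d x y) (u v : X) :
    ∑ x ∈ A, |ff d R x u - ff d R x v| ≤ 2 * d u v := by
  classical
  have hone : ∀ w : X, (A.filter (fun x => d x w < R)).card ≤ 1 := by
    intro w
    rw [card_le_one]
    intro x hx y hy
    rw [mem_filter] at hx hy
    by_contra hne
    have h1 := hA x hx.1 y hy.1 hne
    have h2 := hd.tri x w y
    rw [hd.symm w y] at h2
    linarith [hx.2, hy.2]
  have hz : ∀ x ∈ A, x ∉ A.filter (fun x => d x u < R) ∪ A.filter (fun x => d x v < R) →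
      |ff d R x u - ff d R x v| = 0 := by
    intro x hx hn
    rw [mem_union, mem_filter, mem_filter] at hn
    push Not at hn
    obtain ⟨h1, h2⟩ := hn
    unfold ff
    rw [max_eq_left (by linarith [h1 hx]), max_eq_left (by linarith [h2 hx]), sub_self, abs_zero]
  rw [← sum_subset (union_subset (filter_subset _ A) (filter_subset _ A)) hz]
  calc ∑ x ∈ A.filter (fun x => d x u < R) ∪ A.filter (fun x => d x v < R),
        |ff d R x u - ff d R x v|
      ≤ ∑ _x ∈ A.filter (fun x => d x u < R) ∪ A.filter (fun x => d x v < R), d u v :=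
        sum_le_sum fun x _ => ff_lip hd R x u v
    _ = ((A.filter (fun x => d x u < R) ∪ A.filter (fun x => d x v < R)).card : ℝ) * d u v := by
        rw [sum_const, nsmul_eq_mul]
    _ ≤ 2 * d u v := by
        refine mul_le_mul_of_nonneg_right ?_ (hd.nonneg u v)
        have h1 := card_union_le (A.filter (fun x => d x u < R)) (A.filter (fun x => d x v < R))
        have h2 := hone u
        have h3 := hone v
        have : (A.filter (fun x => d x u < R) ∪ A.filter (fun x => d x v < R)).card ≤ 2 := by
          omega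
        exact_mod_cast this

theorem part1 {X : Type} [Fintype X] [DecidableEq X] (d : X → X → ℝ) (hd : IsMet d)
    (hdiam : ∀ x y, d x y ≤ 1) (R : ℝ) (hR : 0 < R) (hR1 : R ≤ 1) (m b : ℕ) (hb : 1 ≤ b)
    (hm : ∀ x, (Finset.univ.filter (fun y => d x y ≤ 2 * R)).card < m)
    (hX : 0 < Fintype.card X) (L : List X) (hL : L.Nodup) (hall : ∀ x, x ∈ L)
    (Good : Finset X) (hGood : Fintype.card X ≤ 2 * Good.card)
    (hS : ∀ x ∈ Good, ∃ P : Finset X, Reach d Set.univ x (P : Set X) (R / 2) ∧
      b ≤ (P.image (fun y => L.idxOf y / m)).card) :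
    ∃ (S : Finset X) (M : List X) (a : ℝ), 0 < a ∧ M.Nodup ∧ (∀ x, x ∈ M ↔ x ∈ S) ∧
      tcost d M ≤ 11 * a ∧
      a * ((b : ℝ) - 1) * R / 4 ≤ tcost d (L.filter (fun x => decide (x ∈ S))) := by
  classical
  obtain ⟨x1⟩ := Fintype.card_pos_iff.1 hX
  have hm0 : 0 < m := lt_of_le_of_lt (Nat.zero_le _) (hm x1)
  set N := Fintype.card X with hN
  obtain ⟨A, hAG, hAsep, hAmax⟩ := p1_sep d hd R hR Good
  have hdd : ∀ x, d x x = 0 := fun x => (hd.zero x x).2 rfl
  -- A is large
  have hGA : Good.card ≤ A.card * m := by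
    have h1 : Good ⊆ A.biUnion (fun x => univ.filter (fun y => d x y ≤ 2 * R)) := by
      intro g hg
      obtain ⟨x, hx, hxg⟩ := hAmax g hg
      rw [mem_biUnion]
      exact ⟨x, hx, mem_filter.2 ⟨mem_univ _, hxg⟩⟩
    refine (card_le_card h1).trans ?_
    exact card_biUnion_le_card_mul _ _ _ fun x _ => (hm x).le
  have hA0 : 0 < A.card := by
    rcases Nat.eq_zero_or_pos A.card with h0 | h0
    · rw [h0, zero_mul] at hGA
      omega
    · exact h0
  obtain ⟨x0, hx0⟩ := card_pos.1 hA0
  have hNm : N / m ≤ 2 * A.card := by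
    have h1 : N ≤ 2 * A.card * m := by
      calc N ≤ 2 * Good.card := hGood
        _ ≤ 2 * (A.card * m) := Nat.mul_le_mul_left _ hGA
        _ = 2 * A.card * m := by ring
    calc N / m ≤ 2 * A.card * m / m := Nat.div_le_div_right h1
      _ = 2 * A.card := Nat.mul_div_cancel _ hm0
  -- base points
  have hbase : ∀ B : ℕ, ∃ q : X × X, B < N / m →
      (L.idxOf q.1 / m = B ∧ L.idxOf q.2 / m = B ∧ 2 * R < d q.1 q.2) := by
    intro B
    by_cases hB : B < N / m
    · obtain ⟨u, v, h1, h2, h3⟩ := p1_base d R m hm0 hm L hL hall B hB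
      exact ⟨(u, v), fun _ => ⟨h1, h2, h3⟩⟩
    · exact ⟨(x0, x0), fun h => absurd h hB⟩
  choose bp hbp using hbase
  -- the sets P
  have hP : ∀ x : X, ∃ P : Finset X, x ∈ A → (Reach d Set.univ x (P : Set X) (R / 2) ∧
      b ≤ (P.image (fun y => L.idxOf y / m)).card) := by
    intro x
    by_cases hx : x ∈ A
    · obtain ⟨P, hP⟩ := hS x (hAG hx)
      exact ⟨P, fun _ => hP⟩
    · exact ⟨∅, fun h => absurd h hx⟩
  choose P hP using hP
  -- the set
  set S : Finset X := ((range (N / m)).image (fun B => (bp B).1) ∪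
    (range (N / m)).image (fun B => (bp B).2)) ∪ A.biUnion P with hSdef
  -- the closed walk
  have hone : ∀ u : X, Reach d Set.univ x0 {u} 2 := by
    intro u
    have h1 := (Reach.nil (d := d) (V := Set.univ) (x := u) (hdd u)).step
      (x := x0) hd.symm (Set.mem_univ u)
    refine h1.mono (by simp) ?_
    have := hdiam x0 u
    linarith
  have hw1 := Reach.biUnion (d := d) (hdd x0) (Set.mem_univ x0) (range (N / m))
    (fun B => ({(bp B).1} : Set X)) (fun _ => 2) (fun B _ => hone _)
  have hw2 := Reach.biUnion (d := d) (hdd x0) (Set.mem_univ x0) (range (N / m))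
    (fun B => ({(bp B).2} : Set X)) (fun _ => 2) (fun B _ => hone _)
  have hw3 := Reach.biUnion (d := d) (hdd x0) (Set.mem_univ x0) A
    (fun x => (P x : Set X)) (fun _ => 3) (fun x hx => by
      refine (((hP x hx).1).step (x := x0) hd.symm (Set.mem_univ x)).mono
        (Set.subset_insert _ _) ?_
      have := hdiam x0 x
      linarith)
  have hw := (hw1.union (Set.mem_univ x0) hw2).union (Set.mem_univ x0) hw3
  have hwS : Reach d Set.univ x0 (S : Set X) (11 * (A.card : ℝ)) := by
    refine hw.mono ?_ ?_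
    · intro y hy
      rw [hSdef, mem_coe, mem_union, mem_union] at hy
      rcases hy with (hy | hy) | hy
      · obtain ⟨B, hB, rfl⟩ := mem_image.1 hy
        refine Or.inl (Or.inl ?_)
        rw [Set.mem_iUnion₂]
        exact ⟨B, hB, rfl⟩
      · obtain ⟨B, hB, rfl⟩ := mem_image.1 hy
        refine Or.inl (Or.inr ?_)
        rw [Set.mem_iUnion₂]
        exact ⟨B, hB, rfl⟩
      · obtain ⟨x, hx, hyx⟩ := mem_biUnion.1 hy
        refine Or.inr ?_
        rw [Set.mem_iUnion₂]
        exact ⟨x, hx, hyx⟩
    · simp only [sum_const, card_range, nsmul_eq_mul]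
      have h1 : ((N / m : ℕ) : ℝ) ≤ 2 * (A.card : ℝ) := by exact_mod_cast hNm
      linarith
  obtain ⟨M, hM1, hM2, hM3⟩ := shortcut d hd x0 S _ hwS
  refine ⟨S, M, A.card, by exact_mod_cast hA0, hM1, hM2, hM3, ?_⟩
  -- the lower bound
  set Bs : X → Finset ℕ := fun x => ((P x).image (fun y => L.idxOf y / m)).filter
    (fun B => B < N / m) with hBs
  have hBcard : ∀ x ∈ A, b - 1 ≤ (Bs x).card := by
    intro x hx
    have h1 := (hP x hx).2
    have h2 : (P x).image (fun y => L.idxOf y / m) ⊆ insert (N / m) (Bs x) := by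
      intro B hB
      rw [mem_insert, hBs, mem_filter]
      by_cases hlt : B < N / m
      · exact Or.inr ⟨hB, hlt⟩
      · left
        obtain ⟨y, -, rfl⟩ := mem_image.1 hB
        have h3 : L.idxOf y < L.length := List.idxOf_lt_length_iff.2 (hall y)
        rw [p1_length L hL hall] at h3
        have h4 : L.idxOf y / m ≤ N / m := Nat.div_le_div_right h3.le
        omega
    have h3 := (card_le_card h2).trans (card_insert_le _ _)
    omega
  have hlb := tour_lb d hd (L.filter (fun x => decide (x ∈ S))) (fun y => L.idxOf y / m)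
    ((p1_sorted L hL m).sublist List.filter_sublist) A (ff d R) (ff_sum hd R A hAsep) Bs
    (R / 2) (by
      intro x hx B hB
      rw [hBs, mem_filter] at hB
      obtain ⟨hB1, hB2⟩ := hB
      obtain ⟨y, hy, hyB⟩ := mem_image.1 hB1
      obtain ⟨hu, hv, huv⟩ := hbp B hB2
      have hdy : 2 * d x y ≤ R / 2 := ((hP x hx).1).dist_le hd hy
      have hfy : R / 2 ≤ ff d R x y := by
        unfold ff
        refine le_max_of_le_right ?_
        linarith
      have hyS : y ∈ S := by
        rw [hSdef, mem_union]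
        exact Or.inr (mem_biUnion.2 ⟨x, hx, hy⟩)
      have huS : (bp B).1 ∈ S := by
        rw [hSdef, mem_union, mem_union]
        exact Or.inl (Or.inl (mem_image_of_mem _ (mem_range.2 hB2)))
      have hvS : (bp B).2 ∈ S := by
        rw [hSdef, mem_union, mem_union]
        exact Or.inl (Or.inr (mem_image_of_mem _ (mem_range.2 hB2)))
      have hmem : ∀ z ∈ S, z ∈ L.filter (fun x => decide (x ∈ S)) := by
        intro z hz
        rw [List.mem_filter, decide_eq_true_iff]
        exact ⟨hall z, hz⟩
      have htri := hd.tri (bp B).1 x (bp B).2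
      rw [hd.symm (bp B).1 x] at htri
      by_cases hc : R ≤ d x (bp B).1
      · refine ⟨y, hmem y hyS, (bp B).1, hmem _ huS, hyB, hu, ?_⟩
        have : ff d R x (bp B).1 = 0 := by
          unfold ff
          exact max_eq_left (by linarith)
        rw [this]
        linarith
      · refine ⟨y, hmem y hyS, (bp B).2, hmem _ hvS, hyB, hv, ?_⟩
        have : ff d R x (bp B).2 = 0 := by
          unfold ff
          refine max_eq_left ?_
          push Not at hc
          linarith
        rw [this]
        linarith)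
  have h1 : (A.card : ℝ) * (((b : ℝ) - 1) * (R / 2)) ≤
      ∑ x ∈ A, ((Bs x).card : ℝ) * (R / 2) := by
    rw [← nsmul_eq_mul, ← sum_const]
    refine sum_le_sum fun x hx => ?_
    refine mul_le_mul_of_nonneg_right ?_ (by linarith)
    have h2 := hBcard x hx
    have h3 : (b : ℝ) ≤ (Bs x).card + 1 := by
      have : b ≤ (Bs x).card + 1 := by omega
      exact_mod_cast this
    linarith
  linarith

end Pool.Agent.TSP92
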