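import Pool.Agent.Helper92.TSP.Defs

/-! Counting integer points in an l1 ball. -/

set_option autoImplicit false

namespace Pool.Agent.TSP92

open Finset

lemma ut9_one (x : ℝ) (hx0 : 0 ≤ x) (hx1 : x < 1) (M : ℕ) :
    ∑ a ∈ Icc (-(M : ℤ)) M, x ^ a.natAbs ≤ (1 + x) / (1 - x) := by
  have hg : ∀ N : ℕ, ∑ k ∈ range N, x ^ k ≤ (1 - x)⁻¹ := by
    intro N
    rw [← tsum_geometric_of_lt_one hx0 hx1]
    exact (summable_geometric_of_lt_one hx0 hx1).sum_le_tsum _ (fun _ _ => by positivity)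
  have e1 : (Icc (-(M : ℤ)) M).filter (fun a => 0 ≤ a) =
      (range (M + 1)).image (fun k : ℕ => (k : ℤ)) := by
    ext a
    simp only [mem_filter, mem_Icc, mem_image, mem_range]
    constructor
    · rintro ⟨⟨h1, h2⟩, h3⟩
      exact ⟨a.toNat, by omega, by omega⟩
    · rintro ⟨k, hk, rfl⟩
      omega
  have e2 : (Icc (-(M : ℤ)) M).filter (fun a => ¬ 0 ≤ a) =
      (range M).image (fun k : ℕ => -((k : ℤ) + 1)) := by
    ext a
    simp only [mem_filter, mem_Icc, mem_image, mem_range]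
    constructor
    · rintro ⟨⟨h1, h2⟩, h3⟩
      exact ⟨(-a - 1).toNat, by omega, by omega⟩
    · rintro ⟨k, hk, rfl⟩
      omega
  rw [← Finset.sum_filter_add_sum_filter_not _ (fun a => 0 ≤ a), e1, e2,
    Finset.sum_image (by intro a _ b _ h; simpa using h),
    Finset.sum_image (by intro a _ b _ h; simpa using h)]
  have h1 : ∑ k ∈ range (M + 1), x ^ ((k : ℤ)).natAbs ≤ (1 - x)⁻¹ := by
    simpa using hg (M + 1)
  have h2 : ∑ k ∈ range M, x ^ (-((k : ℤ) + 1)).natAbs ≤ x * (1 - x)⁻¹ := by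
    have : ∀ k ∈ range M, x ^ (-((k : ℤ) + 1)).natAbs = x * x ^ k := by
      intro k _
      have : (-((k : ℤ) + 1)).natAbs = k + 1 := by omega
      rw [this, pow_succ]
      ring
    rw [Finset.sum_congr rfl this, ← Finset.mul_sum]
    exact mul_le_mul_of_nonneg_left (hg M) hx0
  have h3 : (1 + x) / (1 - x) = (1 - x)⁻¹ + x * (1 - x)⁻¹ := by
    rw [div_eq_mul_inv]
    ring
  rw [h3]
  exact add_le_add h1 h2

theorem lattice_count {ι : Type} [Fintype ι] [DecidableEq ι] (S : Finset (ι → ℤ)) (ρ : ℝ)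
    (hρ : 0 < ρ) (hS : ∀ y ∈ S, ((∑ i, (y i).natAbs : ℕ) : ℝ) ≤ ρ * Fintype.card ι) :
    (S.card : ℝ) ≤ (Real.exp 1 * (2 * ρ + 1)) ^ (Fintype.card ι) := by
  classical
  set n := Fintype.card ι with hn
  set x : ℝ := ρ / (1 + ρ) with hx
  have hx0 : 0 < x := by positivity
  have hx1 : x < 1 := by
    rw [hx, div_lt_one (by positivity)]
    linarith
  set c : ℝ := x ^ ρ with hc
  have hc0 : 0 < c := Real.rpow_pos_of_pos hx0 _
  have hce : 1 ≤ Real.exp 1 * c := by
    rw [hc, Real.rpow_def_of_pos hx0, ← Real.exp_add, Real.one_le_exp_iff]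
    have h1 : Real.log x = - Real.log (1 + 1 / ρ) := by
      rw [← Real.log_inv]
      congr 1
      rw [hx]
      field_simp
      ring
    have h2 : Real.log (1 + 1 / ρ) ≤ 1 / ρ := by
      have := Real.log_le_sub_one_of_pos (show 0 < 1 + 1 / ρ by positivity)
      linarith
    rw [h1]
    have h3 : Real.log (1 + 1 / ρ) * ρ ≤ 1 := by
      calc Real.log (1 + 1 / ρ) * ρ ≤ 1 / ρ * ρ := mul_le_mul_of_nonneg_right h2 hρ.le
        _ = 1 := by field_simp
    linarith
  set M : ℕ := ∑ y ∈ S, ∑ i, (y i).natAbs with hM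
  have hsub : S ⊆ Fintype.piFinset (fun _ : ι => Icc (-(M : ℤ)) M) := by
    intro y hy
    rw [Fintype.mem_piFinset]
    intro i
    have h1 : (y i).natAbs ≤ ∑ i, (y i).natAbs :=
      Finset.single_le_sum (f := fun i => (y i).natAbs) (fun _ _ => Nat.zero_le _) (mem_univ i)
    have h2 : ∑ i, (y i).natAbs ≤ M :=
      Finset.single_le_sum (f := fun y : ι → ℤ => ∑ i, (y i).natAbs) (fun _ _ => Nat.zero_le _) hy
    rw [mem_Icc]
    omega
  have hmain : (S.card : ℝ) * c ^ n ≤ (2 * ρ + 1) ^ n := by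
    calc (S.card : ℝ) * c ^ n = ∑ y ∈ S, c ^ n := by rw [sum_const, nsmul_eq_mul]
      _ ≤ ∑ y ∈ S, ∏ i, x ^ (y i).natAbs := by
          refine Finset.sum_le_sum fun y hy => ?_
          rw [Finset.prod_pow_eq_pow_sum, hc, ← Real.rpow_natCast (x ^ ρ) n,
            ← Real.rpow_mul hx0.le, ← Real.rpow_natCast x (∑ i, (y i).natAbs)]
          exact Real.rpow_le_rpow_of_exponent_ge hx0 hx1.le (hS y hy)
      _ ≤ ∑ y ∈ Fintype.piFinset (fun _ : ι => Icc (-(M : ℤ)) M), ∏ i, x ^ (y i).natAbs :=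
          Finset.sum_le_sum_of_subset_of_nonneg hsub
            (fun _ _ _ => Finset.prod_nonneg fun _ _ => by positivity)
      _ = ∏ _i : ι, ∑ a ∈ Icc (-(M : ℤ)) M, x ^ a.natAbs := by
          rw [Finset.prod_univ_sum]
      _ ≤ ∏ _i : ι, (2 * ρ + 1) := by
          refine Finset.prod_le_prod (fun _ _ => Finset.sum_nonneg fun _ _ => by positivity)
            fun _ _ => ?_
          refine (ut9_one x hx0.le hx1 M).trans (le_of_eq ?_)
          rw [hx]
          field_simp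
          ring
      _ = (2 * ρ + 1) ^ n := by rw [Finset.prod_const, Finset.card_univ]
  calc (S.card : ℝ) = (S.card : ℝ) * 1 := (mul_one _).symm
    _ ≤ (S.card : ℝ) * (Real.exp 1 * c) ^ n := by
        refine mul_le_mul_of_nonneg_left ?_ (Nat.cast_nonneg _)
        exact one_le_pow₀ hce
    _ = Real.exp 1 ^ n * ((S.card : ℝ) * c ^ n) := by rw [mul_pow]; ring
    _ ≤ Real.exp 1 ^ n * (2 * ρ + 1) ^ n :=
        mul_le_mul_of_nonneg_left hmain (by positivity)
    _ = (Real.exp 1 * (2 * ρ + 1)) ^ n := (mul_pow _ _ _).symm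

end Pool.Agent.TSP92
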