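import Pool.Agent.Helper92.TSP.Defs
import Pool.Agent.Helper92.TSP.M09

/-! The word metric. -/

set_option autoImplicit false

namespace Pool.Agent.TSP92

open Finset

private theorem m10_add {q r d : ℕ} (h : Fin d → (Fin r → ZMod q)) (y z : Fin d → ℤ) :
    HH h (y + z) = HH h y + HH h z := by
  unfold HH
  rw [← Finset.sum_add_distrib]
  apply Finset.sum_congr rfl
  intro i _
  rw [Pi.add_apply, add_smul]

private theorem m10_neg {q r d : ℕ} (h : Fin d → (Fin r → ZMod q)) (y : Fin d → ℤ) :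
    HH h (-y) = - HH h y := by
  unfold HH
  rw [← Finset.sum_neg_distrib]
  apply Finset.sum_congr rfl
  intro i _
  rw [Pi.neg_apply, neg_smul]

private theorem m10_mem {q r d : ℕ} (h : Fin d → (Fin r → ZMod q))
    (hs : Function.Surjective (HH h)) (x : Fin r → ZMod q) :
    ∃ y : Fin d → ℤ, HH h y = x ∧ ∑ i, (y i).natAbs = NN h x := by
  have hne : {n : ℕ | ∃ y : Fin d → ℤ, HH h y = x ∧ ∑ i, (y i).natAbs = n}.Nonempty := by
    obtain ⟨y, hy⟩ := hs x
    exact ⟨_, y, hy, rfl⟩
  exact Nat.sInf_mem hne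

private theorem m10_le {q r d : ℕ} (h : Fin d → (Fin r → ZMod q)) (x : Fin r → ZMod q)
    (y : Fin d → ℤ) (hy : HH h y = x) : NN h x ≤ ∑ i, (y i).natAbs :=
  Nat.sInf_le ⟨y, hy, rfl⟩

private theorem m10_zero {q r d : ℕ} (h : Fin d → (Fin r → ZMod q)) : NN h 0 = 0 := by
  have h1 := m10_le h 0 0 (by unfold HH; simp)
  simpa using h1

private theorem m10_NN_neg {q r d : ℕ} (h : Fin d → (Fin r → ZMod q))
    (hs : Function.Surjective (HH h)) (x : Fin r → ZMod q) : NN h (-x) ≤ NN h x := by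
  obtain ⟨y, hy, hy2⟩ := m10_mem h hs x
  rw [← hy2]
  refine (m10_le h (-x) (-y) (by rw [m10_neg, hy])).trans_eq ?_
  apply Finset.sum_congr rfl
  intro i _
  rw [Pi.neg_apply, Int.natAbs_neg]

private theorem m10_NN_add {q r d : ℕ} (h : Fin d → (Fin r → ZMod q))
    (hs : Function.Surjective (HH h)) (x z : Fin r → ZMod q) :
    NN h (x + z) ≤ NN h x + NN h z := by
  obtain ⟨y, hy, hy2⟩ := m10_mem h hs x
  obtain ⟨y', hy', hy2'⟩ := m10_mem h hs z
  rw [← hy2, ← hy2', ← Finset.sum_add_distrib]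
  refine (m10_le h (x + z) (y + y') (by rw [m10_add, hy, hy'])).trans ?_
  apply Finset.sum_le_sum
  intro i _
  rw [Pi.add_apply]
  exact Int.natAbs_add_le _ _

theorem dX_isMet {q r d : ℕ} [Fact q.Prime] (hd : 0 < d) (h : Fin d → (Fin r → ZMod q))
    (hs : Function.Surjective (HH h)) : IsMet (dX h) := by
  have hq : 0 < q := (Fact.out : q.Prime).pos
  have hpos : (0 : ℝ) < (d : ℝ) * q := by positivity
  refine ⟨?_, ?_, ?_⟩
  · intro x y
    unfold dX
    rw [div_eq_zero_iff]
    constructor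
    · rintro (h1 | h1)
      · have h2 : NN h (x - y) = 0 := by exact_mod_cast h1
        obtain ⟨z, hz, hz2⟩ := m10_mem h hs (x - y)
        rw [h2] at hz2
        have hz0 : z = 0 := by
          funext i
          have := (Finset.sum_eq_zero_iff.mp hz2) i (Finset.mem_univ i)
          simpa using this
        rw [hz0] at hz
        have h3 : HH h 0 = 0 := by unfold HH; simp
        rw [h3] at hz
        exact (sub_eq_zero.mp hz.symm)
      · exact absurd h1 hpos.ne'
    · rintro rfl
      left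
      rw [sub_self, m10_zero]
      norm_num
  · intro x y
    unfold dX
    congr 2
    apply le_antisymm
    · have h1 := m10_NN_neg h hs (y - x)
      rwa [neg_sub] at h1
    · have h1 := m10_NN_neg h hs (x - y)
      rwa [neg_sub] at h1
  · intro x y z
    unfold dX
    rw [← add_div]
    apply div_le_div_of_nonneg_right _ hpos.le
    have h1 := m10_NN_add h hs (x - y) (y - z)
    rw [sub_add_sub_cancel] at h1
    exact_mod_cast h1

theorem dX_le_one {q r d : ℕ} [Fact q.Prime] (hd : 0 < d) (h : Fin d → (Fin r → ZMod q))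
    (hs : Function.Surjective (HH h)) (x y : Fin r → ZMod q) : dX h x y ≤ 1 := by
  have hq : 0 < q := (Fact.out : q.Prime).pos
  have hpos : (0 : ℝ) < (d : ℝ) * q := by positivity
  unfold dX
  rw [div_le_one hpos]
  obtain ⟨z, hz⟩ := hs (x - y)
  have h1 : HH h (fun i => z i % q) = x - y := by
    rw [← hz]
    unfold HH
    apply Finset.sum_congr rfl
    intro i _
    funext a
    rw [Pi.smul_apply, Pi.smul_apply, zsmul_eq_mul, zsmul_eq_mul, ZMod.intCast_mod]
  have h2 := m10_le h _ _ h1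
  have h3 : ∑ i : Fin d, (z i % (q : ℤ)).natAbs ≤ ∑ _i : Fin d, q := by
    apply Finset.sum_le_sum
    intro i _
    have h4 := Int.emod_nonneg (z i) (by omega : (q : ℤ) ≠ 0)
    have h5 := Int.emod_lt_of_pos (z i) (by omega : (0 : ℤ) < q)
    omega
  rw [Finset.sum_const, Finset.card_univ, Fintype.card_fin, smul_eq_mul] at h3
  exact_mod_cast h2.trans h3

theorem dX_le_of {q r d : ℕ} [Fact q.Prime] (h : Fin d → (Fin r → ZMod q))
    (x x' : Fin r → ZMod q) (y : Fin d → ℤ) (hy : HH h y = x - x') :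
    dX h x x' ≤ (∑ i, |(y i : ℝ)|) / ((d : ℝ) * q) := by
  unfold dX
  apply div_le_div_of_nonneg_right _ (by positivity)
  have h1 := m10_le h _ _ hy
  have h2 : ((∑ i, (y i).natAbs : ℕ) : ℝ) = ∑ i, |(y i : ℝ)| := by
    push_cast
    apply Finset.sum_congr rfl
    intro i _
    rw [Nat.cast_natAbs, Int.cast_abs]
  rw [← h2]
  exact_mod_cast h1

theorem ball_card {q r d : ℕ} [Fact q.Prime] (hd : 0 < d) (hq : 100 ≤ q)
    (h : Fin d → (Fin r → ZMod q)) (hs : Function.Surjective (HH h)) (x : Fin r → ZMod q) :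
    ((Finset.univ.filter (fun y => dX h x y ≤ 2 * (1 / 100 : ℝ))).card : ℝ) ≤
      ((q : ℝ) / Real.exp 1) ^ d := by
  classical
  have hqpos : (0 : ℝ) < q := by
    have : 0 < q := by omega
    exact_mod_cast this
  have hdpos : (0 : ℝ) < d := by exact_mod_cast hd
  have hpos : (0 : ℝ) < (d : ℝ) * q := by positivity
  choose g hg using fun z : Fin r → ZMod q => m10_mem h hs z
  let F := Finset.univ.filter (fun y => dX h x y ≤ 2 * (1 / 100 : ℝ))
  let S : Finset (Fin d → ℤ) := F.image (fun y => g (x - y))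
  have hinj : Set.InjOn (fun y => g (x - y)) (F : Set (Fin r → ZMod q)) := by
    intro y _ y' _ hyy
    have h1 : HH h (g (x - y)) = HH h (g (x - y')) := congrArg (HH h) hyy
    rw [(hg _).1, (hg _).1] at h1
    exact sub_right_injective h1
  have hcard : S.card = F.card := Finset.card_image_of_injOn hinj
  have hlat := lattice_count S ((q : ℝ) / 50) (by positivity) (by
    intro y hy
    obtain ⟨z, hz, rfl⟩ := Finset.mem_image.mp hy
    have hz1 : dX h x z ≤ 2 * (1 / 100 : ℝ) := (Finset.mem_filter.mp hz).2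
    unfold dX at hz1
    rw [div_le_iff₀ hpos] at hz1
    rw [(hg _).2, Fintype.card_fin]
    linarith)
  rw [Fintype.card_fin, hcard] at hlat
  refine hlat.trans ?_
  apply pow_le_pow_left₀ (by positivity)
  have he := Real.exp_one_lt_d9
  have he0 := Real.exp_pos 1
  rw [le_div_iff₀ he0]
  have hq' : (100 : ℝ) ≤ q := by exact_mod_cast hq
  have h1 : Real.exp 1 * Real.exp 1 ≤ 7.4 := by nlinarith
  have h2 : Real.exp 1 * (2 * ((q : ℝ) / 50) + 1) * Real.exp 1
      = (Real.exp 1 * Real.exp 1) * ((q : ℝ) / 25 + 1) := by ring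
  rw [h2]
  have h3 : (Real.exp 1 * Real.exp 1) * ((q : ℝ) / 25 + 1) ≤ 7.4 * ((q : ℝ) / 25 + 1) := by
    apply mul_le_mul_of_nonneg_right h1
    positivity
  linarith

end Pool.Agent.TSP92
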