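import Pool.Agent.Helper92.TSP.Defs

/-! Vandermonde columns: weight and surjectivity. -/

set_option autoImplicit false

namespace Pool.Agent.TSP92

open Finset

private theorem cast_inj {q d : ℕ} [Fact q.Prime] (hdq : d ≤ q) {i j : Fin d}
    (h : ((i : ℕ) : ZMod q) = ((j : ℕ) : ZMod q)) : i = j := by
  rw [ZMod.natCast_eq_natCast_iff'] at h
  rw [Nat.mod_eq_of_lt (lt_of_lt_of_le i.2 hdq), Nat.mod_eq_of_lt (lt_of_lt_of_le j.2 hdq)] at h
  exact Fin.ext h

theorem vand_weight {q r d : ℕ} [Fact q.Prime] (hdq : d ≤ q) (hrd : r ≤ d)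
    (k : Fin r → ZMod q) (hk : k ≠ 0) :
    d - r + 1 ≤ (Finset.univ.filter (fun i : Fin d => ∑ a, k a * vand q r d i a ≠ 0)).card := by
  classical
  set P : Polynomial (ZMod q) := ∑ a : Fin r, Polynomial.monomial (a : ℕ) (k a) with hP
  have hcoeff : ∀ a : Fin r, P.coeff (a : ℕ) = k a := by
    intro a
    rw [hP, Polynomial.finsetSum_coeff]
    rw [Finset.sum_eq_single a]
    · rw [Polynomial.coeff_monomial, if_pos rfl]
    · intro b _ hb
      rw [Polynomial.coeff_monomial, if_neg]
      intro h
      exact hb (Fin.ext h)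
    · simp
  have hP0 : P ≠ 0 := by
    intro h0
    apply hk
    funext a
    rw [← hcoeff a, h0, Polynomial.coeff_zero]
    rfl
  have hr : 0 < r := by
    rcases Nat.eq_zero_or_pos r with h | h
    · subst h
      exact absurd (Subsingleton.elim k 0) hk
    · exact h
  have hdeg : P.natDegree ≤ r - 1 := by
    rw [hP]
    refine Polynomial.natDegree_sum_le_of_forall_le _ _ fun a _ => ?_
    refine (Polynomial.natDegree_monomial_le _).trans ?_
    have := a.2
    omega
  have heval : ∀ i : Fin d, P.eval ((i : ℕ) : ZMod q) = ∑ a, k a * vand q r d i a := by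
    intro i
    rw [hP, Polynomial.eval_finsetSum]
    refine Finset.sum_congr rfl fun a _ => ?_
    rw [Polynomial.eval_monomial]
    rfl
  have hzero : (Finset.univ.filter (fun i : Fin d => ∑ a, k a * vand q r d i a = 0)).card ≤
      r - 1 := by
    have h1 : ((Finset.univ.filter (fun i : Fin d => ∑ a, k a * vand q r d i a = 0)).image
        (fun i : Fin d => ((i : ℕ) : ZMod q))).card ≤ P.natDegree := by
      refine le_trans ?_ (Polynomial.card_roots' P)
      refine le_trans (Finset.card_le_card ?_) (Multiset.toFinset_card_le P.roots)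
      intro z hz
      obtain ⟨i, hi, rfl⟩ := Finset.mem_image.mp hz
      rw [Multiset.mem_toFinset, Polynomial.mem_roots hP0, Polynomial.IsRoot, heval]
      exact (Finset.mem_filter.mp hi).2
    rw [Finset.card_image_of_injOn (fun i _ j _ h => cast_inj hdq h)] at h1
    exact h1.trans hdeg
  have hsum := Finset.card_filter_add_card_filter_not
    (s := (Finset.univ : Finset (Fin d))) (p := fun i : Fin d => ∑ a, k a * vand q r d i a = 0)
  rw [Finset.card_univ, Fintype.card_fin] at hsum
  have h2 : (Finset.univ.filter (fun i : Fin d => ∑ a, k a * vand q r d i a ≠ 0)).card =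
      (Finset.univ.filter (fun i : Fin d => ¬ ∑ a, k a * vand q r d i a = 0)).card := rfl
  omega

theorem vand_surj {q r d : ℕ} [Fact q.Prime] (hdq : d ≤ q) (hrd : r ≤ d) :
    Function.Surjective (HH (vand q r d)) := by
  classical
  intro x
  let v : Fin r → ZMod q := fun i => ((i : ℕ) : ZMod q)
  have hv : Function.Injective v := fun i j h => cast_inj (hrd.trans hdq) h
  have hdet : (Matrix.vandermonde v).transpose.det ≠ 0 := by
    rw [Matrix.det_transpose]
    exact Matrix.det_vandermonde_ne_zero_iff.mpr hv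
  set W : Matrix (Fin r) (Fin r) (ZMod q) := (Matrix.vandermonde v).transpose with hW
  have hunit : IsUnit W.det := isUnit_iff_ne_zero.mpr hdet
  set c : Fin r → ZMod q := W⁻¹.mulVec x with hc
  have hWc : W.mulVec c = x := by
    rw [hc, Matrix.mulVec_mulVec, Matrix.mul_nonsing_inv _ hunit, Matrix.one_mulVec]
  let y : Fin d → ℤ := fun i => if h : (i : ℕ) < r then ((c ⟨i, h⟩).val : ℤ) else 0
  refine ⟨y, ?_⟩
  funext a
  have h1 : HH (vand q r d) y a = ∑ i : Fin d, ((y i : ℤ) : ZMod q) * ((i : ℕ) : ZMod q) ^ (a : ℕ) := by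
    unfold HH
    rw [Finset.sum_apply]
    refine Finset.sum_congr rfl fun i _ => ?_
    rw [Pi.smul_apply, zsmul_eq_mul]
    rfl
  have h2 : ∑ i : Fin d, ((y i : ℤ) : ZMod q) * ((i : ℕ) : ZMod q) ^ (a : ℕ) =
      ∑ i : Fin r, c i * v i ^ (a : ℕ) := by
    symm
    refine Finset.sum_of_injOn (Fin.castLE hrd) (Fin.castLE_injective hrd).injOn
      (fun _ _ => Finset.mem_coe.mpr (Finset.mem_univ _)) ?_ ?_
    · intro i _ hi
      have : ¬ (i : ℕ) < r := by
        intro h
        apply hi
        exact ⟨⟨i, h⟩, Finset.mem_coe.mpr (Finset.mem_univ _), Fin.ext rfl⟩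
      have hy : y i = 0 := dif_neg this
      rw [hy, Int.cast_zero, zero_mul]
    · intro i _
      have hy : y (Fin.castLE hrd i) = ((c i).val : ℤ) := dif_pos i.2
      rw [hy, Int.cast_natCast, ZMod.natCast_val, ZMod.cast_id]
      rfl
  rw [h1, h2, ← congrFun hWc a]
  unfold Matrix.mulVec dotProduct
  refine Finset.sum_congr rfl fun i _ => ?_
  change c i * v i ^ (a : ℕ) = Matrix.vandermonde v i a * c i
  rw [Matrix.vandermonde_apply, mul_comm]

end Pool.Agent.TSP92
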