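import Pool.Agent.Helper92.TSP.Defs

/-! Fourier bound for translates of a partition. -/

set_option autoImplicit false

namespace Pool.Agent.TSP92

open Finset

section FB

variable {q r : ℕ} [Fact q.Prime]

/-- the characters of the vector space -/
private noncomputable def fbChi (k x : Fin r → ZMod q) : ℂ := ZMod.stdAddChar (∑ a, k a * x a)

private theorem fbChi_add (k x y : Fin r → ZMod q) : fbChi k (x + y) = fbChi k x * fbChi k y := by
  unfold fbChi
  rw [← AddChar.map_add_eq_mul]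
  congr 1
  rw [← Finset.sum_add_distrib]
  exact Finset.sum_congr rfl (fun a _ => by rw [Pi.add_apply, mul_add])

private theorem fbChi_neg (k x : Fin r → ZMod q) :
    fbChi k (-x) = (starRingEnd ℂ) (fbChi k x) := by
  unfold fbChi
  rw [← AddChar.map_neg_eq_conj]
  congr 1
  rw [← Finset.sum_neg_distrib]
  exact Finset.sum_congr rfl (fun a _ => by rw [Pi.neg_apply, mul_neg])

private theorem fbChi_prod (k x : Fin r → ZMod q) :
    fbChi k x = ∏ a, (ZMod.stdAddChar (k a * x a) : ℂ) := by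
  classical
  unfold fbChi
  have h : ∀ s : Finset (Fin r), (ZMod.stdAddChar (∑ a ∈ s, k a * x a) : ℂ) =
      ∏ a ∈ s, (ZMod.stdAddChar (k a * x a) : ℂ) := by
    intro s
    induction s using Finset.induction_on with
    | empty => simp
    | insert a s ha ih =>
      rw [Finset.sum_insert ha, Finset.prod_insert ha, AddChar.map_add_eq_mul, ih]
  exact h Finset.univ

private theorem fbChi_orth (x : Fin r → ZMod q) :
    ∑ k : Fin r → ZMod q, fbChi k x = if x = 0 then (q : ℂ) ^ r else 0 := by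
  classical
  simp only [fbChi_prod]
  have h2 : ∑ k : Fin r → ZMod q, ∏ a, (ZMod.stdAddChar (k a * x a) : ℂ) =
      ∏ a, ∑ j : ZMod q, (ZMod.stdAddChar (j * x a) : ℂ) := by
    rw [Finset.prod_univ_sum, Fintype.piFinset_univ]
  rw [h2]
  have h3 : ∀ a, ∑ j : ZMod q, (ZMod.stdAddChar (j * x a) : ℂ) =
      if x a = 0 then (q : ℂ) else 0 := by
    intro a
    rw [AddChar.sum_mulShift (x a) (ZMod.isPrimitive_stdAddChar q), ZMod.card]
    split_ifs <;> simp
  simp only [h3]
  split_ifs with h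
  · rw [h]
    simp
  · obtain ⟨a, ha⟩ := Function.ne_iff.1 h
    have ha' : x a ≠ 0 := ha
    exact Finset.prod_eq_zero (Finset.mem_univ a) (by rw [if_neg ha'])

private theorem fbChi_zero (x : Fin r → ZMod q) : fbChi 0 x = 1 := by
  unfold fbChi
  simp

/-- counting pairs with characters -/
private theorem fb_count (A : Finset (Fin r → ZMod q)) (y : Fin r → ZMod q) :
    ∑ k : Fin r → ZMod q, ((∑ x ∈ A, fbChi k x) * (starRingEnd ℂ) (∑ x ∈ A, fbChi k x)) *
      fbChi k (-y) = (q : ℂ) ^ r * ((A.filter (fun x => x + y ∈ A)).card : ℂ) := by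
  classical
  have h1 : ∀ k : Fin r → ZMod q,
      ((∑ x ∈ A, fbChi k x) * (starRingEnd ℂ) (∑ x ∈ A, fbChi k x)) * fbChi k (-y) =
      ∑ x ∈ A, ∑ x' ∈ A, fbChi k (x + -x' + -y) := by
    intro k
    rw [map_sum, Finset.sum_mul_sum, Finset.sum_mul]
    refine Finset.sum_congr rfl (fun x _ => ?_)
    rw [Finset.sum_mul]
    refine Finset.sum_congr rfl (fun x' _ => ?_)
    rw [fbChi_add, fbChi_add, fbChi_neg k x']
  simp only [h1]
  rw [Finset.sum_comm]
  have h2 : ∀ x ∈ A, ∑ k : Fin r → ZMod q, ∑ x' ∈ A, fbChi k (x + -x' + -y) =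
      ∑ x' ∈ A, if x + -x' + -y = 0 then (q : ℂ) ^ r else 0 := by
    intro x _
    rw [Finset.sum_comm]
    exact Finset.sum_congr rfl (fun x' _ => fbChi_orth _)
  rw [Finset.sum_congr rfl h2, Finset.sum_comm]
  have h3 : ∀ x' ∈ A, (∑ x ∈ A, if x + -x' + -y = 0 then (q : ℂ) ^ r else 0) =
      if x' + y ∈ A then (q : ℂ) ^ r else 0 := by
    intro x' _
    have h4 : ∀ x : Fin r → ZMod q, (x + -x' + -y = 0) ↔ (x' + y = x) := by
      intro x
      constructor
      · intro h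
        have h5 : x - (x' + y) = 0 := by rw [← h]; abel
        exact (sub_eq_zero.1 h5).symm
      · intro h
        rw [← h]; abel
    simp only [h4]
    rw [Finset.sum_ite_eq]
  rw [Finset.sum_congr rfl h3, ← Finset.sum_filter, Finset.sum_const, nsmul_eq_mul, mul_comm]

private theorem fb_parseval (A : Finset (Fin r → ZMod q)) :
    ∑ k : Fin r → ZMod q, ‖∑ x ∈ A, fbChi k x‖ ^ 2 = (q : ℝ) ^ r * (A.card : ℝ) := by
  have h := fb_count A 0
  have h1 : ∀ k : Fin r → ZMod q, ((∑ x ∈ A, fbChi k x) *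
      (starRingEnd ℂ) (∑ x ∈ A, fbChi k x)) * fbChi k (-0) =
      ((‖∑ x ∈ A, fbChi k x‖ ^ 2 : ℝ) : ℂ) := by
    intro k
    have h2 : fbChi k (-0) = 1 := by unfold fbChi; simp
    rw [h2, mul_one, Complex.mul_conj, Complex.normSq_eq_norm_sq]
  simp only [h1] at h
  have h3 : A.filter (fun x => x + 0 ∈ A) = A := by
    apply Finset.filter_true_of_mem
    intro x hx
    rwa [add_zero]
  rw [h3] at h
  exact_mod_cast h

private theorem fb_block {Ω : Type} [Fintype Ω]
    (Y : Ω → (Fin r → ZMod q)) (lam : ℝ) (hlam : 0 ≤ lam)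
    (hY : ∀ k : Fin r → ZMod q, k ≠ 0 →
      ‖∑ ω, ZMod.stdAddChar (∑ a, k a * Y ω a)‖ ≤ lam * Fintype.card Ω)
    (A : Finset (Fin r → ZMod q)) (m : ℕ) (hm : A.card ≤ m) :
    ∑ ω, ((A.filter (fun x => x + Y ω ∈ A)).card : ℝ) ≤
      (A.card : ℝ) * (Fintype.card Ω * ((m : ℝ) / (q : ℝ) ^ r + lam)) := by
  classical
  have hq : (0 : ℝ) < (q : ℝ) ^ r := by
    have := (Fact.out : q.Prime).pos
    positivity
  have h1 : ((q : ℂ) ^ r) * ((∑ ω, ((A.filter (fun x => x + Y ω ∈ A)).card : ℝ) : ℝ) : ℂ) =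
      ∑ k : Fin r → ZMod q, ((‖∑ x ∈ A, fbChi k x‖ ^ 2 : ℝ) : ℂ) * ∑ ω, fbChi k (-(Y ω)) := by
    push_cast
    rw [Finset.mul_sum]
    have h2 : ∀ ω, (q : ℂ) ^ r * ((A.filter (fun x => x + Y ω ∈ A)).card : ℂ) =
        ∑ k : Fin r → ZMod q, ((‖∑ x ∈ A, fbChi k x‖ : ℂ) ^ 2) * fbChi k (-(Y ω)) := by
      intro ω
      rw [← fb_count]
      refine Finset.sum_congr rfl (fun k _ => ?_)
      rw [Complex.mul_conj, Complex.normSq_eq_norm_sq]
      push_cast
      rfl
    rw [Finset.sum_congr rfl (fun ω _ => h2 ω), Finset.sum_comm]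
    refine Finset.sum_congr rfl (fun k _ => ?_)
    rw [Finset.mul_sum]
  have h3 : ∀ k : Fin r → ZMod q, ‖∑ ω, fbChi k (-(Y ω))‖ ≤
      (if k = 0 then (Fintype.card Ω : ℝ) else lam * Fintype.card Ω) := by
    intro k
    split_ifs with hk
    · rw [hk]
      simp only [fbChi_zero]
      simp
    · have h4 : ∑ ω, fbChi k (-(Y ω)) = (starRingEnd ℂ) (∑ ω, fbChi k (Y ω)) := by
        rw [map_sum]
        exact Finset.sum_congr rfl (fun ω _ => fbChi_neg k _)
      rw [h4, RCLike.norm_conj]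
      exact hY k hk
  have h5 : (q : ℝ) ^ r * ∑ ω, ((A.filter (fun x => x + Y ω ∈ A)).card : ℝ) ≤
      ∑ k : Fin r → ZMod q, ‖∑ x ∈ A, fbChi k x‖ ^ 2 *
        (if k = 0 then (Fintype.card Ω : ℝ) else lam * Fintype.card Ω) := by
    have h6 : (q : ℝ) ^ r * ∑ ω, ((A.filter (fun x => x + Y ω ∈ A)).card : ℝ) =
        ‖((q : ℂ) ^ r) * ((∑ ω, ((A.filter (fun x => x + Y ω ∈ A)).card : ℝ) : ℝ) : ℂ)‖ := by
      rw [norm_mul, norm_pow, Complex.norm_natCast, Complex.norm_real, Real.norm_of_nonneg]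
      exact Finset.sum_nonneg (fun _ _ => Nat.cast_nonneg _)
    rw [h6, h1]
    refine (norm_sum_le _ _).trans (Finset.sum_le_sum (fun k _ => ?_))
    rw [norm_mul, Complex.norm_real, Real.norm_of_nonneg (by positivity)]
    exact mul_le_mul_of_nonneg_left (h3 k) (by positivity)
  have h7 : ∑ k : Fin r → ZMod q, ‖∑ x ∈ A, fbChi k x‖ ^ 2 *
        (if k = 0 then (Fintype.card Ω : ℝ) else lam * Fintype.card Ω) ≤
      (A.card : ℝ) ^ 2 * Fintype.card Ω +
        (lam * Fintype.card Ω) * ((q : ℝ) ^ r * (A.card : ℝ)) := by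
    rw [← fb_parseval, Finset.mul_sum]
    have h8 : (A.card : ℝ) ^ 2 * Fintype.card Ω = ∑ k : Fin r → ZMod q,
        (if k = 0 then (A.card : ℝ) ^ 2 * Fintype.card Ω else 0) := by
      rw [Finset.sum_ite_eq' Finset.univ (0 : Fin r → ZMod q)]
      simp
    rw [h8, ← Finset.sum_add_distrib]
    refine Finset.sum_le_sum (fun k _ => ?_)
    split_ifs with hk
    · rw [hk]
      simp only [fbChi_zero]
      have h9 : ‖∑ x ∈ A, (1 : ℂ)‖ = (A.card : ℝ) := by
        rw [Finset.sum_const, nsmul_eq_mul, mul_one, Complex.norm_natCast]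
      rw [h9]
      have : 0 ≤ lam * Fintype.card Ω * (A.card : ℝ) ^ 2 := by positivity
      linarith
    · rw [zero_add, mul_comm]
  have h10 : (q : ℝ) ^ r * ∑ ω, ((A.filter (fun x => x + Y ω ∈ A)).card : ℝ) ≤
      (q : ℝ) ^ r * ((A.card : ℝ) * (Fintype.card Ω * ((m : ℝ) / (q : ℝ) ^ r + lam))) := by
    refine (h5.trans h7).trans ?_
    have h11 : (q : ℝ) ^ r * ((A.card : ℝ) * (Fintype.card Ω * ((m : ℝ) / (q : ℝ) ^ r + lam))) =
        (A.card : ℝ) * m * Fintype.card Ω +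
          (lam * Fintype.card Ω) * ((q : ℝ) ^ r * (A.card : ℝ)) := by
      field_simp
    rw [h11]
    have h12 : (A.card : ℝ) ^ 2 * Fintype.card Ω ≤ (A.card : ℝ) * m * Fintype.card Ω := by
      rw [pow_two]
      have h13 : (A.card : ℝ) ≤ m := by exact_mod_cast hm
      gcongr
    linarith
  exact le_of_mul_le_mul_left h10 hq

end FB

theorem fourier_block {q r : ℕ} [Fact q.Prime] {Ω : Type} [Fintype Ω]
    (Y : Ω → (Fin r → ZMod q)) (lam : ℝ) (hlam : 0 ≤ lam)
    (hY : ∀ k : Fin r → ZMod q, k ≠ 0 →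
      ‖∑ ω, ZMod.stdAddChar (∑ a, k a * Y ω a)‖ ≤ lam * Fintype.card Ω)
    (blk : (Fin r → ZMod q) → ℕ) (m : ℕ)
    (hm : ∀ B, (Finset.univ.filter (fun x => blk x = B)).card ≤ m) :
    ∑ ω, ((Finset.univ.filter (fun x => blk (x + Y ω) = blk x)).card : ℝ) ≤
      Fintype.card Ω * ((m : ℝ) + lam * (q : ℝ) ^ r) := by
  classical
  have hq : (0 : ℝ) < (q : ℝ) ^ r := by
    have := (Fact.out : q.Prime).pos
    positivity
  set T : Finset ℕ := Finset.univ.image blk with hT
  have h1 : ∀ ω, ((Finset.univ.filter (fun x => blk (x + Y ω) = blk x)).card : ℝ) =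
      ∑ B ∈ T, (((Finset.univ.filter (fun x => blk x = B)).filter
        (fun x => x + Y ω ∈ Finset.univ.filter (fun x => blk x = B))).card : ℝ) := by
    intro ω
    rw [Finset.card_eq_sum_card_fiberwise (f := blk) (t := T)
      (fun x _ => Finset.mem_image_of_mem _ (Finset.mem_univ x))]
    push_cast
    refine Finset.sum_congr rfl (fun B _ => ?_)
    congr 2
    ext x
    simp only [Finset.mem_filter, Finset.mem_univ, true_and]
    constructor
    · rintro ⟨h2, h3⟩
      exact ⟨h3, h2.trans h3⟩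
    · rintro ⟨h2, h3⟩
      exact ⟨h3.trans h2.symm, h2⟩
  simp only [h1]
  rw [Finset.sum_comm]
  have h2 : ∀ B ∈ T, ∑ ω, (((Finset.univ.filter (fun x => blk x = B)).filter
        (fun x => x + Y ω ∈ Finset.univ.filter (fun x => blk x = B))).card : ℝ) ≤
      ((Finset.univ.filter (fun x => blk x = B)).card : ℝ) *
        (Fintype.card Ω * ((m : ℝ) / (q : ℝ) ^ r + lam)) := fun B _ =>
    fb_block Y lam hlam hY _ m (hm B)
  refine (Finset.sum_le_sum h2).trans ?_
  rw [← Finset.sum_mul]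
  have h3 : ∑ B ∈ T, ((Finset.univ.filter (fun x => blk x = B)).card : ℝ) = (q : ℝ) ^ r := by
    have h4 := Finset.card_eq_sum_card_fiberwise (f := blk) (s := Finset.univ) (t := T)
      (fun x _ => Finset.mem_image_of_mem _ (Finset.mem_univ x))
    rw [Finset.card_univ, Fintype.card_fun, ZMod.card, Fintype.card_fin] at h4
    have h5 : ((q ^ r : ℕ) : ℝ) = ((∑ B ∈ T,
        (Finset.univ.filter (fun x => blk x = B)).card : ℕ) : ℝ) := by exact_mod_cast h4
    push_cast at h5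
    exact h5.symm
  rw [h3]
  apply le_of_eq
  field_simp

end Pool.Agent.TSP92
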