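import Pool.Agent.Helper92.TSP.Defs

/-! Character sum over unsigned binary digits. -/

set_option autoImplicit false

namespace Pool.Agent.TSP92

open Finset

private theorem norm_one_add_exp_sq (φ : ℝ) :
    ‖1 + Complex.exp (φ * Complex.I)‖ ^ 2 = 2 + 2 * Real.cos φ := by
  rw [Complex.sq_norm, Complex.exp_mul_I, Complex.normSq_apply]
  have h1 : (1 + (Complex.cos φ + Complex.sin φ * Complex.I)).re = 1 + Real.cos φ := by
    simp [Complex.cos_ofReal_re, Complex.sin_ofReal_im]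
  have h2 : (1 + (Complex.cos φ + Complex.sin φ * Complex.I)).im = Real.sin φ := by
    simp [Complex.cos_ofReal_im, Complex.sin_ofReal_re]
  rw [h1, h2]
  nlinarith [Real.sin_sq_add_cos_sq φ]

private theorem sum_ndig_prod (l : ℕ) (τ : ℝ) :
    ∑ z : Fin l → Bool, Complex.exp (2 * Real.pi * Complex.I * (τ * (ndig z : ℝ))) =
      ∏ a : Fin l, (1 + Complex.exp (((2 * Real.pi * (τ * 2 ^ (a : ℕ)) : ℝ) : ℂ) * Complex.I)) := by
  have h : ∀ a : Fin l, (1 + Complex.exp (((2 * Real.pi * (τ * 2 ^ (a : ℕ)) : ℝ) : ℂ) * Complex.I)) =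
      ∑ b ∈ (Finset.univ : Finset Bool),
        Complex.exp (((2 * Real.pi * (τ * (2 ^ (a : ℕ) * (bt b : ℝ))) : ℝ) : ℂ) * Complex.I) := by
    intro a
    rw [Fintype.sum_bool]
    simp [bt, add_comm]
  simp_rw [h]
  rw [Finset.prod_univ_sum, Fintype.piFinset_univ]
  refine Finset.sum_congr rfl fun z _ => ?_
  rw [← Complex.exp_sum]
  congr 1
  rw [← Finset.sum_mul]
  unfold ndig
  push_cast
  rw [Finset.mul_sum, Finset.mul_sum, Finset.sum_mul]
  refine Finset.sum_congr rfl fun a _ => ?_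
  ring

private theorem exists_digit (l : ℕ) (τ c : ℝ) (h1 : c < 2 ^ l * |τ|) (h2 : |τ| ≤ c) :
    ∃ a : Fin l, c / 2 < 2 ^ (a : ℕ) * |τ| ∧ 2 ^ (a : ℕ) * |τ| ≤ c := by
  classical
  have hex : ∃ n : ℕ, c < 2 ^ n * |τ| := ⟨l, h1⟩
  have hn := Nat.find_spec hex
  have hmin := fun m => Nat.find_min hex (m := m)
  have hle : Nat.find hex ≤ l := Nat.find_min' hex h1
  rcases Nat.eq_zero_or_pos (Nat.find hex) with h0 | h0
  · rw [h0] at hn
    simp at hn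
    linarith
  · obtain ⟨k, hk⟩ : ∃ k, Nat.find hex = k + 1 := ⟨Nat.find hex - 1, by omega⟩
    refine ⟨⟨k, by omega⟩, ?_, ?_⟩
    · rw [hk] at hn
      have : (2 : ℝ) ^ (k + 1) * |τ| = 2 * (2 ^ k * |τ|) := by ring
      rw [this] at hn
      show c / 2 < 2 ^ k * |τ|
      linarith
    · have := hmin k (by omega)
      exact not_lt.mp this

theorem char_ndig (l : ℕ) (τ : ℝ) (h1 : 1 / (2 * 2 ^ l : ℝ) < |τ|) (h2 : |τ| ≤ 1 / 2) :
    ‖∑ z : Fin l → Bool, Complex.exp (2 * Real.pi * Complex.I * (τ * (ndig z : ℝ)))‖ ^ 2 ≤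
      (1 / 2) * ((2 : ℝ) ^ l) ^ 2 := by
  classical
  have hl : (1 / 2 : ℝ) < 2 ^ l * |τ| := by
    rw [div_lt_iff₀ (by positivity)] at h1
    linarith
  obtain ⟨a0, ha1, ha2⟩ := exists_digit l τ (1 / 2) hl h2
  rw [sum_ndig_prod, norm_prod, ← Finset.prod_pow]
  simp_rw [norm_one_add_exp_sq]
  rw [← Finset.mul_prod_erase _ _ (Finset.mem_univ a0)]
  have hcos : Real.cos (2 * Real.pi * (τ * 2 ^ (a0 : ℕ))) ≤ 0 := by
    rw [← Real.cos_abs]
    have habs : |2 * Real.pi * (τ * 2 ^ (a0 : ℕ))| = 2 * Real.pi * (2 ^ (a0 : ℕ) * |τ|) := by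
      rw [abs_mul (2 * Real.pi), abs_mul τ, abs_of_pos (by positivity : (0 : ℝ) < 2 * Real.pi),
        abs_of_pos (by positivity : (0 : ℝ) < 2 ^ (a0 : ℕ))]
      ring
    rw [habs]
    apply Real.cos_nonpos_of_pi_div_two_le_of_le
    · nlinarith [Real.pi_pos]
    · nlinarith [Real.pi_pos]
  have hfac : ∀ a ∈ Finset.univ.erase a0,
      2 + 2 * Real.cos (2 * Real.pi * (τ * 2 ^ (a : ℕ))) ≤ 4 := by
    intro a _
    linarith [Real.cos_le_one (2 * Real.pi * (τ * 2 ^ (a : ℕ)))]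
  have hnn : ∀ a ∈ Finset.univ.erase a0,
      0 ≤ 2 + 2 * Real.cos (2 * Real.pi * (τ * 2 ^ (a : ℕ))) := by
    intro a _
    linarith [Real.neg_one_le_cos (2 * Real.pi * (τ * 2 ^ (a : ℕ)))]
  have hprod : ∏ a ∈ Finset.univ.erase a0,
      (2 + 2 * Real.cos (2 * Real.pi * (τ * 2 ^ (a : ℕ)))) ≤ 4 ^ (l - 1) := by
    calc _ ≤ ∏ a ∈ (Finset.univ.erase a0 : Finset (Fin l)), (4 : ℝ) := Finset.prod_le_prod hnn hfac
      _ = 4 ^ (l - 1) := by
        rw [Finset.prod_const, Finset.card_erase_of_mem (Finset.mem_univ a0), Finset.card_univ,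
          Fintype.card_fin]
  have hprod0 : 0 ≤ ∏ a ∈ Finset.univ.erase a0,
      (2 + 2 * Real.cos (2 * Real.pi * (τ * 2 ^ (a : ℕ)))) := Finset.prod_nonneg hnn
  have hlpos : 1 ≤ l := by have := a0.2; omega
  obtain ⟨l', rfl⟩ : ∃ l', l = l' + 1 := ⟨l - 1, by omega⟩
  have h4 : ((2 : ℝ) ^ (l' + 1)) ^ 2 = 4 * 4 ^ l' := by
    rw [← pow_mul, mul_comm, pow_mul]
    norm_num [pow_succ]
    ring
  rw [h4]
  simp only [Nat.add_sub_cancel] at hprod
  have := Real.neg_one_le_cos (2 * Real.pi * (τ * 2 ^ (a0 : ℕ)))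
  nlinarith

end Pool.Agent.TSP92
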