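import Pool.Agent.Helper92.TSP.Defs

/-! Character sum over signed binary digits. -/

set_option autoImplicit false

namespace Pool.Agent.TSP92

open Finset

private theorem exists_digit14 (l : ℕ) (τ c : ℝ) (h1 : c < 2 ^ l * |τ|)
    (h2 : |τ| ≤ c) :
    ∃ a : Fin l, c / 2 < 2 ^ (a : ℕ) * |τ| ∧ 2 ^ (a : ℕ) * |τ| ≤ c := by
  classical
  have hex : ∃ n : ℕ, c < 2 ^ n * |τ| := ⟨l, h1⟩
  have hn := Nat.find_spec hex
  have hmin := fun m => Nat.find_min hex (m := m)
  have hle : Nat.find hex ≤ l := Nat.find_min' hex h1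
  rcases Nat.eq_zero_or_pos (Nat.find hex) with h0 | h0
  · rw [h0] at hn
    simp at hn
    linarith
  · obtain ⟨k, hk⟩ : ∃ k, Nat.find hex = k + 1 := ⟨Nat.find hex - 1, by omega⟩
    refine ⟨⟨k, by omega⟩, ?_, ?_⟩
    · rw [hk] at hn
      have : (2 : ℝ) ^ (k + 1) * |τ| = 2 * (2 ^ k * |τ|) := by ring
      rw [this] at hn
      show c / 2 < 2 ^ k * |τ|
      linarith
    · have := hmin k (by omega)
      exact not_lt.mp this

private theorem cos_quad {x : ℝ} (h0 : 0 ≤ x) (h1 : x ≤ 1 / 2) :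
    Real.cos (Real.pi * x) ≤ 1 - 4 * x ^ 2 := by
  have hpi := Real.pi_pos
  have hs : Real.sqrt 2 * x ≤ Real.sin (Real.pi * x / 2) := by
    have hconc := strictConcaveOn_sin_Icc.concaveOn
    have ha : (0 : ℝ) ∈ Set.Icc 0 Real.pi := ⟨le_refl _, hpi.le⟩
    have hb : Real.pi / 4 ∈ Set.Icc 0 Real.pi := ⟨by positivity, by linarith⟩
    have := hconc.2 ha hb (show (0 : ℝ) ≤ 1 - 2 * x by linarith)
      (show (0 : ℝ) ≤ 2 * x by linarith) (by ring)
    simp only [smul_eq_mul, Real.sin_zero, mul_zero, zero_add, Real.sin_pi_div_four] at this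
    have e1 : 2 * x * (Real.pi / 4) = Real.pi * x / 2 := by ring
    rw [e1] at this
    linarith
  have hcos : Real.cos (Real.pi * x) = 1 - 2 * Real.sin (Real.pi * x / 2) ^ 2 := by
    have h2 := Real.cos_two_mul (Real.pi * x / 2)
    have h3 := Real.sin_sq_add_cos_sq (Real.pi * x / 2)
    have h4 : 2 * (Real.pi * x / 2) = Real.pi * x := by ring
    rw [h4] at h2
    rw [h2]
    linarith
  rw [hcos]
  have h2 : (Real.sqrt 2 * x) ^ 2 ≤ Real.sin (Real.pi * x / 2) ^ 2 :=
    pow_le_pow_left₀ (by positivity) hs 2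
  rw [mul_pow, Real.sq_sqrt (by norm_num)] at h2
  linarith

private theorem sum_sdig_prod {ι : Type} [Fintype ι] [DecidableEq ι] (l : ℕ) (θ : ι → ℝ) :
    ∑ g : ι → Fin l → Bool,
        Complex.exp (2 * Real.pi * Complex.I * (∑ i, θ i * (sdig (g i) : ℝ))) =
      ∏ i, ∏ a : Fin l, ((2 * Real.cos (2 * Real.pi * (2 ^ (a : ℕ) * θ i)) : ℝ) : ℂ) := by
  have h : ∀ (i : ι) (a : Fin l), ((2 * Real.cos (2 * Real.pi * (2 ^ (a : ℕ) * θ i)) : ℝ) : ℂ) =
      ∑ b ∈ (Finset.univ : Finset Bool),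
        Complex.exp (2 * Real.pi * Complex.I * (θ i * (2 ^ (a : ℕ) * (sg b : ℝ)))) := by
    intro i a
    rw [Fintype.sum_bool]
    push_cast
    rw [Complex.two_cos]
    simp only [sg]
    congr 1
    · congr 1
      simp
      ring
    · congr 1
      simp
      ring
  have h2 : ∀ i : ι, ∏ a : Fin l, ((2 * Real.cos (2 * Real.pi * (2 ^ (a : ℕ) * θ i)) : ℝ) : ℂ) =
      ∑ g ∈ (Finset.univ : Finset (Fin l → Bool)),
        Complex.exp (2 * Real.pi * Complex.I * (θ i * (sdig g : ℝ))) := by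
    intro i
    simp_rw [h]
    rw [Finset.prod_univ_sum, Fintype.piFinset_univ]
    refine Finset.sum_congr rfl fun g _ => ?_
    rw [← Complex.exp_sum]
    congr 1
    rw [← Finset.mul_sum, ← Finset.mul_sum]
    unfold sdig
    push_cast
    rfl
  simp_rw [h2]
  rw [Finset.prod_univ_sum, Fintype.piFinset_univ]
  refine Finset.sum_congr rfl fun g _ => ?_
  rw [← Complex.exp_sum]
  congr 1
  rw [← Finset.mul_sum]
  push_cast
  rfl

theorem char_sdig {ι : Type} [Fintype ι] [DecidableEq ι] (l : ℕ) (hl : 1 ≤ l) (θ : ι → ℝ)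
    (hθ : ∀ i, |θ i| ≤ 1 / 4) :
    ‖∑ g : ι → Fin l → Bool,
        Complex.exp (2 * Real.pi * Complex.I * (∑ i, θ i * (sdig (g i) : ℝ)))‖ ≤
      max (3 / 4) (Real.exp (-4 * ((2 : ℝ) ^ l) ^ 2 * ∑ i, θ i ^ 2)) *
        Fintype.card (ι → Fin l → Bool) := by
  classical
  have hpi := Real.pi_pos
  have hcard : (Fintype.card (ι → Fin l → Bool) : ℝ) = ∏ i : ι, ∏ a : Fin l, (2 : ℝ) := by
    simp [Fintype.card_pi]
  rw [sum_sdig_prod, norm_prod, hcard]
  have hfac : ∀ (i : ι) (a : Fin l),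
      ‖((2 * Real.cos (2 * Real.pi * (2 ^ (a : ℕ) * θ i)) : ℝ) : ℂ)‖ =
        |Real.cos (2 * Real.pi * (2 ^ (a : ℕ) * θ i))| * 2 := by
    intro i a
    rw [Complex.norm_real, Real.norm_eq_abs, abs_mul, abs_of_pos (by norm_num : (0 : ℝ) < 2)]
    ring
  simp_rw [norm_prod, hfac, Finset.prod_mul_distrib]
  apply mul_le_mul_of_nonneg_right _ (by positivity)
  have hrow1 : ∀ i : ι, ∏ a : Fin l, |Real.cos (2 * Real.pi * (2 ^ (a : ℕ) * θ i))| ≤ 1 :=
    fun i => Finset.prod_le_one (fun a _ => abs_nonneg _) (fun a _ => Real.abs_cos_le_one _)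
  have hrow0 : ∀ i : ι, 0 ≤ ∏ a : Fin l, |Real.cos (2 * Real.pi * (2 ^ (a : ℕ) * θ i))| :=
    fun i => Finset.prod_nonneg (fun a _ => abs_nonneg _)
  have hcabs : ∀ (i : ι) (a : Fin l), |Real.cos (2 * Real.pi * (2 ^ (a : ℕ) * θ i))| =
      |Real.cos (2 * Real.pi * (2 ^ (a : ℕ) * |θ i|))| := by
    intro i a
    rw [← Real.cos_abs (2 * Real.pi * (2 ^ (a : ℕ) * θ i))]
    congr 2
    rw [abs_mul (2 * Real.pi), abs_mul (2 ^ (a : ℕ)), abs_of_pos (by positivity : (0 : ℝ) < 2 * Real.pi),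
        abs_of_pos (by positivity : (0 : ℝ) < 2 ^ (a : ℕ))]
  by_cases hbig : ∃ i, 1 / 4 < 2 ^ l * |θ i| ∧ 1 / 2 < 2 ^ l * |θ i|
  · obtain ⟨i0, hi0, -⟩ := hbig
    obtain ⟨a0, ha1, ha2⟩ := exists_digit14 l (θ i0) (1 / 4) hi0 (hθ i0)
    refine le_trans ?_ (le_max_left _ _)
    calc ∏ i, ∏ a : Fin l, |Real.cos (2 * Real.pi * (2 ^ (a : ℕ) * θ i))|
        ≤ ∏ a : Fin l, |Real.cos (2 * Real.pi * (2 ^ (a : ℕ) * θ i0))| := by
          rw [← Finset.mul_prod_erase _ _ (Finset.mem_univ i0)]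
          exact mul_le_of_le_one_right (hrow0 i0)
            (Finset.prod_le_one (fun i _ => hrow0 i) (fun i _ => hrow1 i))
      _ ≤ |Real.cos (2 * Real.pi * (2 ^ (a0 : ℕ) * θ i0))| := by
          rw [← Finset.mul_prod_erase _ _ (Finset.mem_univ a0)]
          exact mul_le_of_le_one_right (abs_nonneg _)
            (Finset.prod_le_one (fun a _ => abs_nonneg _) (fun a _ => Real.abs_cos_le_one _))
      _ ≤ 3 / 4 := by
          rw [hcabs]
          have hup : Real.cos (2 * Real.pi * (2 ^ (a0 : ℕ) * |θ i0|)) ≤ Real.cos (Real.pi / 4) := by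
            apply Real.cos_le_cos_of_nonneg_of_le_pi (by positivity)
            · nlinarith
            · nlinarith
          have hlow : 0 ≤ Real.cos (2 * Real.pi * (2 ^ (a0 : ℕ) * |θ i0|)) := by
            apply Real.cos_nonneg_of_neg_pi_div_two_le_of_le
            · have : 0 ≤ 2 * Real.pi * (2 ^ (a0 : ℕ) * |θ i0|) := by positivity
              linarith
            · nlinarith
          rw [abs_of_nonneg hlow]
          refine hup.trans ?_
          rw [Real.cos_pi_div_four]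
          have : Real.sqrt 2 ≤ 3 / 2 := by
            rw [Real.sqrt_le_left (by norm_num)]
            norm_num
          linarith
  · have hsm : ∀ i, 2 ^ l * |θ i| ≤ 1 / 2 := by
      intro i
      by_contra hcon
      push Not at hcon
      exact hbig ⟨i, by linarith, hcon⟩
    refine le_trans ?_ (le_max_right _ _)
    rw [Finset.mul_sum, Real.exp_sum]
    refine Finset.prod_le_prod (fun i _ => hrow0 i) (fun i _ => ?_)
    have hlt : l - 1 < l := by omega
    calc ∏ a : Fin l, |Real.cos (2 * Real.pi * (2 ^ (a : ℕ) * θ i))|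
        ≤ |Real.cos (2 * Real.pi * (2 ^ (l - 1) * θ i))| := by
          rw [← Finset.mul_prod_erase _ _ (Finset.mem_univ (⟨l - 1, hlt⟩ : Fin l))]
          exact mul_le_of_le_one_right (abs_nonneg _)
            (Finset.prod_le_one (fun a _ => abs_nonneg _) (fun a _ => Real.abs_cos_le_one _))
      _ = |Real.cos (2 * Real.pi * (2 ^ (l - 1) * |θ i|))| := hcabs i ⟨l - 1, hlt⟩
      _ = |Real.cos (Real.pi * (2 ^ l * |θ i|))| := by
          congr 2
          have : (2 : ℝ) ^ l = 2 * 2 ^ (l - 1) := by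
            rw [← pow_succ']
            congr 1
            omega
          rw [this]
          ring
      _ = Real.cos (Real.pi * (2 ^ l * |θ i|)) := by
          apply abs_of_nonneg
          apply Real.cos_nonneg_of_neg_pi_div_two_le_of_le
          · have : 0 ≤ Real.pi * (2 ^ l * |θ i|) := by positivity
            linarith
          · have := hsm i
            nlinarith
      _ ≤ 1 - 4 * (2 ^ l * |θ i|) ^ 2 := cos_quad (by positivity) (hsm i)
      _ ≤ Real.exp (-(4 * (2 ^ l * |θ i|) ^ 2)) := by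
          have := Real.add_one_le_exp (-(4 * (2 ^ l * |θ i|) ^ 2))
          linarith
      _ = Real.exp (-4 * ((2 : ℝ) ^ l) ^ 2 * θ i ^ 2) := by
          congr 1
          rw [mul_pow, sq_abs]
          ring

end Pool.Agent.TSP92
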