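import Pool.Agent.Helper92.TSP.Defs
import Pool.Agent.Helper92.TSP.M13
import Pool.Agent.Helper92.TSP.M14

/-! Character sum of one random row. -/

set_option autoImplicit false

namespace Pool.Agent.TSP92

open Finset

private theorem norm_sum_exp_le {α : Type} [Fintype α] (f : α → ℝ) :
    ‖∑ x : α, Complex.exp (2 * Real.pi * Complex.I * (f x : ℂ))‖ ≤ Fintype.card α := by
  refine (norm_sum_le _ _).trans ?_
  have : ∀ x : α, ‖Complex.exp (2 * Real.pi * Complex.I * (f x : ℂ))‖ = 1 := by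
    intro x
    have e : 2 * Real.pi * Complex.I * (f x : ℂ) = ((2 * Real.pi * f x : ℝ) : ℂ) * Complex.I := by
      push_cast
      ring
    rw [e, Complex.norm_exp_ofReal_mul_I]
  simp [this]

private theorem stdAdd_eq (q : ℕ) [Fact q.Prime] (κ : ZMod q) (n : ℤ) :
    ZMod.stdAddChar (κ * ((n : ℤ) : ZMod q)) =
      Complex.exp (2 * Real.pi * Complex.I * ((((κ.valMinAbs : ℝ) / q) * (n : ℝ) : ℝ) : ℂ)) := by
  have h1 : κ * ((n : ℤ) : ZMod q) = ((κ.valMinAbs * n : ℤ) : ZMod q) := by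
    rw [Int.cast_mul, ZMod.coe_valMinAbs]
  rw [h1, ZMod.stdAddChar_coe]
  congr 1
  push_cast
  ring

private theorem row_factor {ι : Type} [Fintype ι] [DecidableEq ι] (q l : ℕ) [Fact q.Prime]
    (u : ι → ℤ) (κ : ZMod q) :
    ∑ w : (ι → Fin l → Bool) × (Fin l → Bool) × (Fin l → Bool),
        ZMod.stdAddChar (κ * ((rowG w.1 u + ndig w.2.1 - ndig w.2.2 : ℤ) : ZMod q)) =
      (∑ g : ι → Fin l → Bool, Complex.exp (2 * Real.pi * Complex.I *
        ((∑ i, (κ.valMinAbs : ℝ) / q * (u i : ℝ) * (sdig (g i) : ℝ) : ℝ) : ℂ))) *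
      ((∑ z : Fin l → Bool, Complex.exp (2 * Real.pi * Complex.I *
        ((((κ.valMinAbs : ℝ) / q : ℝ) : ℂ) * (ndig z : ℝ)))) *
      (∑ z : Fin l → Bool, Complex.exp (2 * Real.pi * Complex.I *
        (((-((κ.valMinAbs : ℝ) / q) : ℝ) : ℂ) * (ndig z : ℝ))))) := by
  rw [Finset.sum_mul_sum, Finset.sum_mul_sum]
  rw [Fintype.sum_prod_type]
  simp_rw [Fintype.sum_prod_type]
  refine Finset.sum_congr rfl fun g _ => ?_
  refine Finset.sum_congr rfl fun z _ => ?_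
  rw [Finset.mul_sum]
  refine Finset.sum_congr rfl fun z' _ => ?_
  rw [stdAdd_eq, ← Complex.exp_add, ← Complex.exp_add]
  congr 1
  unfold rowG
  push_cast
  have : (∑ i, (κ.valMinAbs : ℂ) / (q : ℂ) * (u i : ℂ) * (sdig (g i) : ℂ)) =
      (κ.valMinAbs : ℂ) / (q : ℂ) * ∑ i, (sdig (g i) : ℂ) * (u i : ℂ) := by
    rw [Finset.mul_sum]
    refine Finset.sum_congr rfl fun i _ => ?_
    ring
  rw [this]
  ring

theorem row_char {ι : Type} [Fintype ι] [DecidableEq ι] (q l D : ℕ) [Fact q.Prime]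
    (u : ι → ℤ) (hD : (D : ℝ) ^ 2 ≤ ∑ i, (u i : ℝ) ^ 2) (hu : ∀ i, |u i| ≤ 40 * (D : ℤ))
    (hl : 80 * D ≤ 2 ^ l) (hq : 4 * 2 ^ l * D ≤ q) (κ : ZMod q) (hκ : κ ≠ 0) :
    ‖∑ w : (ι → Fin l → Bool) × (Fin l → Bool) × (Fin l → Bool),
        ZMod.stdAddChar (κ * ((rowG w.1 u + ndig w.2.1 - ndig w.2.2 : ℤ) : ZMod q))‖ ≤
      Real.exp (-4 * ((2 : ℝ) ^ l * D / q) ^ 2) *
        Fintype.card ((ι → Fin l → Bool) × (Fin l → Bool) × (Fin l → Bool)) := by
  classical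
  have hqpos : (0 : ℝ) < q := by exact_mod_cast (Fact.out : q.Prime).pos
  have hcard : (Fintype.card ((ι → Fin l → Bool) × (Fin l → Bool) × (Fin l → Bool)) : ℝ) =
      Fintype.card (ι → Fin l → Bool) * (2 ^ l * 2 ^ l) := by
    rw [Fintype.card_prod, Fintype.card_prod]
    push_cast
    simp [Fintype.card_pi]
  rw [row_factor, norm_mul, norm_mul, hcard]
  set τ : ℝ := (κ.valMinAbs : ℝ) / q with hτ
  set A : ℝ := ‖∑ g : ι → Fin l → Bool, Complex.exp (2 * Real.pi * Complex.I *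
        ((∑ i, τ * (u i : ℝ) * (sdig (g i) : ℝ) : ℝ) : ℂ))‖ with hA
  set B : ℝ := ‖∑ z : Fin l → Bool, Complex.exp (2 * Real.pi * Complex.I *
        ((τ : ℂ) * (ndig z : ℝ)))‖ with hB
  set C : ℝ := ‖∑ z : Fin l → Bool, Complex.exp (2 * Real.pi * Complex.I *
        (((-τ : ℝ) : ℂ) * (ndig z : ℝ)))‖ with hC
  have hAle : A ≤ Fintype.card (ι → Fin l → Bool) := by
    exact norm_sum_exp_le (fun g : ι → Fin l → Bool => ∑ i, τ * (u i : ℝ) * (sdig (g i) : ℝ))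
  have hBle : B ≤ 2 ^ l := by
    have := norm_sum_exp_le (fun z : Fin l → Bool => τ * (ndig z : ℝ))
    rw [hB]
    have hc : (Fintype.card (Fin l → Bool) : ℝ) = 2 ^ l := by simp [Fintype.card_pi]
    rw [hc] at this
    convert this using 6
    push_cast
    rfl
  have hCle : C ≤ 2 ^ l := by
    have := norm_sum_exp_le (fun z : Fin l → Bool => (-τ) * (ndig z : ℝ))
    rw [hC]
    have hc : (Fintype.card (Fin l → Bool) : ℝ) = 2 ^ l := by simp [Fintype.card_pi]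
    rw [hc] at this
    convert this using 6
    push_cast
    rfl
  have hA0 : 0 ≤ A := norm_nonneg _
  have hB0 : 0 ≤ B := norm_nonneg _
  have hC0 : 0 ≤ C := norm_nonneg _
  have hη : (2 : ℝ) ^ l * D / q ≤ 1 / 4 := by
    rw [div_le_iff₀ hqpos]
    have : (4 * 2 ^ l * D : ℝ) ≤ q := by exact_mod_cast hq
    linarith
  have hη0 : 0 ≤ (2 : ℝ) ^ l * D / q := by positivity
  have hE : (3 / 4 : ℝ) ≤ Real.exp (-4 * ((2 : ℝ) ^ l * D / q) ^ 2) := by
    have h1 := Real.add_one_le_exp (-4 * ((2 : ℝ) ^ l * D / q) ^ 2)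
    nlinarith
  have hτabs : |τ| ≤ 1 / 2 := by
    rw [hτ, abs_div, abs_of_pos hqpos, div_le_iff₀ hqpos]
    have h1 := ZMod.natAbs_valMinAbs_le κ
    have h2 : ((κ.valMinAbs.natAbs : ℕ) : ℝ) = |(κ.valMinAbs : ℝ)| := by
      rw [Nat.cast_natAbs]
      push_cast
      rfl
    rw [← h2]
    have h3 : (κ.valMinAbs.natAbs : ℝ) ≤ ((q / 2 : ℕ) : ℝ) := by exact_mod_cast h1
    have h4 : ((q / 2 : ℕ) : ℝ) ≤ (q : ℝ) / 2 := Nat.cast_div_le
    linarith
  have hτ1 : 1 / (q : ℝ) ≤ |τ| := by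
    rw [hτ, abs_div, abs_of_pos hqpos]
    apply div_le_div_of_nonneg_right _ hqpos.le
    have h0 : κ.valMinAbs ≠ 0 := by
      intro h
      exact hκ ((ZMod.valMinAbs_eq_zero κ).mp h)
    have : 1 ≤ |κ.valMinAbs| := Int.one_le_abs h0
    exact_mod_cast this
  rcases Nat.eq_zero_or_pos D with hD0 | hDpos
  · subst hD0
    simp only [Nat.cast_zero, mul_zero, zero_div]
    rw [show (0 : ℝ) ^ 2 = 0 by norm_num, mul_zero, Real.exp_zero, one_mul]
    gcongr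
  by_cases hc : 1 / (2 * 2 ^ l : ℝ) < |τ|
  · have h1 := char_ndig l τ hc hτabs
    have h2 := char_ndig l (-τ) (by rwa [abs_neg]) (by rwa [abs_neg])
    rw [← hB] at h1
    rw [← hC] at h2
    have hBC : B * C ≤ 1 / 2 * (2 ^ l * 2 ^ l) := by
      have : 2 * (B * C) ≤ B ^ 2 + C ^ 2 := by nlinarith [sq_nonneg (B - C)]
      nlinarith
    calc A * (B * C) ≤ Fintype.card (ι → Fin l → Bool) * (1 / 2 * (2 ^ l * 2 ^ l)) := by
          gcongr
      _ = 1 / 2 * (Fintype.card (ι → Fin l → Bool) * (2 ^ l * 2 ^ l)) := by ring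
      _ ≤ Real.exp (-4 * ((2 : ℝ) ^ l * D / q) ^ 2) *
          (Fintype.card (ι → Fin l → Bool) * (2 ^ l * 2 ^ l)) := by
          gcongr
          linarith
  · push Not at hc
    have hl1 : 1 ≤ l := by
      by_contra hcon
      have : l = 0 := by omega
      subst this
      simp at hl
      omega
    have hlR : (80 * D : ℝ) ≤ 2 ^ l := by exact_mod_cast hl
    have hDR : (1 : ℝ) ≤ D := by exact_mod_cast hDpos
    have h2l : (0 : ℝ) < 2 ^ l := by positivity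
    have hθ : ∀ i, |τ * (u i : ℝ)| ≤ 1 / 4 := by
      intro i
      rw [abs_mul]
      have h1 : |(u i : ℝ)| ≤ 40 * D := by exact_mod_cast hu i
      have h3 : |τ| * (2 * 2 ^ l) ≤ 1 := by
        rw [le_div_iff₀ (by positivity)] at hc
        exact hc
      have h4 : |τ| * |(u i : ℝ)| ≤ |τ| * (40 * D) := by gcongr
      have h5 : |τ| * (160 * D) ≤ |τ| * (2 * 2 ^ l) := by
        apply mul_le_mul_of_nonneg_left _ (abs_nonneg _)
        linarith
      nlinarith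
    have h1 := char_sdig l hl1 (fun i => τ * (u i : ℝ)) hθ
    have hsum : ∑ i, (τ * (u i : ℝ)) ^ 2 = τ ^ 2 * ∑ i, (u i : ℝ) ^ 2 := by
      rw [Finset.mul_sum]
      refine Finset.sum_congr rfl fun i _ => ?_
      ring
    have hexp : Real.exp (-4 * ((2 : ℝ) ^ l) ^ 2 * ∑ i, (τ * (u i : ℝ)) ^ 2) ≤
        Real.exp (-4 * ((2 : ℝ) ^ l * D / q) ^ 2) := by
      apply Real.exp_le_exp.mpr
      rw [hsum]
      have h6 : (1 / (q : ℝ)) ^ 2 ≤ τ ^ 2 := by
        rw [← sq_abs τ]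
        exact pow_le_pow_left₀ (by positivity) hτ1 2
      have h7 : (1 / (q : ℝ)) ^ 2 * (D : ℝ) ^ 2 ≤ τ ^ 2 * ∑ i, (u i : ℝ) ^ 2 :=
        mul_le_mul h6 hD (by positivity) (by positivity)
      have h8 : ((2 : ℝ) ^ l * D / q) ^ 2 = ((2 : ℝ) ^ l) ^ 2 * ((1 / (q : ℝ)) ^ 2 * (D : ℝ) ^ 2) := by
        ring
      rw [h8]
      have h9 : ((2 : ℝ) ^ l) ^ 2 * ((1 / (q : ℝ)) ^ 2 * (D : ℝ) ^ 2) ≤
          ((2 : ℝ) ^ l) ^ 2 * (τ ^ 2 * ∑ i, (u i : ℝ) ^ 2) := by gcongr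
      nlinarith
    have hA2 : A ≤ Real.exp (-4 * ((2 : ℝ) ^ l * D / q) ^ 2) *
        Fintype.card (ι → Fin l → Bool) := by
      have h10 : A ≤ max (3 / 4) (Real.exp (-4 * ((2 : ℝ) ^ l) ^ 2 * ∑ i, (τ * (u i : ℝ)) ^ 2)) *
          Fintype.card (ι → Fin l → Bool) := by
        rw [hA]
        exact h1
      refine h10.trans ?_
      gcongr
      exact max_le hE hexp
    calc A * (B * C) ≤ (Real.exp (-4 * ((2 : ℝ) ^ l * D / q) ^ 2) *
        Fintype.card (ι → Fin l → Bool)) * (2 ^ l * 2 ^ l) := by gcongr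
      _ = _ := by ring

end Pool.Agent.TSP92
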