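import Pool.Agent.Helper92.TSP.Defs
import Pool.Agent.Helper92.TSP.M15

/-! Character sum of the whole random map. -/

set_option autoImplicit false

namespace Pool.Agent.TSP92

open Finset

private theorem pair_HH {q r d : ℕ} (h : Fin d → (Fin r → ZMod q)) (y : Fin d → ℤ)
    (k : Fin r → ZMod q) :
    ∑ a, k a * (HH h y) a = ∑ i, (∑ a, k a * h i a) * ((y i : ℤ) : ZMod q) := by
  unfold HH
  simp_rw [Finset.sum_apply, Pi.smul_apply, Finset.mul_sum, Finset.sum_mul]
  rw [Finset.sum_comm]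
  refine Finset.sum_congr rfl fun i _ => Finset.sum_congr rfl fun a _ => ?_
  rw [zsmul_eq_mul]
  ring

private theorem addChar_sum {A : Type} [AddCommMonoid A] (ψ : AddChar A ℂ) {d : ℕ}
    (f : Fin d → A) : ψ (∑ i, f i) = ∏ i, ψ (f i) := by
  classical
  have : ∀ s : Finset (Fin d), ψ (∑ i ∈ s, f i) = ∏ i ∈ s, ψ (f i) := by
    intro s
    induction s using Finset.induction_on with
    | empty => simp
    | insert a s ha ih => rw [Finset.sum_insert ha, Finset.prod_insert ha, AddChar.map_add_eq_mul, ih]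
  exact this _

theorem full_char {ι : Type} [Fintype ι] [DecidableEq ι] (q l D r d s : ℕ) [Fact q.Prime]
    (h : Fin d → (Fin r → ZMod q))
    (hw : ∀ k : Fin r → ZMod q, k ≠ 0 →
      s + 1 ≤ (Finset.univ.filter (fun i : Fin d => ∑ a, k a * h i a ≠ 0)).card)
    (u : ι → ℤ) (hD : (D : ℝ) ^ 2 ≤ ∑ i, (u i : ℝ) ^ 2) (hu : ∀ i, |u i| ≤ 40 * (D : ℤ))
    (hl : 80 * D ≤ 2 ^ l) (hq : 4 * 2 ^ l * D ≤ q) (k : Fin r → ZMod q) (hk : k ≠ 0) :
    ‖∑ w : Fin d → (ι → Fin l → Bool) × (Fin l → Bool) × (Fin l → Bool),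
        ZMod.stdAddChar (∑ a, k a *
          (HH h (fun i => rowG (w i).1 u + ndig (w i).2.1 - ndig (w i).2.2)) a)‖ ≤
      Real.exp (-4 * ((2 : ℝ) ^ l * D / q) ^ 2) ^ (s + 1) *
        Fintype.card (Fin d → (ι → Fin l → Bool) × (Fin l → Bool) × (Fin l → Bool)) := by
  classical
  set E : ℝ := Real.exp (-4 * ((2 : ℝ) ^ l * D / q) ^ 2) with hE
  have hE0 : 0 ≤ E := (Real.exp_pos _).le
  have hE1 : E ≤ 1 := by
    rw [hE]
    apply Real.exp_le_one_iff.mpr
    have := sq_nonneg ((2 : ℝ) ^ l * D / q)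
    linarith
  have hfac : ∑ w : Fin d → (ι → Fin l → Bool) × (Fin l → Bool) × (Fin l → Bool),
        ZMod.stdAddChar (∑ a, k a *
          (HH h (fun i => rowG (w i).1 u + ndig (w i).2.1 - ndig (w i).2.2)) a) =
      ∏ i : Fin d, ∑ w : (ι → Fin l → Bool) × (Fin l → Bool) × (Fin l → Bool),
        (ZMod.stdAddChar ((∑ a, k a * h i a) *
          ((rowG w.1 u + ndig w.2.1 - ndig w.2.2 : ℤ) : ZMod q)) : ℂ) := by
    rw [Finset.prod_univ_sum, Fintype.piFinset_univ]
    refine Finset.sum_congr rfl fun w _ => ?_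
    rw [pair_HH, addChar_sum]
  rw [hfac, norm_prod]
  set N : ℝ := ((Fintype.card ((ι → Fin l → Bool) × (Fin l → Bool) × (Fin l → Bool)) : ℕ) : ℝ)
    with hN
  have hcard : (Fintype.card (Fin d → (ι → Fin l → Bool) × (Fin l → Bool) × (Fin l → Bool)) : ℝ) =
      ∏ _i : Fin d, N := by
    rw [Fintype.card_fun]
    simp [hN]
  have hN0 : 0 ≤ N := by rw [hN]; positivity
  have hbound : ∀ i : Fin d, ‖∑ w : (ι → Fin l → Bool) × (Fin l → Bool) × (Fin l → Bool),
        (ZMod.stdAddChar ((∑ a, k a * h i a) *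
          ((rowG w.1 u + ndig w.2.1 - ndig w.2.2 : ℤ) : ZMod q)) : ℂ)‖ ≤
      (if ∑ a, k a * h i a ≠ 0 then E else 1) * N := by
    intro i
    split_ifs with hi
    · exact row_char q l D u hD hu hl hq _ hi
    · rw [one_mul]
      refine (norm_sum_le _ _).trans ?_
      have : ∀ w : (ι → Fin l → Bool) × (Fin l → Bool) × (Fin l → Bool),
          ‖(ZMod.stdAddChar ((∑ a, k a * h i a) *
          ((rowG w.1 u + ndig w.2.1 - ndig w.2.2 : ℤ) : ZMod q)) : ℂ)‖ = 1 := by
        intro w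
        exact AddChar.norm_apply _ _
      simp only [this, Finset.sum_const, Finset.card_univ, nsmul_eq_mul, mul_one]
      exact le_refl _
  calc ∏ i : Fin d, ‖∑ w : (ι → Fin l → Bool) × (Fin l → Bool) × (Fin l → Bool),
        (ZMod.stdAddChar ((∑ a, k a * h i a) *
          ((rowG w.1 u + ndig w.2.1 - ndig w.2.2 : ℤ) : ZMod q)) : ℂ)‖
      ≤ ∏ i : Fin d, ((if ∑ a, k a * h i a ≠ 0 then E else 1) * N) :=
        Finset.prod_le_prod (fun _ _ => norm_nonneg _) (fun i _ => hbound i)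
    _ = (∏ i : Fin d, (if ∑ a, k a * h i a ≠ 0 then E else 1)) * ∏ _i : Fin d, N :=
        Finset.prod_mul_distrib
    _ = E ^ (Finset.univ.filter (fun i : Fin d => ∑ a, k a * h i a ≠ 0)).card * ∏ _i : Fin d, N := by
        rw [← Finset.prod_filter, Finset.prod_const]
    _ ≤ E ^ (s + 1) * ∏ _i : Fin d, N := by
        apply mul_le_mul_of_nonneg_right _ (Finset.prod_nonneg fun _ _ => hN0)
        exact pow_le_pow_of_le_one hE0 hE1 (hw k hk)
    _ = _ := by rw [hcard]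

end Pool.Agent.TSP92
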