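import Pool.Agent.Helper92.TSP.Defs

/-! Tail bound for the random matrix. -/

set_option autoImplicit false

namespace Pool.Agent.TSP92

open Finset

private theorem m17_prod {α β : Type} [Fintype α] [DecidableEq α] [Fintype β]
    (F : α → β → ℝ) : ∑ f : α → β, ∏ a, F a (f a) = ∏ a, ∑ b, F a b := by
  classical
  rw [Finset.prod_univ_sum, Fintype.piFinset_univ]

private theorem m17_geom (l : ℕ) : ∑ a : Fin l, (4 : ℝ) ^ (a : ℕ) ≤ 4 ^ l / 3 := by
  rw [Fin.sum_univ_eq_sum_range (fun a => (4 : ℝ) ^ a) l, geom_sum_eq (by norm_num)]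
  have : (0 : ℝ) < 4 ^ l := by positivity
  linarith

private theorem m17_one {l : ℕ} (c : ℝ) :
    ∑ h : Fin l → Bool, Real.exp (c * (sdig h : ℝ)) ≤
      2 ^ l * Real.exp (c ^ 2 / 2 * (4 ^ l / 3)) := by
  have h1 : ∀ h : Fin l → Bool, Real.exp (c * (sdig h : ℝ)) =
      ∏ a : Fin l, Real.exp (c * (2 ^ (a : ℕ) * (sg (h a) : ℝ))) := by
    intro h
    rw [← Real.exp_sum, sdig]
    push_cast
    rw [Finset.mul_sum]
  simp only [h1]
  rw [m17_prod (fun (a : Fin l) (b : Bool) => Real.exp (c * (2 ^ (a : ℕ) * (sg b : ℝ))))]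
  have h2 : ∀ a : Fin l, ∑ b : Bool, Real.exp (c * (2 ^ (a : ℕ) * (sg b : ℝ))) ≤
      2 * Real.exp (c ^ 2 / 2 * 4 ^ (a : ℕ)) := by
    intro a
    have h3 := Real.cosh_le_exp_half_sq (c * 2 ^ (a : ℕ))
    rw [Real.cosh_eq] at h3
    have h4 : (c * 2 ^ (a : ℕ)) ^ 2 / 2 = c ^ 2 / 2 * 4 ^ (a : ℕ) := by
      have : ((2 : ℝ) ^ (a : ℕ)) ^ 2 = 4 ^ (a : ℕ) := by
        rw [← pow_mul, mul_comm, pow_mul]; norm_num
      rw [mul_pow, this]; ring
    rw [h4] at h3
    rw [Fintype.sum_bool]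
    simp only [sg, if_true]
    have e1 : c * (2 ^ (a : ℕ) * ((1 : ℤ) : ℝ)) = c * 2 ^ (a : ℕ) := by push_cast; ring
    have e2 : c * (2 ^ (a : ℕ) * ((if (false = true) then (1 : ℤ) else -1 : ℤ) : ℝ)) =
        -(c * 2 ^ (a : ℕ)) := by
      simp
    rw [e1, e2]
    linarith
  refine (Finset.prod_le_prod (fun a _ => Finset.sum_nonneg fun _ _ => (Real.exp_pos _).le)
    (fun a _ => h2 a)).trans ?_
  rw [Finset.prod_mul_distrib, Finset.prod_const, Finset.card_univ, Fintype.card_fin,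
    ← Real.exp_sum, ← Finset.mul_sum]
  refine mul_le_mul_of_nonneg_left (Real.exp_le_exp.2 ?_) (by positivity)
  exact mul_le_mul_of_nonneg_left (m17_geom l) (by positivity)

private theorem m17_mgf {ι : Type} [Fintype ι] [DecidableEq ι] {l : ℕ} (u : ι → ℤ) (c : ℝ) :
    ∑ g : ι → Fin l → Bool, Real.exp (c * (rowG g u : ℝ)) ≤
      Fintype.card (ι → Fin l → Bool) * Real.exp (c ^ 2 / 2 * (4 ^ l / 3) * ∑ i, (u i : ℝ) ^ 2) := by
  have h1 : ∀ g : ι → Fin l → Bool, Real.exp (c * (rowG g u : ℝ)) =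
      ∏ i, Real.exp ((c * u i) * (sdig (g i) : ℝ)) := by
    intro g
    rw [← Real.exp_sum, rowG]
    push_cast
    rw [Finset.mul_sum]
    congr 1
    refine Finset.sum_congr rfl fun i _ => by ring
  simp only [h1]
  rw [m17_prod (fun (i : ι) (h : Fin l → Bool) => Real.exp ((c * u i) * (sdig h : ℝ)))]
  refine (Finset.prod_le_prod (fun a _ => Finset.sum_nonneg fun _ _ => (Real.exp_pos _).le)
    (fun i _ => m17_one (l := l) (c * u i))).trans (le_of_eq ?_)
  rw [Finset.prod_mul_distrib, Finset.prod_const, Finset.card_univ, ← Real.exp_sum]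
  congr 1
  · simp [Fintype.card_fun, Fintype.card_bool]
  · congr 1
    rw [Finset.mul_sum]
    refine Finset.sum_congr rfl fun i _ => by ring

theorem tail {ι : Type} [Fintype ι] [DecidableEq ι] (d l : ℕ) (u : ι → ℤ) (hu : u ≠ 0) :
    ((Finset.univ.filter (fun G : Fin d → ι → Fin l → Bool =>
        4 * (d : ℝ) * 2 ^ l * Real.sqrt (∑ i, (u i : ℝ) ^ 2) <
          ∑ i, |(rowG (G i) u : ℝ)|)).card : ℝ) ≤
      Real.exp (-3 * (d : ℝ)) * Fintype.card (Fin d → ι → Fin l → Bool) := by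
  classical
  have hS : 0 < ∑ i, (u i : ℝ) ^ 2 := by
    obtain ⟨i, hi⟩ := Function.ne_iff.1 hu
    have hi' : (u i : ℝ) ≠ 0 := by
      have : u i ≠ 0 := hi
      exact_mod_cast this
    exact lt_of_lt_of_le (by positivity : 0 < (u i : ℝ) ^ 2)
      (Finset.single_le_sum (f := fun i => (u i : ℝ) ^ 2) (fun _ _ => sq_nonneg _)
        (Finset.mem_univ i))
  obtain ⟨w, hw⟩ : ∃ w, w = Real.sqrt (∑ i, (u i : ℝ) ^ 2) := ⟨_, rfl⟩
  have hw0 : 0 < w := hw ▸ Real.sqrt_pos.2 hS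
  have hw2 : w ^ 2 = ∑ i, (u i : ℝ) ^ 2 := hw ▸ Real.sq_sqrt hS.le
  rw [← hw]
  obtain ⟨c, hc⟩ : ∃ c, c = 1 / (2 ^ l * w) := ⟨_, rfl⟩
  have hc0 : 0 < c := by rw [hc]; positivity
  have hc1 : c * (2 ^ l * w) = 1 := by rw [hc]; field_simp
  -- one row
  have hrow : ∑ g : ι → Fin l → Bool, Real.exp (c * |(rowG g u : ℝ)| - 4) ≤
      Real.exp (-3) * Fintype.card (ι → Fin l → Bool) := by
    have h4 : (4 : ℝ) ^ l = (2 ^ l) ^ 2 := by
      rw [← pow_mul, mul_comm, pow_mul]; norm_num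
    have h16 : c ^ 2 / 2 * (4 ^ l / 3) * ∑ i, (u i : ℝ) ^ 2 = 1 / 6 := by
      rw [← hw2, h4]
      have : c ^ 2 * ((2 ^ l) ^ 2 * w ^ 2) = 1 := by
        rw [← mul_pow, ← mul_pow, hc1, one_pow]
      linear_combination this / 6
    have h1 := m17_mgf (l := l) u c
    have h2 := m17_mgf (l := l) u (-c)
    rw [h16] at h1
    rw [neg_sq, h16] at h2
    have h3 : ∀ g : ι → Fin l → Bool, Real.exp (c * |(rowG g u : ℝ)| - 4) ≤
        Real.exp (-4) * (Real.exp (c * (rowG g u : ℝ)) + Real.exp (-c * (rowG g u : ℝ))) := by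
      intro g
      rw [sub_eq_add_neg, add_comm, Real.exp_add]
      refine mul_le_mul_of_nonneg_left ?_ (Real.exp_pos _).le
      rcases le_total 0 (rowG g u : ℝ) with h | h
      · rw [abs_of_nonneg h]
        linarith [Real.exp_pos (-c * (rowG g u : ℝ))]
      · rw [abs_of_nonpos h]
        have e : c * -(rowG g u : ℝ) = -c * (rowG g u : ℝ) := by ring
        rw [e]
        linarith [Real.exp_pos (c * (rowG g u : ℝ))]
    refine (Finset.sum_le_sum fun g _ => h3 g).trans ?_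
    rw [← Finset.mul_sum, Finset.sum_add_distrib]
    have hN : (0 : ℝ) ≤ Fintype.card (ι → Fin l → Bool) := Nat.cast_nonneg _
    have h5 : 2 * Real.exp (1 / 6) ≤ Real.exp 1 := by
      have h6 := Real.quadratic_le_exp_of_nonneg (show (0 : ℝ) ≤ 5 / 6 by norm_num)
      have h7 : Real.exp 1 = Real.exp (5 / 6) * Real.exp (1 / 6) := by
        rw [← Real.exp_add]; norm_num
      rw [h7]
      refine mul_le_mul_of_nonneg_right (le_trans ?_ h6) (Real.exp_pos _).le
      norm_num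
    have h8 : Real.exp (-4) * Real.exp 1 = Real.exp (-3) := by
      rw [← Real.exp_add]; norm_num
    rw [← h8, mul_assoc]
    refine mul_le_mul_of_nonneg_left ?_ (Real.exp_pos _).le
    have h9 := mul_le_mul_of_nonneg_right h5 hN
    nlinarith
  have hexp : ∀ G : Fin d → ι → Fin l → Bool,
      Real.exp (c * (∑ i, |(rowG (G i) u : ℝ)|) - 4 * d) =
        ∏ i, Real.exp (c * |(rowG (G i) u : ℝ)| - 4) := by
    intro G
    rw [← Real.exp_sum, Finset.sum_sub_distrib, Finset.mul_sum, Finset.sum_const,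
      Finset.card_univ, Fintype.card_fin, nsmul_eq_mul]
    congr 1
    ring
  have hcount : ((Finset.univ.filter (fun G : Fin d → ι → Fin l → Bool =>
        4 * (d : ℝ) * 2 ^ l * w < ∑ i, |(rowG (G i) u : ℝ)|)).card : ℝ) ≤
      ∑ G : Fin d → ι → Fin l → Bool, Real.exp (c * (∑ i, |(rowG (G i) u : ℝ)|) - 4 * d) := by
    rw [Finset.card_eq_sum_ones, Nat.cast_sum]
    refine le_trans (Finset.sum_le_sum (fun G hG => ?_))
      (Finset.sum_le_sum_of_subset_of_nonneg (Finset.filter_subset _ _)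
        (fun _ _ _ => (Real.exp_pos _).le))
    have h1 := (mem_filter.1 hG).2
    rw [Nat.cast_one]
    refine Real.one_le_exp ?_
    have h2 := mul_le_mul_of_nonneg_left h1.le hc0.le
    have h3 : c * (4 * (d : ℝ) * 2 ^ l * w) = 4 * d := by
      linear_combination 4 * (d : ℝ) * hc1
    linarith
  refine hcount.trans ?_
  simp only [hexp]
  rw [m17_prod (fun (_ : Fin d) (g : ι → Fin l → Bool) => Real.exp (c * |(rowG g u : ℝ)| - 4)),
    Finset.prod_const, Finset.card_univ, Fintype.card_fin]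
  refine (pow_le_pow_left₀ (Finset.sum_nonneg fun _ _ => (Real.exp_pos _).le) hrow d).trans
    (le_of_eq ?_)
  rw [mul_pow, ← Real.exp_nat_mul, Fintype.card_fun (α := Fin d), Fintype.card_fin]
  push_cast
  congr 2
  ring

end Pool.Agent.TSP92
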