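import Pool.Agent.Helper92.TSP.Defs

/-! Marginals of a product. -/

set_option autoImplicit false

namespace Pool.Agent.TSP92

open Finset

/-- exchange the two values with a pair of spare values -/
private def m18swap {V A : Type} [DecidableEq V] (v w : V) :
    ((V → A) × A × A) → ((V → A) × A × A) :=
  fun p => (Function.update (Function.update p.1 v p.2.1) w p.2.2, p.1 v, p.1 w)

private theorem m18inv {V A : Type} [DecidableEq V] (v w : V) (hvw : v ≠ w) :
    Function.Involutive (m18swap (A := A) v w) := by
  rintro ⟨Z, a, b⟩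
  unfold m18swap
  simp only [Function.update_self, Function.update_of_ne hvw]
  rw [Prod.mk.injEq]
  refine ⟨?_, rfl⟩
  funext u
  by_cases h1 : u = w
  · subst h1
    rw [Function.update_self]
  · rw [Function.update_of_ne h1]
    by_cases h2 : u = v
    · subst h2
      rw [Function.update_self]
    · rw [Function.update_of_ne h2, Function.update_of_ne h1, Function.update_of_ne h2]

theorem marginal {V A : Type} [Fintype V] [DecidableEq V] [Fintype A] [DecidableEq A]
    (v w : V) (hvw : v ≠ w) (f : A → A → ℝ) :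
    (Fintype.card A : ℝ) ^ 2 * ∑ Z : V → A, f (Z v) (Z w) =
      (Fintype.card (V → A) : ℝ) * ∑ a : A, ∑ a' : A, f a a' := by
  have h1 : ∑ p : (V → A) × A × A, f (p.1 v) (p.1 w) = ∑ p : (V → A) × A × A, f p.2.1 p.2.2 := by
    refine Fintype.sum_equiv (Function.Involutive.toPerm _ (m18inv (A := A) v w hvw)) _ _ ?_
    rintro ⟨Z, a, b⟩
    rfl
  have h2 : ∑ p : (V → A) × A × A, f (p.1 v) (p.1 w)
      = (Fintype.card A : ℝ) ^ 2 * ∑ Z : V → A, f (Z v) (Z w) := by
    rw [Fintype.sum_prod_type, Finset.mul_sum]
    apply Finset.sum_congr rfl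
    intro Z _
    simp only [Finset.sum_const, Finset.card_univ, Fintype.card_prod, nsmul_eq_mul]
    push_cast
    ring
  have h3 : ∑ p : (V → A) × A × A, f p.2.1 p.2.2
      = (Fintype.card (V → A) : ℝ) * ∑ a : A, ∑ a' : A, f a a' := by
    rw [Fintype.sum_prod_type]
    simp only [Finset.sum_const, Finset.card_univ, nsmul_eq_mul]
    rw [Fintype.sum_prod_type]
  rw [← h2, h1, h3]

end Pool.Agent.TSP92
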