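import Pool.Agent.Helper92.TSP.Defs
import Pool.Agent.Helper92.TSP.M00
import Pool.Agent.Helper92.TSP.M10
import Pool.Agent.Helper92.TSP.M12
import Pool.Agent.Helper92.TSP.M16
import Pool.Agent.Helper92.TSP.M17
import Pool.Agent.Helper92.TSP.M18

/-! Part II: good random maps. -/

set_option autoImplicit false

namespace Pool.Agent.TSP92

open Finset

private theorem HH_sub' {q r d : ℕ} (h : Fin d → (Fin r → ZMod q)) (y y' : Fin d → ℤ) :
    HH h y - HH h y' = HH h (fun i => y i - y' i) := by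
  unfold HH
  rw [← Finset.sum_sub_distrib]
  apply Finset.sum_congr rfl
  intro i _
  rw [sub_smul]

private theorem rowG_sub' {ι : Type} [Fintype ι] {l : ℕ} (g : ι → Fin l → Bool) (u v : ι → ℤ) :
    rowG g u - rowG g v = rowG g (fun i => u i - v i) := by
  unfold rowG
  rw [← Finset.sum_sub_distrib]
  apply Finset.sum_congr rfl
  intro i _
  ring

/-- the equivalence which separates the three kinds of digits -/
private def tripleEquiv (d : ℕ) (A B C : Type) :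
    (Fin d → A × B × C) ≃ (Fin d → A) × (Fin d → B) × (Fin d → C) where
  toFun w := (fun i => (w i).1, fun i => (w i).2.1, fun i => (w i).2.2)
  invFun p := fun i => (p.1 i, p.2.1 i, p.2.2 i)
  left_inv _ := rfl
  right_inv _ := rfl

private theorem pair_sum {ι : Type} [Fintype ι] [DecidableEq ι] (q l D r d s m : ℕ)
    [Fact q.Prime] (h : Fin d → (Fin r → ZMod q))
    (hw : ∀ k : Fin r → ZMod q, k ≠ 0 →
      s + 1 ≤ (Finset.univ.filter (fun i : Fin d => ∑ a, k a * h i a ≠ 0)).card)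
    (hl : 80 * D ≤ 2 ^ l) (hq : 4 * 2 ^ l * D ≤ q)
    (blk : (Fin r → ZMod q) → ℕ)
    (hm : ∀ B, (Finset.univ.filter (fun x => blk x = B)).card ≤ m)
    (u : ι → ℤ) (hD : (D : ℝ) ^ 2 ≤ ∑ i, (u i : ℝ) ^ 2) (hu : ∀ i, |u i| ≤ 40 * (D : ℤ)) :
    ∑ G : Fin d → ι → Fin l → Bool, ∑ a : Fin d → Fin l → Bool, ∑ a' : Fin d → Fin l → Bool,
      ((Finset.univ.filter (fun x => blk (x + HH h (fun i => rowG (G i) u + ndig (a i) -
        ndig (a' i))) = blk x)).card : ℝ) ≤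
      (Fintype.card (Fin d → ι → Fin l → Bool) : ℝ) *
        (Fintype.card (Fin d → Fin l → Bool) : ℝ) ^ 2 *
        ((m : ℝ) + Real.exp (-4 * ((2 : ℝ) ^ l * D / q) ^ 2) ^ (s + 1) * (q : ℝ) ^ r) := by
  have h1 := fourier_block (q := q) (r := r)
    (Ω := Fin d → (ι → Fin l → Bool) × (Fin l → Bool) × (Fin l → Bool))
    (fun w => HH h (fun i => rowG (w i).1 u + ndig (w i).2.1 - ndig (w i).2.2))
    (Real.exp (-4 * ((2 : ℝ) ^ l * D / q) ^ 2) ^ (s + 1)) (by positivity)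
    (fun k hk => full_char q l D r d s h hw u hD hu hl hq k hk) blk m hm
  have e := tripleEquiv d (ι → Fin l → Bool) (Fin l → Bool) (Fin l → Bool)
  have h2 : Fintype.card (Fin d → (ι → Fin l → Bool) × (Fin l → Bool) × (Fin l → Bool)) =
      Fintype.card (Fin d → ι → Fin l → Bool) * Fintype.card (Fin d → Fin l → Bool) ^ 2 := by
    rw [Fintype.card_congr (tripleEquiv d (ι → Fin l → Bool) (Fin l → Bool) (Fin l → Bool)),
      Fintype.card_prod, Fintype.card_prod, pow_two]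
  rw [h2] at h1
  push_cast at h1
  refine le_trans (le_of_eq ?_) h1
  rw [← Equiv.sum_comp (tripleEquiv d (ι → Fin l → Bool) (Fin l → Bool) (Fin l → Bool)).symm,
    Fintype.sum_prod_type]
  apply Finset.sum_congr rfl
  intro G _
  rw [Fintype.sum_prod_type]
  rfl

private theorem card_Vf_real (ι : Type) [Fintype ι] [DecidableEq ι] (D : ℕ) (hD0 : 0 < D) :
    ((Vf ι (20 * D)).card : ℝ) ≤ (41 * (D : ℝ)) ^ Fintype.card ι := by
  have h1 : ((Vf ι (20 * D)).card : ℝ) ≤ ((2 * (20 * D) + 1 : ℕ) : ℝ) ^ Fintype.card ι := by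
    exact_mod_cast card_Vf_le ι (20 * D)
  refine h1.trans ?_
  apply pow_le_pow_left₀ (by positivity)
  have : (1 : ℝ) ≤ D := by exact_mod_cast hD0
  push_cast
  linarith

private theorem abs_le_of_mem_Vf {ι : Type} [Fintype ι] [DecidableEq ι] {ρ : ℕ} {v : ι → ℤ}
    (hv : v ∈ Vf ι ρ) (i : ι) : |v i| ≤ (ρ : ℤ) := by
  unfold Vf at hv
  rw [Finset.mem_filter, Fintype.mem_piFinset] at hv
  exact abs_le.mpr (Finset.mem_Icc.mp (hv.1 i))

private theorem pair_bad {ι V : Type} [Fintype ι] [DecidableEq ι] [Fintype V] [DecidableEq V]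
    (q l D r d s m : ℕ)
    [Fact q.Prime] (h : Fin d → (Fin r → ZMod q))
    (hw : ∀ k : Fin r → ZMod q, k ≠ 0 →
      s + 1 ≤ (Finset.univ.filter (fun i : Fin d => ∑ a, k a * h i a ≠ 0)).card)
    (hl : 80 * D ≤ 2 ^ l) (hq : 4 * 2 ^ l * D ≤ q)
    (blk : (Fin r → ZMod q) → ℕ)
    (hm : ∀ B, (Finset.univ.filter (fun x => blk x = B)).card ≤ m)
    (pt : V → ι → ℤ) (hpt : ∀ v, pt v ∈ Vf ι (20 * D))
    (v w : V) (hvw : (D : ℝ) < d2 (pt v) (pt w)) :
    ∑ G : Fin d → ι → Fin l → Bool,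
      ∑ Z : V → Fin d → Fin l → Bool,
      ((Finset.univ.filter (fun x =>
        blk (x + HH h (fun i => rowG (G i) (pt v) + ndig (Z v i))) =
        blk (x + HH h (fun i => rowG (G i) (pt w) + ndig (Z w i))))).card : ℝ) ≤
      (Fintype.card (Fin d → ι → Fin l → Bool) : ℝ) *
        (Fintype.card (V → Fin d → Fin l → Bool) : ℝ) *
        ((m : ℝ) + Real.exp (-4 * ((2 : ℝ) ^ l * D / q) ^ 2) ^ (s + 1) * (q : ℝ) ^ r) := by
  classical
  have hne : v ≠ w := by
    rintro rfl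
    rw [((d2_isMet (ι := ι)).zero (pt v) (pt v)).mpr rfl] at hvw
    have : (0 : ℝ) ≤ D := Nat.cast_nonneg D
    linarith
  have hu : ∀ i, |(pt v) i - (pt w) i| ≤ 40 * (D : ℤ) := by
    intro i
    have h1 := abs_le_of_mem_Vf (hpt v) i
    have h2 := abs_le_of_mem_Vf (hpt w) i
    have h3 := abs_sub ((pt v) i) ((pt w) i)
    push_cast at h1 h2
    linarith
  have hD : (D : ℝ) ^ 2 ≤ ∑ i, (((fun i => (pt v) i - (pt w) i) i : ℤ) : ℝ) ^ 2 := by
    have h1 := d2_sq (pt v) (pt w)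
    have h2 : (D : ℝ) ^ 2 ≤ d2 (pt v) (pt w) ^ 2 := pow_le_pow_left₀ (Nat.cast_nonneg D) hvw.le 2
    rw [h1] at h2
    push_cast
    exact h2
  have hps := pair_sum q l D r d s m h hw hl hq blk hm (fun i => (pt v) i - (pt w) i) hD hu
  obtain ⟨f, hf⟩ : ∃ f : (Fin d → ι → Fin l → Bool) → (Fin d → Fin l → Bool) →
      (Fin d → Fin l → Bool) → ℝ, f = fun G a a' =>
      ((Finset.univ.filter (fun x => blk (x + HH h (fun i => rowG (G i) (fun i => (pt v) i - (pt w) i) +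
        ndig (a i) - ndig (a' i))) = blk x)).card : ℝ) := ⟨_, rfl⟩
  have hcard : ∀ (G : Fin d → ι → Fin l → Bool)
      (Z : V → Fin d → Fin l → Bool),
      ((Finset.univ.filter (fun x =>
        blk (x + HH h (fun i => rowG (G i) (pt v) + ndig (Z v i))) =
        blk (x + HH h (fun i => rowG (G i) (pt w) + ndig (Z w i))))).card : ℝ) =
      f G (Z v) (Z w) := by
    intro G Z
    rw [hf]
    congr 1
    apply Finset.card_equiv (Equiv.addRight (HH h (fun i => rowG (G i) (pt w) + ndig (Z w i))))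
    intro x
    rw [Finset.mem_filter, Finset.mem_filter]
    simp only [Finset.mem_univ, true_and, Equiv.coe_addRight]
    have e : HH h (fun i => rowG (G i) (pt v) + ndig (Z v i)) =
        HH h (fun i => rowG (G i) (pt w) + ndig (Z w i)) +
        HH h (fun i => rowG (G i) (fun i => (pt v) i - (pt w) i) + ndig (Z v i) - ndig (Z w i)) := by
      rw [← sub_eq_iff_eq_add', HH_sub']
      congr 1
      funext i
      rw [← rowG_sub']
      ring
    rw [e, ← add_assoc]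
  have hA : (0 : ℝ) < (Fintype.card (Fin d → Fin l → Bool) : ℝ) ^ 2 := by
    have : 0 < Fintype.card (Fin d → Fin l → Bool) := Fintype.card_pos
    positivity
  have hkey : (Fintype.card (Fin d → Fin l → Bool) : ℝ) ^ 2 *
      ∑ G : Fin d → ι → Fin l → Bool,
      ∑ Z : V → Fin d → Fin l → Bool, f G (Z v) (Z w) =
      (Fintype.card (V → Fin d → Fin l → Bool) : ℝ) *
      ∑ G : Fin d → ι → Fin l → Bool, ∑ a : Fin d → Fin l → Bool,
        ∑ a' : Fin d → Fin l → Bool, f G a a' := by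
    rw [Finset.mul_sum, Finset.mul_sum]
    apply Finset.sum_congr rfl
    intro G _
    exact marginal v w hne (f G)
  have hps' : ∑ G : Fin d → ι → Fin l → Bool, ∑ a : Fin d → Fin l → Bool,
        ∑ a' : Fin d → Fin l → Bool, f G a a' ≤
      (Fintype.card (Fin d → ι → Fin l → Bool) : ℝ) *
        (Fintype.card (Fin d → Fin l → Bool) : ℝ) ^ 2 *
        ((m : ℝ) + Real.exp (-4 * ((2 : ℝ) ^ l * D / q) ^ 2) ^ (s + 1) * (q : ℝ) ^ r) := by
    rw [hf]
    exact hps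
  simp only [hcard]
  refine le_of_mul_le_mul_left ?_ hA
  rw [hkey]
  calc _ ≤ (Fintype.card (V → Fin d → Fin l → Bool) : ℝ) *
        ((Fintype.card (Fin d → ι → Fin l → Bool) : ℝ) *
        (Fintype.card (Fin d → Fin l → Bool) : ℝ) ^ 2 *
        ((m : ℝ) + Real.exp (-4 * ((2 : ℝ) ^ l * D / q) ^ 2) ^ (s + 1) * (q : ℝ) ^ r)) :=
        mul_le_mul_of_nonneg_left hps' (Nat.cast_nonneg _)
    _ = _ := by ring

private theorem lip_bad {ι : Type} [Fintype ι] [DecidableEq ι] (l D d : ℕ)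
    (B : Finset (Fin d → ι → Fin l → Bool))
    (hB : ∀ G ∈ B, ∃ v ∈ Vf ι (20 * D), ∃ w ∈ Vf ι (20 * D), v ≠ w ∧
        4 * (d : ℝ) * 2 ^ l * d2 v w <
          ∑ i, |(rowG (G i) (fun j => v j - w j) : ℝ)|) :
    (B.card : ℝ) ≤
      ((Vf ι (20 * D)).card : ℝ) ^ 2 *
        (Real.exp (-3 * (d : ℝ)) * Fintype.card (Fin d → ι → Fin l → Bool)) := by
  classical
  have hsub : B ⊆
      ((Vf ι (20 * D) ×ˢ Vf ι (20 * D)).filter (fun p => p.1 ≠ p.2)).biUnion
        (fun p => Finset.univ.filter (fun G : Fin d → ι → Fin l → Bool =>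
        4 * (d : ℝ) * 2 ^ l * Real.sqrt (∑ i, (((fun j => p.1 j - p.2 j) i : ℤ) : ℝ) ^ 2) <
          ∑ i, |(rowG (G i) (fun j => p.1 j - p.2 j) : ℝ)|)) := by
    intro G hG
    obtain ⟨v, hv, w, hw, hvw, hlt⟩ := hB G hG
    rw [Finset.mem_biUnion]
    refine ⟨(v, w), ?_, ?_⟩
    · rw [Finset.mem_filter, Finset.mem_product]
      exact ⟨⟨hv, hw⟩, hvw⟩
    · rw [Finset.mem_filter]
      refine ⟨Finset.mem_univ _, ?_⟩
      unfold d2 at hlt
      push_cast
      exact hlt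
  have h1 := (Finset.card_le_card hsub).trans Finset.card_biUnion_le
  have h2 : ((∑ p ∈ (Vf ι (20 * D) ×ˢ Vf ι (20 * D)).filter (fun p => p.1 ≠ p.2),
      (Finset.univ.filter (fun G : Fin d → ι → Fin l → Bool =>
        4 * (d : ℝ) * 2 ^ l * Real.sqrt (∑ i, (((fun j => p.1 j - p.2 j) i : ℤ) : ℝ) ^ 2) <
          ∑ i, |(rowG (G i) (fun j => p.1 j - p.2 j) : ℝ)|)).card : ℕ) : ℝ) ≤
      (((Vf ι (20 * D) ×ˢ Vf ι (20 * D)).filter (fun p => p.1 ≠ p.2)).card : ℝ) *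
      (Real.exp (-3 * (d : ℝ)) * Fintype.card (Fin d → ι → Fin l → Bool)) := by
    rw [Nat.cast_sum, ← nsmul_eq_mul]
    apply Finset.sum_le_card_nsmul
    intro p hp
    rw [Finset.mem_filter] at hp
    apply tail
    intro h0
    apply hp.2
    funext j
    have := congrFun h0 j
    simp only [Pi.zero_apply] at this
    linarith
  have h3 : (((Vf ι (20 * D) ×ˢ Vf ι (20 * D)).filter (fun p => p.1 ≠ p.2)).card : ℝ) ≤
      ((Vf ι (20 * D)).card : ℝ) ^ 2 := by
    have := Finset.card_filter_le (Vf ι (20 * D) ×ˢ Vf ι (20 * D)) (fun p => p.1 ≠ p.2)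
    rw [Finset.card_product] at this
    rw [pow_two]
    exact_mod_cast this
  calc _ ≤ ((∑ p ∈ (Vf ι (20 * D) ×ˢ Vf ι (20 * D)).filter (fun p => p.1 ≠ p.2),
      (Finset.univ.filter (fun G : Fin d → ι → Fin l → Bool =>
        4 * (d : ℝ) * 2 ^ l * Real.sqrt (∑ i, (((fun j => p.1 j - p.2 j) i : ℤ) : ℝ) ^ 2) <
          ∑ i, |(rowG (G i) (fun j => p.1 j - p.2 j) : ℝ)|)).card : ℕ) : ℝ) := by
        exact_mod_cast h1
    _ ≤ _ := h2
    _ ≤ _ := mul_le_mul_of_nonneg_right h3 (by positivity)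

private theorem ndig_bound {l : ℕ} (z : Fin l → Bool) : 0 ≤ ndig z ∧ ndig z ≤ 2 ^ l := by
  unfold ndig
  have hb : ∀ b : Bool, 0 ≤ bt b ∧ bt b ≤ 1 := by
    intro b
    cases b <;> simp [bt]
  constructor
  · apply Finset.sum_nonneg
    intro a _
    exact mul_nonneg (by positivity) (hb _).1
  · have h1 : ∑ a : Fin l, (2 : ℤ) ^ (a : ℕ) * bt (z a) ≤ ∑ a : Fin l, (2 : ℤ) ^ (a : ℕ) := by
      apply Finset.sum_le_sum
      intro a _
      exact mul_le_of_le_one_right (by positivity) (hb _).2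
    have h2 : ∑ a : Fin l, (2 : ℤ) ^ (a : ℕ) = 2 ^ l - 1 := by
      rw [Fin.sum_univ_eq_sum_range (fun a => (2 : ℤ) ^ a) l]
      have := geom_sum_mul (2 : ℤ) l
      linarith
    linarith

private theorem one_le_d2 {ι : Type} [Fintype ι] {v w : ι → ℤ} (h : v ≠ w) : 1 ≤ d2 v w := by
  obtain ⟨i, hi⟩ := Function.ne_iff.mp h
  unfold d2
  rw [Real.one_le_sqrt]
  have h1 : (1 : ℝ) ≤ ((v i : ℝ) - w i) ^ 2 := by
    have h2 : (1 : ℤ) ≤ (v i - w i) ^ 2 := by
      have : v i - w i ≠ 0 := sub_ne_zero.mpr hi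
      have := sq_pos_of_ne_zero this
      linarith
    exact_mod_cast h2
  exact h1.trans (Finset.single_le_sum (f := fun i => ((v i : ℝ) - w i) ^ 2)
    (fun j _ => sq_nonneg _) (Finset.mem_univ i))

private theorem index_Vf {ι : Type} [Fintype ι] [DecidableEq ι] (ρ : ℕ) :
    ∃ (n : ℕ) (pt : Fin n → ι → ℤ) (idx : (ι → ℤ) → Option (Fin n)), n = (Vf ι ρ).card ∧
      (∀ v, pt v ∈ Vf ι ρ) ∧ ∀ v ∈ Vf ι ρ, ∃ w, idx v = some w ∧ pt w = v := by
  classical
  refine ⟨(Vf ι ρ).card, fun i => ((Vf ι ρ).equivFin.symm i).1, fun v => if hv : v ∈ Vf ι ρ then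
    some ((Vf ι ρ).equivFin ⟨v, hv⟩) else none, rfl, fun v => ((Vf ι ρ).equivFin.symm v).2, ?_⟩
  intro v hv
  exact ⟨(Vf ι ρ).equivFin ⟨v, hv⟩, dif_pos hv, by simp⟩

theorem part2 {ι : Type} [Fintype ι] [DecidableEq ι] (q l D r d s m : ℕ) [Fact q.Prime]
    (h : Fin d → (Fin r → ZMod q)) (hsurj : Function.Surjective (HH h))
    (hw : ∀ k : Fin r → ZMod q, k ≠ 0 →
      s + 1 ≤ (Finset.univ.filter (fun i : Fin d => ∑ a, k a * h i a ≠ 0)).card)
    (hD0 : 0 < D) (hd0 : 0 < d) (hl : 80 * D ≤ 2 ^ l) (hq : 4 * 2 ^ l * D ≤ q)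
    (blk : (Fin r → ZMod q) → ℕ)
    (hm : ∀ B, (Finset.univ.filter (fun x => blk x = B)).card ≤ m)
    (n1 : 8 * (41 * (D : ℝ)) ^ (2 * Fintype.card ι) * m ≤ (q : ℝ) ^ r)
    (n2 : 8 * (41 * (D : ℝ)) ^ (2 * Fintype.card ι) *
      Real.exp (-4 * ((2 : ℝ) ^ l * D / q) ^ 2) ^ (s + 1) ≤ 1)
    (n3 : 4 * (41 * (D : ℝ)) ^ (2 * Fintype.card ι) * Real.exp (-3 * (d : ℝ)) ≤ 1) :
    ∃ Good : Finset (Fin r → ZMod q), Fintype.card (Fin r → ZMod q) ≤ 2 * Good.card ∧
      ∀ x ∈ Good, ∃ F : (ι → ℤ) → (Fin r → ZMod q), F 0 = x ∧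
        (∀ v ∈ Vf ι (20 * D), ∀ w ∈ Vf ι (20 * D),
          dX h (F v) (F w) ≤ 5 * 2 ^ l / q * d2 v w) ∧
        (∀ v ∈ Vf ι (20 * D), ∀ w ∈ Vf ι (20 * D), (D : ℝ) < d2 v w →
          blk (F v) ≠ blk (F w)) := by
  classical
  obtain ⟨n, pt, idx, hn, hpt, hidx⟩ := index_Vf (ι := ι) (20 * D)
  obtain ⟨av, hav⟩ : ∃ av : (Fin d → ι → Fin l → Bool) → (Fin n → Fin d → Fin l → Bool) → Fin n →
      (Fin r → ZMod q), av = fun G Z v => HH h (fun i => rowG (G i) (pt v) + ndig (Z v i)) :=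
    ⟨_, rfl⟩
  obtain ⟨lam, hlam⟩ : ∃ lam : ℝ, lam = Real.exp (-4 * ((2 : ℝ) ^ l * D / q) ^ 2) ^ (s + 1) :=
    ⟨_, rfl⟩
  rw [← hlam] at n2
  have hlam0 : 0 ≤ lam := by rw [hlam]; positivity
  obtain ⟨LB, hLB⟩ : ∃ LB : Finset (Fin d → ι → Fin l → Bool), ∀ G, G ∈ LB ↔
      ∃ v ∈ Vf ι (20 * D), ∃ w ∈ Vf ι (20 * D), v ≠ w ∧
        4 * (d : ℝ) * 2 ^ l * d2 v w <
          ∑ i, |(rowG (G i) (fun j => v j - w j) : ℝ)| :=
    ⟨Finset.univ.filter (fun G => ∃ v ∈ Vf ι (20 * D), ∃ w ∈ Vf ι (20 * D), v ≠ w ∧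
        4 * (d : ℝ) * 2 ^ l * d2 v w <
          ∑ i, |(rowG (G i) (fun j => v j - w j) : ℝ)|), by simp⟩
  have hLBc := lip_bad l D d LB (fun G hG => (hLB G).mp hG)
  obtain ⟨PB, hPB⟩ : ∃ PB : (Fin d → ι → Fin l → Bool) → (Fin n → Fin d → Fin l → Bool) →
      Fin n × Fin n → Finset (Fin r → ZMod q), PB = fun G Z p => Finset.univ.filter (fun x =>
        blk (x + av G Z p.1) = blk (x + av G Z p.2)) := ⟨_, rfl⟩
  obtain ⟨pairs, hpairs⟩ : ∃ pairs : Finset (Fin n × Fin n), pairs =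
      Finset.univ.filter (fun p => (D : ℝ) < d2 (pt p.1) (pt p.2)) := ⟨_, rfl⟩
  obtain ⟨Bad, hBad⟩ : ∃ Bad : (Fin d → ι → Fin l → Bool) → (Fin n → Fin d → Fin l → Bool) →
      Finset (Fin r → ZMod q), Bad = fun G Z => (if G ∈ LB then Finset.univ else ∅) ∪
        pairs.biUnion (PB G Z) := ⟨_, rfl⟩
  obtain ⟨K, hK⟩ : ∃ K : ℝ, K = (41 * (D : ℝ)) ^ (2 * Fintype.card ι) := ⟨_, rfl⟩
  rw [← hK] at n1 n2 n3
  have hK0 : 0 ≤ K := by rw [hK]; positivity
  have hVK : ((Vf ι (20 * D)).card : ℝ) ^ 2 ≤ K := by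
    rw [hK, Nat.mul_comm 2 (Fintype.card ι), pow_mul]
    exact pow_le_pow_left₀ (Nat.cast_nonneg _) (card_Vf_real ι D hD0) 2
  have hpK : (pairs.card : ℝ) ≤ K := by
    refine le_trans ?_ hVK
    have h1 : pairs.card ≤ n * n := by
      rw [hpairs]
      refine (Finset.card_filter_le _ _).trans ?_
      rw [Finset.card_univ, Fintype.card_prod, Fintype.card_fin]
    have h2 : (pairs.card : ℝ) ≤ (n : ℝ) * (n : ℝ) := by exact_mod_cast h1
    refine h2.trans (le_of_eq ?_)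
    rw [← hn, pow_two]
  have hX : (Fintype.card (Fin r → ZMod q) : ℝ) = (q : ℝ) ^ r := by
    rw [Fintype.card_fun, ZMod.card, Fintype.card_fin]
    push_cast
    rfl
  have hq0 : 0 < q := (Fact.out : q.Prime).pos
  have hqr : (0 : ℝ) < (q : ℝ) ^ r := by positivity
  obtain ⟨NG, hNG⟩ : ∃ NG : ℝ, NG = (Fintype.card (Fin d → ι → Fin l → Bool) : ℝ) := ⟨_, rfl⟩
  obtain ⟨NZ, hNZ⟩ : ∃ NZ : ℝ, NZ = (Fintype.card (Fin n → Fin d → Fin l → Bool) : ℝ) := ⟨_, rfl⟩
  have hNG0 : 0 ≤ NG := by rw [hNG]; positivity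
  have hNZ0 : 0 ≤ NZ := by rw [hNZ]; positivity
  -- pointwise bound
  have hBadc : ∀ G Z, ((Bad G Z).card : ℝ) ≤ (if G ∈ LB then (q : ℝ) ^ r else 0) +
      ∑ p ∈ pairs, ((PB G Z p).card : ℝ) := by
    intro G Z
    have h1 : (Bad G Z).card ≤ (if G ∈ LB then (Finset.univ : Finset (Fin r → ZMod q)) else
        ∅).card + ∑ p ∈ pairs, (PB G Z p).card := by
      rw [hBad]
      refine (Finset.card_union_le _ _).trans ?_
      exact Nat.add_le_add_left Finset.card_biUnion_le _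
    have h2 : ((if G ∈ LB then (Finset.univ : Finset (Fin r → ZMod q)) else ∅).card : ℝ) =
        (if G ∈ LB then (q : ℝ) ^ r else 0) := by
      split_ifs with hG
      · rw [Finset.card_univ, hX]
      · simp
    rw [← h2]
    exact_mod_cast h1
  -- the sum of the sizes of the bad sets
  have hS1 : ∑ G : Fin d → ι → Fin l → Bool, ∑ _Z : Fin n → Fin d → Fin l → Bool,
      (if G ∈ LB then (q : ℝ) ^ r else 0) ≤ NG * NZ * ((q : ℝ) ^ r / 4) := by
    have h1 : ∑ G : Fin d → ι → Fin l → Bool, ∑ _Z : Fin n → Fin d → Fin l → Bool,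
      (if G ∈ LB then (q : ℝ) ^ r else 0) = NZ * ((LB.card : ℝ) * (q : ℝ) ^ r) := by
      simp only [Finset.sum_const, Finset.card_univ, nsmul_eq_mul, ← Finset.mul_sum]
      rw [← hNZ]
      congr 1
      rw [Finset.sum_ite_mem, Finset.univ_inter, Finset.sum_const, nsmul_eq_mul]
    rw [h1]
    have h2 : (LB.card : ℝ) ≤ NG / 4 := by
      refine hLBc.trans ?_
      rw [← hNG]
      have h3 : ((Vf ι (20 * D)).card : ℝ) ^ 2 * (Real.exp (-3 * (d : ℝ)) * NG) ≤
          K * (Real.exp (-3 * (d : ℝ)) * NG) := by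
        apply mul_le_mul_of_nonneg_right hVK
        positivity
      have h4 : K * (Real.exp (-3 * (d : ℝ)) * NG) =
          (4 * K * Real.exp (-3 * (d : ℝ))) * (NG / 4) := by ring
      have h5 : (4 * K * Real.exp (-3 * (d : ℝ))) * (NG / 4) ≤ 1 * (NG / 4) := by
        apply mul_le_mul_of_nonneg_right n3
        positivity
      linarith
    calc NZ * ((LB.card : ℝ) * (q : ℝ) ^ r) ≤ NZ * ((NG / 4) * (q : ℝ) ^ r) := by gcongr
      _ = NG * NZ * ((q : ℝ) ^ r / 4) := by ring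
  have hS2 : ∑ G : Fin d → ι → Fin l → Bool, ∑ Z : Fin n → Fin d → Fin l → Bool,
      ∑ p ∈ pairs, ((PB G Z p).card : ℝ) ≤ NG * NZ * ((q : ℝ) ^ r / 4) := by
    have h1 : ∑ G : Fin d → ι → Fin l → Bool, ∑ Z : Fin n → Fin d → Fin l → Bool,
      ∑ p ∈ pairs, ((PB G Z p).card : ℝ) = ∑ p ∈ pairs, ∑ G : Fin d → ι → Fin l → Bool,
        ∑ Z : Fin n → Fin d → Fin l → Bool, ((PB G Z p).card : ℝ) := by
      rw [Finset.sum_comm]
      simp only [Finset.sum_comm (s := pairs)]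
      rw [Finset.sum_comm]
    rw [h1]
    have h2 : ∀ p ∈ pairs, ∑ G : Fin d → ι → Fin l → Bool,
        ∑ Z : Fin n → Fin d → Fin l → Bool, ((PB G Z p).card : ℝ) ≤
        NG * NZ * ((m : ℝ) + lam * (q : ℝ) ^ r) := by
      intro p hp
      rw [hpairs, Finset.mem_filter] at hp
      have h3 := pair_bad q l D r d s m h hw hl hq blk hm pt hpt p.1 p.2 hp.2
      rw [← hlam, ← hNG, ← hNZ] at h3
      rw [hPB, hav]
      exact h3
    have h3 : ∑ p ∈ pairs, ∑ G : Fin d → ι → Fin l → Bool,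
        ∑ Z : Fin n → Fin d → Fin l → Bool, ((PB G Z p).card : ℝ) ≤
        (pairs.card : ℝ) * (NG * NZ * ((m : ℝ) + lam * (q : ℝ) ^ r)) := by
      rw [← nsmul_eq_mul]
      exact Finset.sum_le_card_nsmul _ _ _ h2
    refine h3.trans ?_
    have h4 : (pairs.card : ℝ) * (NG * NZ * ((m : ℝ) + lam * (q : ℝ) ^ r)) ≤
        K * (NG * NZ * ((m : ℝ) + lam * (q : ℝ) ^ r)) := by
      apply mul_le_mul_of_nonneg_right hpK
      positivity
    refine h4.trans ?_
    have h5 : K * ((m : ℝ) + lam * (q : ℝ) ^ r) ≤ (q : ℝ) ^ r / 4 := by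
      have h6 : K * lam ≤ 1 / 8 := by linarith
      have h7 : K * lam * (q : ℝ) ^ r ≤ 1 / 8 * (q : ℝ) ^ r :=
        mul_le_mul_of_nonneg_right h6 hqr.le
      linarith
    calc K * (NG * NZ * ((m : ℝ) + lam * (q : ℝ) ^ r)) =
        NG * NZ * (K * ((m : ℝ) + lam * (q : ℝ) ^ r)) := by ring
      _ ≤ NG * NZ * ((q : ℝ) ^ r / 4) := by gcongr
  have hS : ∑ p : (Fin d → ι → Fin l → Bool) × (Fin n → Fin d → Fin l → Bool),
      ((Bad p.1 p.2).card : ℝ) ≤
      ∑ _p : (Fin d → ι → Fin l → Bool) × (Fin n → Fin d → Fin l → Bool), ((q : ℝ) ^ r / 2) := by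
    rw [Finset.sum_const, Finset.card_univ, Fintype.card_prod, nsmul_eq_mul, Fintype.sum_prod_type]
    push_cast
    rw [← hNG, ← hNZ]
    calc ∑ G : Fin d → ι → Fin l → Bool, ∑ Z : Fin n → Fin d → Fin l → Bool,
          ((Bad G Z).card : ℝ) ≤ ∑ G : Fin d → ι → Fin l → Bool,
          ∑ Z : Fin n → Fin d → Fin l → Bool, ((if G ∈ LB then (q : ℝ) ^ r else 0) +
          ∑ p ∈ pairs, ((PB G Z p).card : ℝ)) :=
          Finset.sum_le_sum fun G _ => Finset.sum_le_sum fun Z _ => hBadc G Z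
      _ = (∑ G : Fin d → ι → Fin l → Bool, ∑ _Z : Fin n → Fin d → Fin l → Bool,
          (if G ∈ LB then (q : ℝ) ^ r else 0)) + ∑ G : Fin d → ι → Fin l → Bool,
          ∑ Z : Fin n → Fin d → Fin l → Bool, ∑ p ∈ pairs, ((PB G Z p).card : ℝ) := by
          simp only [Finset.sum_add_distrib]
      _ ≤ NG * NZ * ((q : ℝ) ^ r / 2) := by linarith
  obtain ⟨⟨G, Z⟩, -, hGZ⟩ := Finset.exists_le_of_sum_le Finset.univ_nonempty hS
  simp only at hGZ
  have hG : G ∉ LB := by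
    intro hG
    have h1 : Bad G Z = Finset.univ := by
      rw [hBad]
      simp only [if_pos hG]
      rw [Finset.eq_univ_iff_forall]
      intro x
      exact Finset.mem_union_left _ (Finset.mem_univ x)
    rw [h1, Finset.card_univ, hX] at hGZ
    linarith
  have h0V : (0 : ι → ℤ) ∈ Vf ι (20 * D) := by
    rw [mem_Vf, ((d2_isMet (ι := ι)).zero 0 0).mpr rfl]
    positivity
  obtain ⟨v0, hv0, hpt0⟩ := hidx 0 h0V
  refine ⟨(Bad G Z)ᶜ.image (fun x => x + av G Z v0), ?_, ?_⟩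
  · rw [Finset.card_image_of_injective _ (add_left_injective _)]
    have h1 := Finset.card_add_card_compl (Bad G Z)
    have h2 : (2 * (Bad G Z).card : ℝ) ≤ Fintype.card (Fin r → ZMod q) := by
      rw [hX]; linarith
    have h3 : 2 * (Bad G Z).card ≤ Fintype.card (Fin r → ZMod q) := by exact_mod_cast h2
    omega
  · intro x hx
    rw [Finset.mem_image] at hx
    obtain ⟨x0, hx0, rfl⟩ := hx
    rw [Finset.mem_compl] at hx0
    obtain ⟨F, hF⟩ : ∃ F : (ι → ℤ) → (Fin r → ZMod q), ∀ v ∈ Vf ι (20 * D), ∃ w : Fin n,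
        pt w = v ∧ idx v = some w ∧ F v = x0 + av G Z w := by
      refine ⟨fun v => (idx v).elim 0 (fun w => x0 + av G Z w), fun v hv => ?_⟩
      obtain ⟨w, hw1, hw2⟩ := hidx v hv
      refine ⟨w, hw2, hw1, ?_⟩
      simp only [hw1, Option.elim_some]
    refine ⟨F, ?_, ?_, ?_⟩
    · obtain ⟨w, hw1, hw2, hw3⟩ := hF 0 h0V
      rw [hw3]
      rw [hv0] at hw2
      rw [Option.some_injective _ hw2]
    · intro v hv w hw
      obtain ⟨v', hv', -, hFv⟩ := hF v hv
      obtain ⟨w', hw', -, hFw⟩ := hF w hw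
      rw [hFv, hFw]
      rcases eq_or_ne v w with rfl | hvw
      · have h1 := dX_le_of h (x0 + av G Z v') (x0 + av G Z w') 0 (by
          rw [← hFv, ← hFw, sub_self]
          unfold HH
          simp)
        rw [((d2_isMet (ι := ι)).zero v v).mpr rfl, mul_zero]
        simpa using h1
      · have h1 := dX_le_of h (x0 + av G Z v') (x0 + av G Z w')
          (fun i => (rowG (G i) (pt v') + ndig (Z v' i)) - (rowG (G i) (pt w') + ndig (Z w' i)))
          (by
            rw [← HH_sub', add_sub_add_left_eq_sub, hav])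
        refine h1.trans ?_
        have h2 : ∑ i, |(rowG (G i) (fun j => v j - w j) : ℝ)| ≤ 4 * (d : ℝ) * 2 ^ l * d2 v w := by
          by_contra hcon
          push Not at hcon
          exact hG ((hLB G).mpr ⟨v, hv, w, hw, hvw, hcon⟩)
        have h3 : ∑ i, |(((fun i => (rowG (G i) (pt v') + ndig (Z v' i)) -
            (rowG (G i) (pt w') + ndig (Z w' i))) i : ℤ) : ℝ)| ≤
            ∑ i, |(rowG (G i) (fun j => v j - w j) : ℝ)| + (d : ℝ) * 2 ^ l := by
          have h4 : (d : ℝ) * 2 ^ l = ∑ _i : Fin d, (2 : ℝ) ^ l := by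
            rw [Finset.sum_const, Finset.card_univ, Fintype.card_fin, nsmul_eq_mul]
          rw [h4, ← Finset.sum_add_distrib]
          apply Finset.sum_le_sum
          intro i _
          have h5 : (rowG (G i) (pt v') + ndig (Z v' i)) - (rowG (G i) (pt w') + ndig (Z w' i)) =
              rowG (G i) (fun j => v j - w j) + (ndig (Z v' i) - ndig (Z w' i)) := by
            rw [hv', hw', ← rowG_sub']
            ring
          simp only [h5]
          push_cast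
          refine (abs_add_le _ _).trans ?_
          have h6 : |(ndig (Z v' i) : ℝ) - (ndig (Z w' i) : ℝ)| ≤ 2 ^ l := by
            have a1 := ndig_bound (Z v' i)
            have a2 := ndig_bound (Z w' i)
            have h7 : |ndig (Z v' i) - ndig (Z w' i)| ≤ 2 ^ l := by
              rw [abs_le]
              constructor <;> linarith [a1.1, a1.2, a2.1, a2.2]
            exact_mod_cast h7
          linarith
        have h4 := one_le_d2 hvw
        have hd0' : (0 : ℝ) < d := by exact_mod_cast hd0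
        have hq0' : (0 : ℝ) < q := by exact_mod_cast hq0
        rw [div_le_iff₀ (by positivity)]
        have h5 : 5 * 2 ^ l / (q : ℝ) * d2 v w * ((d : ℝ) * q) = 5 * (d : ℝ) * 2 ^ l * d2 v w := by
          field_simp
        rw [h5]
        refine h3.trans ?_
        have h6 : (d : ℝ) * 2 ^ l * 1 ≤ (d : ℝ) * 2 ^ l * d2 v w := by gcongr
        linarith
    · intro v hv w hw hvw hblk
      obtain ⟨v', hv', -, hFv⟩ := hF v hv
      obtain ⟨w', hw', -, hFw⟩ := hF w hw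
      rw [hFv, hFw] at hblk
      apply hx0
      rw [hBad]
      apply Finset.mem_union_right
      rw [Finset.mem_biUnion]
      refine ⟨(v', w'), ?_, ?_⟩
      · rw [hpairs, Finset.mem_filter]
        refine ⟨Finset.mem_univ _, ?_⟩
        simp only [hv', hw']
        exact hvw
      · rw [hPB]
        simp only [Finset.mem_filter, Finset.mem_univ, true_and]
        exact hblk

end Pool.Agent.TSP92
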