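import Pool.Agent.Helper92.TSP.Defs

/-! Hat functions. -/

set_option autoImplicit false

namespace Pool.Agent.TSP92

open Finset

theorem hat_nonneg {ι : Type} [Fintype ι] (v : ι → ℤ) (x : ι → ℝ) : 0 ≤ hat v x := by
  unfold hat
  exact Finset.prod_nonneg fun i _ => le_max_left _ _

theorem hat_cont {ι : Type} [Fintype ι] (v : ι → ℤ) : Continuous (hat v) := by
  unfold hat
  apply continuous_finset_prod
  intro i _
  exact continuous_const.max (continuous_const.sub ((continuous_apply i).sub continuous_const).abs)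

theorem hat_ne_zero {ι : Type} [Fintype ι] (v : ι → ℤ) (x : ι → ℝ) (h : hat v x ≠ 0) :
    ∀ i, |x i - (v i : ℝ)| < 1 := by
  intro i
  by_contra hcon
  push Not at hcon
  apply h
  unfold hat
  apply Finset.prod_eq_zero (Finset.mem_univ i)
  rw [max_eq_left]
  linarith

private theorem m20_one (M : ℕ) (x : ℝ) (hx : |x| ≤ M) :
    ∑ k ∈ Finset.Icc (-(M : ℤ)) (M : ℤ), max 0 (1 - |x - (k : ℝ)|) = 1 := by
  have hx1 := (abs_le.mp hx).1
  have hx2 := (abs_le.mp hx).2
  set a : ℤ := ⌊x⌋ with ha
  have ha1 : (a : ℝ) ≤ x := Int.floor_le x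
  have ha2 : x < a + 1 := Int.lt_floor_add_one x
  have haM : a ≤ M := by
    have : (a : ℝ) ≤ M := ha1.trans hx2
    exact_mod_cast this
  have haM' : -(M : ℤ) ≤ a := by
    apply Int.le_floor.mpr
    push_cast
    exact hx1
  have hterm : ∀ k : ℤ, k ≠ a → k ≠ a + 1 → max 0 (1 - |x - (k : ℝ)|) = 0 := by
    intro k h1 h2
    apply max_eq_left
    rcases lt_or_gt_of_ne h1 with h | h
    · have h3 : (k : ℝ) + 1 ≤ a := by exact_mod_cast h
      have h4 : 1 ≤ x - k := by linarith
      have h5 := le_abs_self (x - (k : ℝ))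
      linarith
    · have h3' : a + 2 ≤ k := by omega
      have h3 : (a : ℝ) + 2 ≤ k := by exact_mod_cast h3'
      have h4 : 1 ≤ k - x := by linarith
      have h5 := neg_abs_le (x - (k : ℝ))
      linarith
  have hta : max 0 (1 - |x - (a : ℝ)|) = 1 - (x - a) := by
    rw [abs_of_nonneg (by linarith), max_eq_right (by linarith)]
  have hta1 : max 0 (1 - |x - ((a + 1 : ℤ) : ℝ)|) = x - a := by
    push_cast
    rw [abs_of_nonpos (by linarith), max_eq_right (by linarith)]
    ring
  rcases haM.lt_or_eq with h | h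
  · have hsub : ({a, a + 1} : Finset ℤ) ⊆ Finset.Icc (-(M : ℤ)) (M : ℤ) := by
      intro k hk
      rw [Finset.mem_insert, Finset.mem_singleton] at hk
      rw [Finset.mem_Icc]
      omega
    rw [← Finset.sum_subset hsub]
    · rw [Finset.sum_pair (by omega), hta, hta1]
      ring
    · intro k _ hk
      rw [Finset.mem_insert, Finset.mem_singleton, not_or] at hk
      exact hterm k hk.1 hk.2
  · have hxa : x = a := by
      have h1 : (a : ℝ) = M := by rw [h]; push_cast; rfl
      linarith
    rw [Finset.sum_eq_single a]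
    · rw [hta, hxa]; ring
    · intro k hk hka
      rw [Finset.mem_Icc] at hk
      exact hterm k hka (by omega)
    · intro h1
      exact absurd (Finset.mem_Icc.mpr ⟨haM', haM⟩) h1

theorem hat_sum {ι : Type} [Fintype ι] [DecidableEq ι] (M : ℕ) (x : ι → ℝ)
    (hx : ∀ i, |x i| ≤ M) : ∑ v ∈ box ι M, hat v x = 1 := by
  unfold box hat
  rw [← Finset.prod_univ_sum (fun _ : ι => Finset.Icc (-(M : ℤ)) (M : ℤ))
    (fun i k => max 0 (1 - |x i - (k : ℝ)|))]
  apply Finset.prod_eq_one
  intro i _
  exact m20_one M (x i) (hx i)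

end Pool.Agent.TSP92
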