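import Pool.Agent.Helper92.TSP.Defs
import Pool.Agent.Helper92.TSP.M00
import Pool.Agent.Helper92.TSP.M05

/-! Greedy stars: few labels up to a small exceptional set. -/

set_option autoImplicit false

namespace Pool.Agent.TSP92

open Finset

private theorem few_labels {ι : Type} [Fintype ι] [DecidableEq ι] (t : ℕ) (ht : 2 ≤ t)
    (hι : Fintype.card ι = t ^ 10) (lab : (ι → ℤ) → ℕ)
    (H : ∀ P : Finset (ι → ℤ),
      Reach d2 (Vf ι (20 * (2 * t ^ 17)) : Set (ι → ℤ)) 0 (P : Set (ι → ℤ))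
        (21 * (2 * (t : ℝ) ^ 17)) → (P.image lab).card < t ^ 11)
    (y : ι → ℤ) (hy : d2 y 0 ≤ 9 * (2 * (t : ℝ) ^ 17)) (s : Finset (ι → ℤ))
    (hs : ∀ v ∈ s, d2 v y ≤ 2 * (t : ℝ) ^ 14) (hcard : s.card ≤ t ^ 3) :
    (s.biUnion (Lam lab)).card < t ^ 11 := by
  classical
  by_contra hcon
  push Not at hcon
  obtain ⟨T, hT, hTc⟩ := Finset.exists_subset_card_eq hcon
  have hch : ∀ B : ℕ, ∃ v p : ι → ℤ, B ∈ T → v ∈ s ∧ p ∈ nbh v ∧ lab p = B := by
    intro B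
    by_cases hB : B ∈ T
    · obtain ⟨v, hv, hB'⟩ := Finset.mem_biUnion.mp (hT hB)
      unfold Lam at hB'
      obtain ⟨p, hp, hpB⟩ := Finset.mem_image.mp hB'
      exact ⟨v, p, fun _ => ⟨hv, hp, hpB⟩⟩
    · exact ⟨0, 0, fun h => absurd h hB⟩
  choose v p hvp using hch
  have hT2 : (2 : ℝ) ≤ t := by exact_mod_cast ht
  have hT0 : (0 : ℝ) ≤ t := by linarith
  have hmet := d2_isMet (ι := ι)
  have h00 : ∀ x : ι → ℤ, d2 x x = 0 := fun x => (hmet.zero x x).mpr rfl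
  have hsq : Real.sqrt (Fintype.card ι) = (t : ℝ) ^ 5 := by
    rw [hι]
    push_cast
    rw [show (t : ℝ) ^ 10 = ((t : ℝ) ^ 5) ^ 2 by ring, Real.sqrt_sq (by positivity)]
  -- comparisons of powers
  have hp14 : (t : ℝ) ^ 14 ≤ (t : ℝ) ^ 17 := pow_le_pow_right₀ (by linarith) (by norm_num)
  have hp5 : (t : ℝ) ^ 5 ≤ (t : ℝ) ^ 17 := pow_le_pow_right₀ (by linarith) (by norm_num)
  have hp17 : (0 : ℝ) ≤ (t : ℝ) ^ 17 := by positivity
  have hV : ∀ x : ι → ℤ, d2 x 0 ≤ 20 * (2 * (t : ℝ) ^ 17) →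
      x ∈ (Vf ι (20 * (2 * t ^ 17)) : Set (ι → ℤ)) := by
    intro x hx
    rw [Finset.mem_coe, mem_Vf]
    push_cast
    exact hx
  have hyV : y ∈ (Vf ι (20 * (2 * t ^ 17)) : Set (ι → ℤ)) := hV y (by linarith)
  have hvV : ∀ x ∈ s, x ∈ (Vf ι (20 * (2 * t ^ 17)) : Set (ι → ℤ)) := by
    intro x hx
    apply hV
    have h1 := hmet.tri x y 0
    have h2 := hs x hx
    linarith
  have hpV : ∀ B ∈ T, p B ∈ (Vf ι (20 * (2 * t ^ 17)) : Set (ι → ℤ)) := by
    intro B hB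
    obtain ⟨h1, h2, h3⟩ := hvp B hB
    apply hV
    have h4 := nbh_dist (v B) (p B) h2
    rw [hsq] at h4
    have h5 := hmet.tri (p B) (v B) 0
    have h6 := hmet.tri (v B) y 0
    have h7 := hs _ h1
    linarith
  -- the star at a centre
  have hstar : ∀ x ∈ s, Reach d2 (Vf ι (20 * (2 * t ^ 17)) : Set (ι → ℤ)) y
      (insert x (⋃ B ∈ T.filter (fun B => v B = x), insert (p B) ∅))
      (2 * d2 y x + ∑ B ∈ T.filter (fun B => v B = x), (2 * d2 x (p B) + 0)) := by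
    intro x hx
    apply Reach.step hmet.symm (hvV x hx)
    apply Reach.biUnion (h00 x) (hvV x hx)
    intro B hB
    rw [Finset.mem_filter] at hB
    exact Reach.step hmet.symm (hpV B hB.1) (Reach.nil (h00 (p B)))
  have hall := Reach.biUnion (h00 y) hyV s _ _ hstar
  have h0 := Reach.step (x := (0 : ι → ℤ)) hmet.symm hyV hall
  have hfin := h0.mono (S' := ((T.image p : Finset (ι → ℤ)) : Set (ι → ℤ)))
    (c' := 21 * (2 * (t : ℝ) ^ 17)) ?_ ?_
  · have h1 := H _ hfin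
    have h2 : (T.image p).image lab = T := by
      rw [Finset.image_image]
      ext B
      rw [Finset.mem_image]
      constructor
      · rintro ⟨C, hC, rfl⟩
        have := (hvp C hC).2.2
        simp only [Function.comp_apply]
        rwa [this]
      · intro hB
        exact ⟨B, hB, (hvp B hB).2.2⟩
    rw [h2, hTc] at h1
    exact lt_irrefl _ h1
  · intro z hz
    rw [Finset.mem_coe, Finset.mem_image] at hz
    obtain ⟨B, hB, rfl⟩ := hz
    apply Set.mem_insert_of_mem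
    rw [Set.mem_iUnion₂]
    refine ⟨v B, (hvp B hB).1, Set.mem_insert_of_mem _ ?_⟩
    rw [Set.mem_iUnion₂]
    exact ⟨B, Finset.mem_filter.mpr ⟨hB, rfl⟩, Set.mem_insert _ _⟩
  · have h1 : ∀ x ∈ s, (2 * d2 y x + ∑ B ∈ T.filter (fun B => v B = x), (2 * d2 x (p B) + 0)) ≤
        4 * (t : ℝ) ^ 14 + ((T.filter (fun B => v B = x)).card : ℝ) * (2 * (t : ℝ) ^ 5) := by
      intro x hx
      have h2 := hs x hx
      rw [hmet.symm] at h2
      have h3 : ∑ B ∈ T.filter (fun B => v B = x), (2 * d2 x (p B) + 0) ≤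
          ((T.filter (fun B => v B = x)).card : ℝ) * (2 * (t : ℝ) ^ 5) := by
        rw [← nsmul_eq_mul]
        apply Finset.sum_le_card_nsmul
        intro B hB
        rw [Finset.mem_filter] at hB
        have h4 := nbh_dist (v B) (p B) (hvp B hB.1).2.1
        rw [hsq, hmet.symm, hB.2] at h4
        linarith
      linarith
    have h2 : ∑ x ∈ s, (2 * d2 y x + ∑ B ∈ T.filter (fun B => v B = x), (2 * d2 x (p B) + 0)) ≤
        (s.card : ℝ) * (4 * (t : ℝ) ^ 14) + (T.card : ℝ) * (2 * (t : ℝ) ^ 5) := by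
      refine (Finset.sum_le_sum h1).trans ?_
      rw [Finset.sum_add_distrib, Finset.sum_const, nsmul_eq_mul, ← Finset.sum_mul,
        ← Nat.cast_sum]
      have h3 : ∑ x ∈ s, (T.filter (fun B => v B = x)).card = T.card := by
        rw [← Finset.card_eq_sum_card_fiberwise]
        intro B hB
        exact (hvp B hB).1
      rw [h3]
    have h3 : (s.card : ℝ) ≤ (t : ℝ) ^ 3 := by exact_mod_cast hcard
    have h4 : (T.card : ℝ) = (t : ℝ) ^ 11 := by rw [hTc]; push_cast; rfl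
    have h5 : (s.card : ℝ) * (4 * (t : ℝ) ^ 14) ≤ 4 * (t : ℝ) ^ 17 := by
      calc (s.card : ℝ) * (4 * (t : ℝ) ^ 14) ≤ (t : ℝ) ^ 3 * (4 * (t : ℝ) ^ 14) := by gcongr
        _ = 4 * (t : ℝ) ^ 17 := by ring
    have h6 : (T.card : ℝ) * (2 * (t : ℝ) ^ 5) ≤ 2 * (t : ℝ) ^ 17 := by
      rw [h4]
      calc (t : ℝ) ^ 11 * (2 * (t : ℝ) ^ 5) = 2 * (t : ℝ) ^ 16 := by ring
        _ ≤ 2 * (t : ℝ) ^ 17 := by
          have : (t : ℝ) ^ 16 ≤ (t : ℝ) ^ 17 := pow_le_pow_right₀ (by linarith) (by norm_num)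
          linarith
    have h7 : d2 0 y = d2 y 0 := hmet.symm _ _
    rw [h7]
    linarith

theorem greedy {ι : Type} [Fintype ι] [DecidableEq ι] (t : ℕ) (ht : 2 ≤ t)
    (hι : Fintype.card ι = t ^ 10) (lab : (ι → ℤ) → ℕ)
    (H : ∀ P : Finset (ι → ℤ),
      Reach d2 (Vf ι (20 * (2 * t ^ 17)) : Set (ι → ℤ)) 0 (P : Set (ι → ℤ))
        (21 * (2 * (t : ℝ) ^ 17)) → (P.image lab).card < t ^ 11)
    (y : ι → ℤ) (hy : d2 y 0 ≤ 9 * (2 * (t : ℝ) ^ 17)) :
    ∃ U : Finset ℕ, U.card < t ^ 11 ∧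
      ∀ v : ι → ℤ, d2 v y ≤ 2 * (t : ℝ) ^ 14 →
        (Lam lab v \ U).card < t ^ 8 ∧ (Lam lab v).card < t ^ 11 := by
  classical
  have hfew := few_labels t ht hι lab H y hy
  have key : ∃ m, (∃ s : Finset (ι → ℤ), (∀ v ∈ s, d2 v y ≤ 2 * (t : ℝ) ^ 14) ∧ s.card ≤ m ∧
      m * t ^ 8 ≤ (s.biUnion (Lam lab)).card) ∧ m < t ^ 3 ∧
      ¬ (∃ s : Finset (ι → ℤ), (∀ v ∈ s, d2 v y ≤ 2 * (t : ℝ) ^ 14) ∧ s.card ≤ m + 1 ∧
      (m + 1) * t ^ 8 ≤ (s.biUnion (Lam lab)).card) := by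
    by_contra hcon
    push Not at hcon
    have hall : ∀ m, m ≤ t ^ 3 → ∃ s : Finset (ι → ℤ), (∀ v ∈ s, d2 v y ≤ 2 * (t : ℝ) ^ 14) ∧
        s.card ≤ m ∧ m * t ^ 8 ≤ (s.biUnion (Lam lab)).card := by
      intro m
      induction m with
      | zero => intro _; exact ⟨∅, by simp, by simp, by simp⟩
      | succ m ih =>
        intro hm
        obtain ⟨s, h1, h2, h3⟩ := ih (by omega)
        exact hcon m ⟨s, h1, h2, h3⟩ (by omega)
    obtain ⟨s, h1, h2, h3⟩ := hall (t ^ 3) le_rfl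
    have h4 := hfew s h1 h2
    have h5 : t ^ 3 * t ^ 8 = t ^ 11 := by ring
    omega
  obtain ⟨m, ⟨s, h1, h2, h3⟩, hm, hmax⟩ := key
  refine ⟨s.biUnion (Lam lab), hfew s h1 (by omega), fun v hv => ⟨?_, ?_⟩⟩
  · by_contra hcon
    push Not at hcon
    apply hmax
    refine ⟨insert v s, ?_, ?_, ?_⟩
    · intro w hw
      rcases Finset.mem_insert.mp hw with rfl | hw
      · exact hv
      · exact h1 w hw
    · exact (Finset.card_insert_le _ _).trans (by omega)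
    · rw [Finset.biUnion_insert, Finset.union_comm, ← Finset.union_sdiff_self_eq_union,
        Finset.card_union_of_disjoint Finset.disjoint_sdiff]
      have : (m + 1) * t ^ 8 = m * t ^ 8 + t ^ 8 := by ring
      omega
  · have h4 := hfew {v} (by simpa using hv) (by
      rw [Finset.card_singleton]
      exact Nat.one_le_pow _ _ (by omega))
    simpa using h4

end Pool.Agent.TSP92
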