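import Pool.Agent.Helper92.TSP.Defs

/-! Sequential selection. -/

set_option autoImplicit false

namespace Pool.Agent.TSP92

open Finset

private theorem m22_swap {Z : Type} (Zs : Finset Z) (μ : Z → ℝ) (U : Z → Finset ℕ)
    (C : Finset ℕ) :
    ∑ z ∈ Zs, μ z * ((C \ U z).card : ℝ)
      = ∑ B ∈ C, (∑ z ∈ Zs, μ z - ∑ z ∈ Zs, if B ∈ U z then μ z else 0) := by
  classical
  have h1 : ∀ z ∈ Zs, μ z * ((C \ U z).card : ℝ) = ∑ B ∈ C, (μ z - if B ∈ U z then μ z else 0) := by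
    intro z _
    have h2 : ((C \ U z).card : ℝ) = ∑ B ∈ C, (if B ∈ U z then (0 : ℝ) else 1) := by
      rw [← Finset.filter_notMem_eq_sdiff, Finset.card_filter]
      push_cast
      apply Finset.sum_congr rfl
      intro B _
      split_ifs <;> simp_all
    rw [h2, Finset.mul_sum]
    apply Finset.sum_congr rfl
    intro B _
    split_ifs <;> simp
  rw [Finset.sum_congr rfl h1, Finset.sum_comm]
  apply Finset.sum_congr rfl
  intro B _
  rw [Finset.sum_sub_distrib]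

private theorem m22_exists {Z : Type} (Zs : Finset Z) (μ : Z → ℝ)
    (hμ : ∀ z ∈ Zs, 0 ≤ μ z) (hsum : ∑ z ∈ Zs, μ z = 1) (g : Z → ℝ) (c : ℝ)
    (h : ∑ z ∈ Zs, μ z * g z < c) : ∃ z ∈ Zs, μ z ≠ 0 ∧ g z < c := by
  by_contra hcon
  push Not at hcon
  have h1 : c ≤ ∑ z ∈ Zs, μ z * g z := by
    calc c = ∑ z ∈ Zs, μ z * c := by rw [← Finset.sum_mul, hsum, one_mul]
      _ ≤ ∑ z ∈ Zs, μ z * g z := by
        apply Finset.sum_le_sum
        intro z hz
        by_cases h0 : μ z = 0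
        · rw [h0, zero_mul, zero_mul]
        · exact mul_le_mul_of_nonneg_left (hcon z hz h0) (hμ z hz)
  linarith

theorem select_few (t : ℕ) (ht : 2 ≤ t) {Z : Type} (Zs : Finset Z) (μ : Z → ℝ)
    (hμ : ∀ z ∈ Zs, 0 ≤ μ z) (hsum : ∑ z ∈ Zs, μ z = 1) (U : Z → Finset ℕ) (r : ℕ)
    (C : Finset ℕ) (hC : C.card < t ^ r)
    (hh : ∀ B ∈ C, 1 - 1 / (t : ℝ) < ∑ z ∈ Zs, if B ∈ U z then μ z else 0) :
    ∃ f : Fin r → Z, (∀ i, f i ∈ Zs ∧ μ (f i) ≠ 0) ∧ ∀ B ∈ C, ∃ i, B ∈ U (f i) := by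
  classical
  induction r generalizing C with
  | zero =>
    rw [pow_zero] at hC
    have hC0 : C = ∅ := by
      rw [← Finset.card_eq_zero]; omega
    subst hC0
    exact ⟨Fin.elim0, fun i => i.elim0, fun B hB => absurd hB (Finset.notMem_empty B)⟩
  | succ r ih =>
    have htpos : (0 : ℝ) < t := by
      have : 0 < t := by omega
      exact_mod_cast this
    have h1 : ∑ z ∈ Zs, μ z * ((C \ U z).card : ℝ) < (t : ℝ) ^ r := by
      rw [m22_swap, hsum]
      have h2 : ∑ B ∈ C, ((1 : ℝ) - ∑ z ∈ Zs, if B ∈ U z then μ z else 0)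
          ≤ ∑ _B ∈ C, (1 / (t : ℝ)) := by
        apply Finset.sum_le_sum
        intro B hB
        have := hh B hB
        linarith
      refine lt_of_le_of_lt h2 ?_
      rw [Finset.sum_const, nsmul_eq_mul, mul_one_div, div_lt_iff₀ htpos, ← pow_succ]
      exact_mod_cast hC
    obtain ⟨z0, hz0, hμ0, hlt⟩ := m22_exists Zs μ hμ hsum _ _ h1
    have hlt' : (C \ U z0).card < t ^ r := by exact_mod_cast hlt
    obtain ⟨f, hf1, hf2⟩ := ih (C \ U z0) hlt' (fun B hB => hh B (Finset.mem_sdiff.mp hB).1)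
    refine ⟨Fin.cons z0 f, ?_, ?_⟩
    · intro i
      refine Fin.cases ?_ ?_ i
      · rw [Fin.cons_zero]; exact ⟨hz0, hμ0⟩
      · intro j; rw [Fin.cons_succ]; exact hf1 j
    · intro B hB
      by_cases hBU : B ∈ U z0
      · exact ⟨0, by rw [Fin.cons_zero]; exact hBU⟩
      · obtain ⟨i, hi⟩ := hf2 B (Finset.mem_sdiff.mpr ⟨hB, hBU⟩)
        exact ⟨i.succ, by rw [Fin.cons_succ]; exact hi⟩

theorem rare_few (t w : ℕ) (ht : 1 ≤ t) {Z : Type} (Zs : Finset Z) (μ : Z → ℝ)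
    (hμ : ∀ z ∈ Zs, 0 ≤ μ z) (hsum : ∑ z ∈ Zs, μ z = 1) (U : Z → Finset ℕ)
    (A : Finset ℕ) (hA : ∀ z ∈ Zs, μ z ≠ 0 → (A \ U z).card < w)
    (C : Finset ℕ) (hCA : C ⊆ A)
    (hh : ∀ B ∈ C, (∑ z ∈ Zs, if B ∈ U z then μ z else 0) ≤ 1 - 1 / (t : ℝ)) :
    C.card < t * w := by
  classical
  have htpos : (0 : ℝ) < t := by exact_mod_cast ht
  have h1 : (C.card : ℝ) * (1 / t) ≤ ∑ z ∈ Zs, μ z * ((C \ U z).card : ℝ) := by
    rw [m22_swap, hsum, ← nsmul_eq_mul, ← Finset.sum_const]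
    apply Finset.sum_le_sum
    intro B hB
    have := hh B hB
    linarith
  have h2 : ∑ z ∈ Zs, μ z * ((C \ U z).card : ℝ) ≤ ∑ z ∈ Zs, μ z * ((w : ℝ) - 1) := by
    apply Finset.sum_le_sum
    intro z hz
    by_cases h0 : μ z = 0
    · rw [h0, zero_mul, zero_mul]
    · apply mul_le_mul_of_nonneg_left _ (hμ z hz)
      have h3 : (C \ U z).card ≤ (A \ U z).card :=
        Finset.card_le_card (Finset.sdiff_subset_sdiff hCA (Finset.Subset.refl _))
      have h4 := hA z hz h0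
      have h5 : (C \ U z).card + 1 ≤ w := by omega
      have h6 : ((C \ U z).card : ℝ) + 1 ≤ w := by exact_mod_cast h5
      linarith
  rw [← Finset.sum_mul, hsum, one_mul] at h2
  have h3 : (C.card : ℝ) * (1 / t) < w := by linarith
  rw [mul_one_div, div_lt_iff₀ htpos] at h3
  have h4 : (C.card : ℝ) < ((t * w : ℕ) : ℝ) := by push_cast; linarith
  exact_mod_cast h4

end Pool.Agent.TSP92
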