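import Pool.Agent.Helper92.TSP.Defs
import Pool.Agent.Helper92.TSP.M00
import Pool.Agent.Helper92.TSP.M20

/-! The topological core. -/

set_option autoImplicit false

namespace Pool.Agent.TSP92

open Finset

/-- a weighted mean lies in the convex hull of the points with nonzero weight -/
private theorem mean_mem {n : Type} [Fintype n] {V : Type} (T : Finset V) (w : V → ℝ)
    (hw : ∀ v ∈ T, 0 ≤ w v) (hpos : 0 < ∑ v ∈ T, w v) (z : V → n → ℝ) (c : n → ℝ)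
    (hc : ∀ a, ∑ v ∈ T, w v * (z v a - c a) = 0) (S : Set (n → ℝ))
    (hS : ∀ v ∈ T, w v ≠ 0 → z v ∈ S) : c ∈ convexHull ℝ S := by
  classical
  have h1 : T.centerMass w z = c := by
    rw [Finset.centerMass]
    funext a
    rw [Pi.smul_apply, Finset.sum_apply]
    have h2 : ∑ v ∈ T, (w v • z v) a = (∑ v ∈ T, w v) * c a := by
      have h3 := hc a
      simp only [mul_sub, Finset.sum_sub_distrib] at h3
      rw [Finset.sum_mul]
      simp only [Pi.smul_apply, smul_eq_mul]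
      linarith
    rw [h2, smul_eq_mul, ← mul_assoc, inv_mul_cancel₀ hpos.ne', one_mul]
  rw [← h1, ← Finset.centerMass_filter_ne_zero]
  refine Finset.centerMass_mem_convexHull _ (fun v hv => hw v (mem_filter.1 hv).1) ?_ ?_
  · have : ∑ v ∈ T.filter (fun v => w v ≠ 0), w v = ∑ v ∈ T, w v := Finset.sum_filter_ne_zero T
    rw [this]
    exact hpos
  · intro v hv
    exact hS v (mem_filter.1 hv).1 (mem_filter.1 hv).2

/-- the sign condition for one lattice point -/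
private theorem sign_ge {n : Type} [Fintype n] (D : ℝ) (P x c : n → ℝ)
    (h1 : ∑ a, (P a - x a) ^ 2 ≤ 4 * D ^ 2) (h2 : ∑ a, (x a - c a) ^ 2 = (3 * D) ^ 2) :
    0 ≤ ∑ a, (P a - c a) * (x a - c a) := by
  have h3 : ∀ a, (x a - c a) ^ 2 - (3 / 4 * (P a - x a) ^ 2 + 1 / 3 * (x a - c a) ^ 2) ≤
      (P a - c a) * (x a - c a) := by
    intro a
    nlinarith [sq_nonneg (3 * (P a - x a) + 2 * (x a - c a))]
  have h4 := Finset.sum_le_sum fun a (_ : a ∈ (univ : Finset n)) => h3 a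
  rw [Finset.sum_sub_distrib, Finset.sum_add_distrib, ← Finset.mul_sum, ← Finset.mul_sum] at h4
  nlinarith [sq_nonneg D]

private theorem near_bound {n : Type} [Fintype n] (D : ℝ) (x c : n → ℝ)
    (h1 : ∑ a, (x a - c a) ^ 2 ≤ (3 * D) ^ 2) (h2 : ∑ a, c a ^ 2 ≤ D ^ 2) :
    ∑ a, x a ^ 2 ≤ 16 * D ^ 2 := by
  have h3 : ∀ a, x a ^ 2 ≤ 4 / 3 * (x a - c a) ^ 2 + 4 * c a ^ 2 := by
    intro a
    nlinarith [sq_nonneg (x a - c a - 3 * c a)]
  have h4 := Finset.sum_le_sum fun a (_ : a ∈ (univ : Finset n)) => h3 a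
  rw [Finset.sum_add_distrib, ← Finset.mul_sum, ← Finset.mul_sum] at h4
  nlinarith

theorem core {k l : ℕ} (hZ : ZeroLemma k l) (D : ℝ) (hD : 0 < D)
    (hcard : Real.sqrt ((k : ℝ) + l) ≤ D) (lab : ((Fin k ⊕ Fin l) → ℤ) → ℕ)
    (p : ℕ → ((Fin k ⊕ Fin l) → ℤ))
    (hp : ∀ v : (Fin k ⊕ Fin l) → ℤ, d2 v 0 ≤ 8 * D → d2 (p (lab v)) v ≤ D)
    (θ : ℕ → ((Fin k ⊕ Fin l) → ℝ) → ℝ) (hθc : ∀ B, Continuous (θ B))
    (hθ0 : ∀ B x, 0 ≤ θ B x)
    (s : Fin k → ℝ) (hs : ∑ a, s a ^ 2 ≤ D ^ 2) (y : Fin l → ℝ) (hy : ∑ b, y b ^ 2 ≤ D ^ 2) :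
    ∃ x : (Fin k ⊕ Fin l) → ℝ, ∑ i, x i ^ 2 ≤ (6 * D) ^ 2 ∧
      (s ∈ convexHull ℝ ((fun (B : ℕ) (a : Fin k) => ((p B (Sum.inl a) : ℤ) : ℝ)) ''
          {B : ℕ | (∃ v, hat v x ≠ 0 ∧ lab v = B) ∧ θ B x = 0}) ∨
       y ∈ convexHull ℝ ((fun (B : ℕ) (b : Fin l) => ((p B (Sum.inr b) : ℤ) : ℝ)) ''
          {B : ℕ | (∃ v, hat v x ≠ 0 ∧ lab v = B) ∧ 0 < θ B x})) := by
  classical
  obtain ⟨M, hM⟩ : ∃ M : ℕ, M = ⌈4 * D⌉₊ := ⟨_, rfl⟩
  have hM4 : 4 * D ≤ M := hM ▸ Nat.le_ceil _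
  have hkl : ((k : ℝ) + l) ≤ D ^ 2 := by
    have h0 : (0 : ℝ) ≤ (k : ℝ) + l := by positivity
    have := Real.sqrt_le_left hD.le |>.1 hcard
    exact this
  let T : Finset ((Fin k ⊕ Fin l) → ℤ) := box (Fin k ⊕ Fin l) M
  let G : ((Fin k ⊕ Fin l) → ℝ) → ((Fin k ⊕ Fin l) → ℝ) := fun x => Sum.elim
    (fun a => ∑ v ∈ T, hat v x * (((p (lab v) (Sum.inl a) : ℤ) : ℝ) - s a))
    (fun b => ∑ v ∈ T, hat v x * θ (lab v) x * (((p (lab v) (Sum.inr b) : ℤ) : ℝ) - y b))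
  have hGl : ∀ x a, G x (Sum.inl a) =
      ∑ v ∈ T, hat v x * (((p (lab v) (Sum.inl a) : ℤ) : ℝ) - s a) := fun x a => rfl
  have hGr : ∀ x b, G x (Sum.inr b) =
      ∑ v ∈ T, hat v x * θ (lab v) x * (((p (lab v) (Sum.inr b) : ℤ) : ℝ) - y b) :=
    fun x b => rfl
  have hGc : Continuous G := by
    refine continuous_pi fun i => ?_
    rcases i with a | b
    · simp only [hGl]
      exact continuous_finsetSum _ fun v _ => (hat_cont v).mul continuous_const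
    · simp only [hGr]
      exact continuous_finsetSum _ fun v _ => ((hat_cont v).mul (hθc _)).mul continuous_const
  -- bounds for a point of the product
  have hbd : ∀ x : (Fin k ⊕ Fin l) → ℝ, ∑ a, (x (Sum.inl a) - s a) ^ 2 ≤ (3 * D) ^ 2 →
      ∑ b, (x (Sum.inr b) - y b) ^ 2 ≤ (3 * D) ^ 2 →
      ∑ a, x (Sum.inl a) ^ 2 ≤ 16 * D ^ 2 ∧ ∑ b, x (Sum.inr b) ^ 2 ≤ 16 * D ^ 2 :=
    fun x h1 h2 => ⟨near_bound D _ s h1 hs, near_bound D _ y h2 hy⟩
  have hnear : ∀ x : (Fin k ⊕ Fin l) → ℝ, ∑ a, (x (Sum.inl a) - s a) ^ 2 ≤ (3 * D) ^ 2 →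
      ∑ b, (x (Sum.inr b) - y b) ^ 2 ≤ (3 * D) ^ 2 → ∀ v, hat v x ≠ 0 →
      ∑ i, (((p (lab v) i : ℤ) : ℝ) - x i) ^ 2 ≤ 4 * D ^ 2 := by
    intro x h1 h2 v hv
    obtain ⟨b1, b2⟩ := hbd x h1 h2
    have h3 := hat_ne_zero v x hv
    have h4 : ∑ i, ((v i : ℝ) - x i) ^ 2 ≤ D ^ 2 := by
      have h5 : ∀ i, ((v i : ℝ) - x i) ^ 2 ≤ 1 := by
        intro i
        have := h3 i
        rw [abs_lt] at this
        nlinarith
      have h6 := Finset.sum_le_sum fun i (_ : i ∈ (univ : Finset (Fin k ⊕ Fin l))) => h5 i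
      rw [Finset.sum_const, Finset.card_univ, Fintype.card_sum, Fintype.card_fin,
        Fintype.card_fin, nsmul_eq_mul, mul_one] at h6
      push_cast at h6
      linarith
    have h7 : ∑ i, x i ^ 2 ≤ 32 * D ^ 2 := by
      rw [Fintype.sum_sum_type]; linarith
    have h8 : d2 v 0 ≤ 8 * D := by
      rw [d2]
      refine Real.sqrt_le_iff.2 ⟨by positivity, ?_⟩
      have h9 : ∀ i, ((v i : ℝ) - ((0 : (Fin k ⊕ Fin l) → ℤ) i : ℝ)) ^ 2 ≤
          4 / 3 * x i ^ 2 + 4 * ((v i : ℝ) - x i) ^ 2 := by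
        intro i
        rw [Pi.zero_apply, Int.cast_zero, sub_zero]
        nlinarith [sq_nonneg (x i - 3 * ((v i : ℝ) - x i))]
      have h10 := Finset.sum_le_sum fun i (_ : i ∈ (univ : Finset (Fin k ⊕ Fin l))) => h9 i
      rw [Finset.sum_add_distrib, ← Finset.mul_sum, ← Finset.mul_sum] at h10
      nlinarith [sq_nonneg D]
    have h11 : ∑ i, (((p (lab v) i : ℤ) : ℝ) - (v i : ℝ)) ^ 2 ≤ D ^ 2 := by
      rw [← d2_sq]
      exact pow_le_pow_left₀ (d2_nonneg _ _) (hp v h8) 2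
    have h12 : ∀ i, (((p (lab v) i : ℤ) : ℝ) - x i) ^ 2 ≤
        2 * (((p (lab v) i : ℤ) : ℝ) - (v i : ℝ)) ^ 2 + 2 * ((v i : ℝ) - x i) ^ 2 := by
      intro i
      nlinarith [sq_nonneg ((((p (lab v) i : ℤ) : ℝ) - (v i : ℝ)) - ((v i : ℝ) - x i))]
    have h13 := Finset.sum_le_sum fun i (_ : i ∈ (univ : Finset (Fin k ⊕ Fin l))) => h12 i
    rw [Finset.sum_add_distrib, ← Finset.mul_sum, ← Finset.mul_sum] at h13
    linarith
  obtain ⟨x, hx1, hx2, hx0⟩ := hZ G (Sum.elim s y) (3 * D) (by positivity) hGc (by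
    intro x h1 h2
    simp only [Sum.elim_inl, Sum.elim_inr] at h1 h2 ⊢
    have h3 : ∑ a, G x (Sum.inl a) * (x (Sum.inl a) - s a) =
        ∑ v ∈ T, hat v x * ∑ a, (((p (lab v) (Sum.inl a) : ℤ) : ℝ) - s a) *
          (x (Sum.inl a) - s a) := by
      simp only [hGl, Finset.sum_mul, Finset.mul_sum]
      rw [Finset.sum_comm]
      refine Finset.sum_congr rfl fun v _ => Finset.sum_congr rfl fun a _ => by ring
    rw [h3]
    refine Finset.sum_nonneg fun v _ => ?_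
    by_cases hv : hat v x = 0
    · rw [hv, zero_mul]
    · refine mul_nonneg (hat_nonneg v x) (sign_ge D _ _ _ ?_ h1)
      have h4 := hnear x h1.le h2 v hv
      rw [Fintype.sum_sum_type] at h4
      have h5 : 0 ≤ ∑ b, (((p (lab v) (Sum.inr b) : ℤ) : ℝ) - x (Sum.inr b)) ^ 2 :=
        Finset.sum_nonneg fun _ _ => sq_nonneg _
      linarith) (by
    intro x h1 h2
    simp only [Sum.elim_inl, Sum.elim_inr] at h1 h2 ⊢
    have h3 : ∑ b, G x (Sum.inr b) * (x (Sum.inr b) - y b) =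
        ∑ v ∈ T, (hat v x * θ (lab v) x) * ∑ b, (((p (lab v) (Sum.inr b) : ℤ) : ℝ) - y b) *
          (x (Sum.inr b) - y b) := by
      simp only [hGr, Finset.sum_mul, Finset.mul_sum]
      rw [Finset.sum_comm]
      refine Finset.sum_congr rfl fun v _ => Finset.sum_congr rfl fun a _ => by ring
    rw [h3]
    refine Finset.sum_nonneg fun v _ => ?_
    by_cases hv : hat v x = 0
    · rw [hv, zero_mul, zero_mul]
    · refine mul_nonneg (mul_nonneg (hat_nonneg v x) (hθ0 _ _)) (sign_ge D _ _ _ ?_ h1)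
      have h4 := hnear x h2 h1.le v hv
      rw [Fintype.sum_sum_type] at h4
      have h5 : 0 ≤ ∑ a, (((p (lab v) (Sum.inl a) : ℤ) : ℝ) - x (Sum.inl a)) ^ 2 :=
        Finset.sum_nonneg fun _ _ => sq_nonneg _
      linarith)
  simp only [Sum.elim_inl, Sum.elim_inr] at hx1 hx2
  obtain ⟨b1, b2⟩ := hbd x hx1 hx2
  refine ⟨x, ?_, ?_⟩
  · rw [Fintype.sum_sum_type]
    nlinarith [sq_nonneg D]
  have hxM : ∀ i, |x i| ≤ M := by
    have h1 : ∀ i, x i ^ 2 ≤ 16 * D ^ 2 := by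
      intro i
      rcases i with a | b
      · exact (Finset.single_le_sum (f := fun a => x (Sum.inl a) ^ 2)
          (fun _ _ => sq_nonneg _) (Finset.mem_univ a)).trans b1
      · exact (Finset.single_le_sum (f := fun b => x (Sum.inr b) ^ 2)
          (fun _ _ => sq_nonneg _) (Finset.mem_univ b)).trans b2
    intro i
    refine le_trans ?_ hM4
    refine abs_le_of_sq_le_sq ?_ (by positivity)
    have := h1 i
    nlinarith
  have hsum := hat_sum M x hxM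
  have hl : ∀ a, ∑ v ∈ T, hat v x * (((p (lab v) (Sum.inl a) : ℤ) : ℝ) - s a) = 0 := by
    intro a
    rw [← hGl, hx0]; rfl
  have hr : ∀ b, ∑ v ∈ T, hat v x * θ (lab v) x * (((p (lab v) (Sum.inr b) : ℤ) : ℝ) - y b) = 0 := by
    intro b
    rw [← hGr, hx0]; rfl
  have hw0 : ∀ v ∈ T, 0 ≤ hat v x * θ (lab v) x := fun v _ =>
    mul_nonneg (hat_nonneg v x) (hθ0 _ _)
  rcases (Finset.sum_nonneg hw0).eq_or_lt with h0 | h0
  · left
    have h1 := (Finset.sum_eq_zero_iff_of_nonneg hw0).1 h0.symm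
    refine mean_mem T (fun v => hat v x) (fun v _ => hat_nonneg v x)
      (by rw [show (∑ v ∈ T, hat v x) = 1 from hsum]; exact one_pos)
      (fun v a => ((p (lab v) (Sum.inl a) : ℤ) : ℝ)) s hl _ ?_
    intro v hv hne
    refine ⟨lab v, ⟨⟨v, hne, rfl⟩, ?_⟩, rfl⟩
    exact (mul_eq_zero.1 (h1 v hv)).resolve_left hne
  · right
    refine mean_mem T (fun v => hat v x * θ (lab v) x) hw0 h0
      (fun v b => ((p (lab v) (Sum.inr b) : ℤ) : ℝ)) y hr _ ?_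
    intro v hv hne
    have h2 := (mul_ne_zero_iff.1 hne)
    exact ⟨lab v, ⟨⟨v, h2.1, rfl⟩, lt_of_le_of_ne (hθ0 _ _) (Ne.symm h2.2)⟩, rfl⟩

end Pool.Agent.TSP92
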