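import Pool.Agent.Helper92.TSP.Defs

/-! Volume of a simplex with short edges. -/

set_option autoImplicit false

namespace Pool.Agent.TSP92

open Finset

/-- Hadamard's inequality for the columns of a real square matrix. -/
theorem m24_hadamard (n : ℕ) (A : Matrix (Fin n) (Fin n) ℝ) (ρ : ℝ) (hρ : 0 ≤ ρ)
    (h : ∀ j, ∑ i, (A i j) ^ 2 ≤ ρ ^ 2) : |A.det| ≤ ρ ^ n := by
  have : Fact (Module.finrank ℝ (EuclideanSpace ℝ (Fin n)) = n) :=
    ⟨by rw [finrank_euclideanSpace, Fintype.card_fin]⟩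
  let b := EuclideanSpace.basisFun (Fin n) ℝ
  let o := b.toBasis.orientation
  let v : Fin n → EuclideanSpace ℝ (Fin n) := fun j => WithLp.toLp 2 (fun i => A i j)
  have h1 : |o.volumeForm v| = |b.toBasis.det v| := o.volumeForm_robust' b v
  have h2 : b.toBasis.det v = A.det := by
    rw [Module.Basis.det_apply]
    congr 1
  have h3 := o.abs_volumeForm_apply_le v
  rw [h1, h2] at h3
  refine h3.trans ?_
  calc ∏ i : Fin n, ‖v i‖ ≤ ∏ i : Fin n, ρ := by
        refine Finset.prod_le_prod (fun i _ => norm_nonneg _) (fun j _ => ?_)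
        rw [EuclideanSpace.norm_eq]
        refine Real.sqrt_le_iff.2 ⟨hρ, ?_⟩
        simpa [v] using h j
    _ = ρ ^ n := by simp

theorem m24_vol_l1 (n : ℕ) (hn : 0 < n) :
    MeasureTheory.volume {x : Fin n → ℝ | ∑ i, |x i| ≤ 1} =
      ENNReal.ofReal (2 ^ n / n.factorial) := by
  have : Nonempty (Fin n) := ⟨⟨0, hn⟩⟩
  have := MeasureTheory.volume_sum_rpow_le (ι := Fin n) (p := 1) le_rfl 1
  simp only [Real.rpow_one, div_one, ENNReal.ofReal_one, one_pow, one_mul, Fintype.card_fin] at this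
  rw [this]
  congr 2
  · rw [show (1 : ℝ) + 1 = ((1 : ℕ) : ℝ) + 1 by norm_num, Real.Gamma_nat_eq_factorial]
    simp
  · rw [Real.Gamma_nat_eq_factorial]

theorem simplex_vol (n : ℕ) (P : Finset (Fin n → ℝ)) (hP : P.card ≤ n + 1) (ρ : ℝ)
    (hρ : 0 ≤ ρ) (h : ∀ a ∈ P, ∀ b ∈ P, ∑ i, (a i - b i) ^ 2 ≤ ρ ^ 2) :
    MeasureTheory.volume (convexHull ℝ (P : Set (Fin n → ℝ))) ≤
      ENNReal.ofReal ((2 * ρ) ^ n / n.factorial) := by
  classical
  rcases Nat.eq_zero_or_pos n with rfl | hn
  · refine (MeasureTheory.measure_mono (Set.subset_univ _)).trans ?_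
    have h1 : MeasureTheory.volume (Set.univ : Set (Fin 0 → ℝ)) = 1 := by
      rw [← Set.pi_univ (Set.univ : Set (Fin 0)), MeasureTheory.volume_pi_pi]
      simp
    rw [h1]
    simp
  rcases P.eq_empty_or_nonempty with rfl | hne
  · simp
  -- a surjection from `Fin (n+1)` onto `P`
  obtain ⟨p, hp⟩ : ∃ p : Fin (n + 1) → (Fin n → ℝ), Set.range p = (P : Set (Fin n → ℝ)) := by
    have : Nonempty {x // x ∈ P} := ⟨⟨hne.choose, hne.choose_spec⟩⟩
    have hcard : Fintype.card {x // x ∈ P} ≤ Fintype.card (Fin (n + 1)) := by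
      simpa using hP
    obtain ⟨f⟩ := Function.Embedding.nonempty_of_card_le hcard
    refine ⟨fun i => (Function.invFun f i : {x // x ∈ P}).1, ?_⟩
    ext x
    constructor
    · rintro ⟨i, rfl⟩
      exact (Function.invFun f i).2
    · intro hx
      refine ⟨f ⟨x, hx⟩, ?_⟩
      simp only
      rw [Function.leftInverse_invFun f.injective]
  have hpm : ∀ i, p i ∈ P := fun i => by
    have : p i ∈ (P : Set (Fin n → ℝ)) := hp ▸ Set.mem_range_self i
    exact this
  let A : Matrix (Fin n) (Fin n) ℝ := Matrix.of fun i j => p j.succ i - p 0 i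
  have hsub : convexHull ℝ (P : Set (Fin n → ℝ)) ⊆
      (fun x => p 0 + x) '' (Matrix.toLin' A '' {x : Fin n → ℝ | ∑ i, |x i| ≤ 1}) := by
    have hball : Convex ℝ {x : Fin n → ℝ | ∑ i, |x i| ≤ 1} := by
      intro x hx y hy a b ha hb hab
      simp only [Set.mem_ofPred_eq] at hx hy ⊢
      calc ∑ i, |(a • x + b • y) i| ≤ ∑ i, (a * |x i| + b * |y i|) := by
            refine Finset.sum_le_sum (fun i _ => ?_)
            simp only [Pi.add_apply, Pi.smul_apply, smul_eq_mul]
            refine (abs_add_le _ _).trans ?_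
            rw [abs_mul, abs_mul, abs_of_nonneg ha, abs_of_nonneg hb]
        _ = a * ∑ i, |x i| + b * ∑ i, |y i| := by
            rw [Finset.sum_add_distrib, ← Finset.mul_sum, ← Finset.mul_sum]
        _ ≤ a * 1 + b * 1 := by gcongr
        _ = 1 := by rw [mul_one, mul_one, hab]
    refine convexHull_min ?_ ((hball.linear_image (Matrix.toLin' A)).translate (p 0))
    rw [← hp]
    rintro _ ⟨i, rfl⟩
    refine Fin.cases ?_ (fun j => ?_) i
    · refine ⟨0, ⟨0, ?_, map_zero _⟩, ?_⟩
      · simp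
      · simp
    · refine ⟨Matrix.toLin' A (Pi.single j 1), ⟨Pi.single j 1, ?_, rfl⟩, ?_⟩
      · simp only [Set.mem_ofPred_eq]
        rw [Finset.sum_eq_single j]
        · simp
        · intro k _ hk
          simp [hk]
        · simp
      · ext i
        simp [A, Matrix.mulVec_single]
  refine (MeasureTheory.measure_mono hsub).trans ?_
  rw [Set.image_add_left, MeasureTheory.measure_preimage_add,
    MeasureTheory.Measure.addHaar_image_linearMap, m24_vol_l1 n hn, LinearMap.det_toLin',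
    ← ENNReal.ofReal_mul (abs_nonneg _)]
  refine ENNReal.ofReal_le_ofReal ?_
  rw [mul_pow, mul_comm ((2 : ℝ) ^ n), mul_div_assoc]
  refine mul_le_mul_of_nonneg_right (m24_hadamard n A ρ hρ ?_) (by positivity)
  intro j
  simpa [A] using h _ (hpm j.succ) _ (hpm 0)

end Pool.Agent.TSP92
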