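import Pool.Agent.Helper92.TSP.Defs

/-! Null hulls and generic points. -/

set_option autoImplicit false

namespace Pool.Agent.TSP92

open Finset

theorem null_hull (n : ℕ) (P : Finset (Fin n → ℝ)) (hP : P.card ≤ n) :
    MeasureTheory.volume (convexHull ℝ (P : Set (Fin n → ℝ))) = 0 := by
  classical
  rcases P.eq_empty_or_nonempty with rfl | hne
  · simp
  obtain ⟨m, hm⟩ : ∃ m, P.card = m + 1 := ⟨P.card - 1, by
    have := hne.card_pos; omega⟩
  have hspan : affineSpan ℝ (P : Set (Fin n → ℝ)) ≠ ⊤ := by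
    intro htop
    have h1 : Module.finrank ℝ (vectorSpan ℝ ((P.image id : Finset (Fin n → ℝ)) : Set (Fin n → ℝ))) ≤ m :=
      finrank_vectorSpan_image_finset_le ℝ id P hm
    rw [Finset.image_id] at h1
    have h2 : vectorSpan ℝ (P : Set (Fin n → ℝ)) = ⊤ := by
      rw [← direction_affineSpan, htop, AffineSubspace.direction_top]
    rw [h2, finrank_top, Module.finrank_fintype_fun_eq_card, Fintype.card_fin] at h1
    omega
  refine MeasureTheory.measure_mono_null (convexHull_subset_affineSpan _) ?_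
  exact MeasureTheory.Measure.addHaar_affineSubspace _ _ hspan

theorem generic (n : ℕ) (Ps : Finset (Finset (Fin n → ℝ))) (h : ∀ P ∈ Ps, P.card ≤ n)
    (ρ : ℝ) (hρ : 0 < ρ) :
    ∃ s : Fin n → ℝ, ∑ i, s i ^ 2 ≤ ρ ^ 2 ∧
      ∀ P ∈ Ps, s ∉ convexHull ℝ (P : Set (Fin n → ℝ)) := by
  classical
  have hopen : IsOpen {s : Fin n → ℝ | ∑ i, s i ^ 2 < ρ ^ 2} :=
    isOpen_lt (by fun_prop) continuous_const
  have hpos : 0 < MeasureTheory.volume {s : Fin n → ℝ | ∑ i, s i ^ 2 < ρ ^ 2} := by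
    refine hopen.measure_pos _ ⟨0, ?_⟩
    simp only [Set.mem_ofPred_eq, Pi.zero_apply]
    simp
    positivity
  have hnull : MeasureTheory.volume (⋃ P ∈ Ps, convexHull ℝ (P : Set (Fin n → ℝ))) = 0 := by
    refine (MeasureTheory.measure_biUnion_null_iff (s := fun P : Finset (Fin n → ℝ) =>
      convexHull ℝ (P : Set (Fin n → ℝ))) Ps.countable_toSet).2 ?_
    intro P hP
    exact null_hull n P (h P hP)
  by_contra hcon
  push Not at hcon
  have hsub : {s : Fin n → ℝ | ∑ i, s i ^ 2 < ρ ^ 2} ⊆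
      ⋃ P ∈ Ps, convexHull ℝ (P : Set (Fin n → ℝ)) := by
    intro s hs
    obtain ⟨P, hP, hsP⟩ := hcon s (le_of_lt hs)
    simp only [Set.mem_iUnion]
    exact ⟨P, hP, hsP⟩
  have := MeasureTheory.measure_mono_null hsub hnull
  rw [this] at hpos
  exact lt_irrefl _ hpos

end Pool.Agent.TSP92
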