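import Pool.Agent.Helper92.TSP.Defs
import Pool.Agent.Helper92.TSP.M24
import Pool.Agent.Helper92.TSP.M25

/-! Union bound for the volume of the cube. -/

set_option autoImplicit false

namespace Pool.Agent.TSP92

open Finset

open MeasureTheory in
theorem cover_vol {ι : Type} [Fintype ι] [DecidableEq ι] (n r b : ℕ) (A : Finset (ι → ℤ))
    (U : (ι → ℤ) → Finset ℕ) (hU : ∀ z, (U z).card ≤ b) (pt : ℕ → (Fin n → ℝ)) (ρ a : ℝ)
    (hρ : 0 ≤ ρ) (ha : 0 ≤ a)
    (hcov : ∀ y : Fin n → ℝ, (∀ i, |y i| ≤ a) → ∃ z : Fin (r + 1) → (ι → ℤ), z 0 ∈ A ∧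
      (∀ i c, |z i c - z 0 c| ≤ 1) ∧ ∃ T : Finset ℕ, (∀ B ∈ T, ∃ i, B ∈ U (z i)) ∧
      T.card ≤ n + 1 ∧ (∀ B ∈ T, ∀ B' ∈ T, ∑ c, (pt B c - pt B' c) ^ 2 ≤ ρ ^ 2) ∧
      y ∈ convexHull ℝ (pt '' (T : Set ℕ))) :
    (2 * a) ^ n ≤ (A.card : ℝ) * 3 ^ (r * Fintype.card ι) *
      (((r + 1) * b).choose (n + 1) : ℝ) * ((2 * ρ) ^ n / n.factorial) := by
  classical
  set v : ℝ := (2 * ρ) ^ n / n.factorial with hv
  have hv0 : 0 ≤ v := by positivity
  -- the index set
  let Z : Finset (Fin (r + 1) → ι → ℤ) :=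
    (A ×ˢ Fintype.piFinset (fun _ : Fin r => Fintype.piFinset
      (fun _ : ι => Finset.Icc (-1 : ℤ) 1))).image
      (fun p => Fin.cons p.1 (fun i => p.1 + p.2 i))
  have hZmem : ∀ z : Fin (r + 1) → ι → ℤ, z 0 ∈ A → (∀ i c, |z i c - z 0 c| ≤ 1) → z ∈ Z := by
    intro z h0 h1
    refine Finset.mem_image.2 ⟨(z 0, fun i => z i.succ - z 0), ?_, ?_⟩
    · rw [Finset.mem_product]
      refine ⟨h0, ?_⟩
      rw [Fintype.mem_piFinset]
      intro i
      rw [Fintype.mem_piFinset]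
      intro c
      rw [Finset.mem_Icc]
      have := abs_le.1 (h1 i.succ c)
      exact this
    · funext i
      refine Fin.cases ?_ (fun i => ?_) i
      · simp
      · simp
  have hZcard : Z.card ≤ A.card * 3 ^ (r * Fintype.card ι) := by
    refine Finset.card_image_le.trans ?_
    rw [Finset.card_product, Fintype.card_piFinset]
    refine Nat.mul_le_mul_left _ ?_
    simp only [Fintype.card_piFinset, Int.card_Icc, Finset.prod_const, Finset.card_univ,
      Fintype.card_fin]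
    have h3 : ((1 : ℤ) + 1 - -1).toNat = 3 := rfl
    rw [h3, ← pow_mul, mul_comm (Fintype.card ι) r]
  let W : (Fin (r + 1) → ι → ℤ) → Finset ℕ := fun z => Finset.univ.biUnion (fun i => U (z i))
  have hW : ∀ z, (W z).card ≤ (r + 1) * b := by
    intro z
    refine Finset.card_biUnion_le.trans ?_
    refine (Finset.sum_le_sum fun i _ => hU (z i)).trans ?_
    simp
  let P : Finset ℕ → Prop := fun T => T.card ≤ n + 1 ∧
    ∀ B ∈ T, ∀ B' ∈ T, ∑ c, (pt B c - pt B' c) ^ 2 ≤ ρ ^ 2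
  -- volume of a hull
  have hvol : ∀ T : Finset ℕ, P T → volume (convexHull ℝ (pt '' (T : Set ℕ)))
      ≤ if T.card = n + 1 then ENNReal.ofReal v else 0 := by
    intro T hT
    have himg : (pt '' (T : Set ℕ)) = ((T.image pt : Finset (Fin n → ℝ)) : Set (Fin n → ℝ)) := by
      rw [Finset.coe_image]
    rw [himg]
    split_ifs with hc
    · refine simplex_vol n (T.image pt) (Finset.card_image_le.trans hT.1) ρ hρ ?_
      intro x hx y hy
      obtain ⟨B, hB, rfl⟩ := Finset.mem_image.1 hx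
      obtain ⟨B', hB', rfl⟩ := Finset.mem_image.1 hy
      exact hT.2 B hB B' hB'
    · rw [null_hull n (T.image pt)]
      have h1 := hT.1
      exact Finset.card_image_le.trans (by omega)
  -- the cube
  let Q : Set (Fin n → ℝ) := Set.Icc (fun _ => -a) (fun _ => a)
  have hQvol : volume Q = ENNReal.ofReal ((2 * a) ^ n) := by
    change volume (Set.Icc (fun _ => -a) (fun _ => a) : Set (Fin n → ℝ)) = _
    rw [Real.volume_Icc_pi, Finset.prod_const, Finset.card_univ, Fintype.card_fin,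
      ← ENNReal.ofReal_pow (by linarith)]
    congr 2
    ring
  have hQsub : Q ⊆ ⋃ z ∈ Z, ⋃ T ∈ (W z).powerset.filter P, convexHull ℝ (pt '' (T : Set ℕ)) := by
    intro y hy
    have hy' : ∀ i, |y i| ≤ a := fun i => abs_le.2 ⟨hy.1 i, hy.2 i⟩
    obtain ⟨z, hz0, hz1, T, hT1, hT2, hT3, hT4⟩ := hcov y hy'
    rw [Set.mem_iUnion₂]
    refine ⟨z, hZmem z hz0 hz1, ?_⟩
    rw [Set.mem_iUnion₂]
    refine ⟨T, ?_, hT4⟩
    rw [Finset.mem_filter, Finset.mem_powerset]
    refine ⟨?_, hT2, hT3⟩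
    intro B hB
    obtain ⟨i, hi⟩ := hT1 B hB
    exact Finset.mem_biUnion.2 ⟨i, Finset.mem_univ _, hi⟩
  have hle : volume Q ≤ ∑ z ∈ Z, (((r + 1) * b).choose (n + 1) : ENNReal) * ENNReal.ofReal v := by
    refine (measure_mono hQsub).trans ?_
    refine (measure_biUnion_finset_le _ _).trans ?_
    refine Finset.sum_le_sum fun z _ => ?_
    refine (measure_biUnion_finset_le _ _).trans ?_
    calc ∑ T ∈ (W z).powerset.filter P, volume (convexHull ℝ (pt '' (T : Set ℕ)))
        ≤ ∑ T ∈ (W z).powerset.filter P, (if T.card = n + 1 then ENNReal.ofReal v else 0) := by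
          refine Finset.sum_le_sum fun T hT => hvol T ?_
          exact (Finset.mem_filter.1 hT).2
      _ ≤ ∑ T ∈ (W z).powerset, (if T.card = n + 1 then ENNReal.ofReal v else 0) :=
          Finset.sum_le_sum_of_subset (Finset.filter_subset _ _)
      _ = ((W z).card.choose (n + 1) : ENNReal) * ENNReal.ofReal v := by
          rw [← Finset.sum_filter, ← Finset.powersetCard_eq_filter, Finset.sum_const,
            Finset.card_powersetCard, nsmul_eq_mul]
      _ ≤ (((r + 1) * b).choose (n + 1) : ENNReal) * ENNReal.ofReal v := by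
          gcongr
          exact hW z
  rw [hQvol, Finset.sum_const, nsmul_eq_mul] at hle
  have hfin : ENNReal.ofReal ((2 * a) ^ n) ≤ ENNReal.ofReal ((Z.card : ℝ) *
      ((((r + 1) * b).choose (n + 1) : ℝ) * v)) := by
    rw [ENNReal.ofReal_mul (by positivity), ENNReal.ofReal_mul (by positivity),
      ENNReal.ofReal_natCast, ENNReal.ofReal_natCast]
    exact hle
  rw [ENNReal.ofReal_le_ofReal_iff (by positivity)] at hfin
  refine hfin.trans ?_
  have hZc : (Z.card : ℝ) ≤ (A.card : ℝ) * 3 ^ (r * Fintype.card ι) := by exact_mod_cast hZcard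
  calc (Z.card : ℝ) * ((((r + 1) * b).choose (n + 1) : ℝ) * v)
      ≤ ((A.card : ℝ) * 3 ^ (r * Fintype.card ι)) *
        ((((r + 1) * b).choose (n + 1) : ℝ) * v) := by gcongr
    _ = _ := by ring

end Pool.Agent.TSP92
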