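import Pool.Agent.Helper92.TSP.Defs

/-! The final numerical inequality of part III. -/

set_option autoImplicit false

namespace Pool.Agent.TSP92

open Finset

private lemma fact_lower (n : ℕ) : (n : ℝ) ^ n ≤ 3 ^ n * (n.factorial : ℝ) := by
  have h := Real.pow_div_factorial_le_exp (n : ℝ) (Nat.cast_nonneg n) n
  have h1 : (0 : ℝ) < (n.factorial : ℝ) := by exact_mod_cast n.factorial_pos
  rw [div_le_iff₀ h1] at h
  have h2 : Real.exp (n : ℝ) = Real.exp 1 ^ n := by rw [← Real.exp_nat_mul, mul_one]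
  rw [h2] at h
  refine h.trans (mul_le_mul_of_nonneg_right ?_ h1.le)
  exact pow_le_pow_left₀ (Real.exp_pos 1).le (by linarith [Real.exp_one_lt_d9]) n

/-- The combinatorial core: everything expressed by powers. -/
private lemma core (t n j : ℕ) (ht : (6103068444 : ℕ) ^ 2 < t) (hj : j = t ^ 10)
    (hn : n + t ^ 9 = t ^ 10) :
    (87 * (t : ℝ) ^ 3) ^ j * 3 ^ (10 * j) * (11 * (t : ℝ) ^ 11) ^ (n + 1) *
      (12 * (t : ℝ) ^ 17) ^ n * 36 ^ n < (4 * (t : ℝ) ^ 12) ^ n * ((t : ℝ) ^ 10) ^ (2 * n) := by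
  have ht1 : 1 ≤ t := by omega
  have hT1 : (1 : ℝ) ≤ t := by exact_mod_cast ht1
  have hT0 : (0 : ℝ) < t := by linarith
  have ht9 : 1 ≤ t ^ 9 := Nat.one_le_pow _ _ ht1
  have hnj : n + 1 ≤ j := by omega
  have hj0 : 0 < j := by omega
  -- the exponent
  have hexp : j ≤ 2 * (j - 4 * t ^ 9 - 11) ∧ 4 * t ^ 9 + 11 ≤ j := by
    have h1 : t ^ 10 = t * t ^ 9 := by rw [pow_succ']
    have h2 : 100 * t ^ 9 ≤ t * t ^ 9 := Nat.mul_le_mul_right _ (by omega)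
    omega
  set m := j - 4 * t ^ 9 - 11 with hm
  have hnm : 32 * n = m + (3 * j + 11 * (n + 1) + 17 * n) := by omega
  -- main inequality
  have hmain : (6103068444 : ℝ) ^ j < (t : ℝ) ^ m := by
    have h1 : ((6103068444 : ℝ) ^ j) ^ 2 < ((t : ℝ) ^ m) ^ 2 := by
      calc ((6103068444 : ℝ) ^ j) ^ 2 = ((6103068444 : ℝ) ^ 2) ^ j := by
            rw [← pow_mul, ← pow_mul, mul_comm]
        _ < (t : ℝ) ^ j := by
            apply pow_lt_pow_left₀ _ (by positivity) hj0.ne'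
            exact_mod_cast ht
        _ ≤ (t : ℝ) ^ (2 * m) := pow_le_pow_right₀ hT1 hexp.1
        _ = ((t : ℝ) ^ m) ^ 2 := by rw [← pow_mul, mul_comm]
    exact lt_of_pow_lt_pow_left₀ 2 (by positivity) h1
  have e1 : (87 * (t : ℝ) ^ 3) ^ j * 3 ^ (10 * j) * (11 * (t : ℝ) ^ 11) ^ (n + 1) *
      (12 * (t : ℝ) ^ 17) ^ n * 36 ^ n =
      ((87 : ℝ) ^ j * (3 ^ 10) ^ j * 11 ^ (n + 1) * 3 ^ n * 36 ^ n) *
        ((t : ℝ) ^ (3 * j + 11 * (n + 1) + 17 * n) * 4 ^ n) := by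
    have h12 : (12 : ℝ) ^ n = 3 ^ n * 4 ^ n := by rw [← mul_pow]; norm_num
    rw [mul_pow, mul_pow, mul_pow, ← pow_mul, ← pow_mul, ← pow_mul, ← pow_mul, h12, pow_add,
      pow_add]
    ring
  have e2 : (4 * (t : ℝ) ^ 12) ^ n * ((t : ℝ) ^ 10) ^ (2 * n) =
      (t : ℝ) ^ m * ((t : ℝ) ^ (3 * j + 11 * (n + 1) + 17 * n) * 4 ^ n) := by
    have h1 : (t : ℝ) ^ m * (t : ℝ) ^ (3 * j + 11 * (n + 1) + 17 * n) = (t : ℝ) ^ (32 * n) := by
      rw [← pow_add, hnm]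
    rw [← mul_assoc, h1, mul_pow, ← pow_mul, ← pow_mul]
    have h2 : 32 * n = 12 * n + 10 * (2 * n) := by ring
    rw [h2, pow_add]
    ring
  rw [e1, e2]
  apply mul_lt_mul_of_pos_right _ (by positivity)
  refine lt_of_le_of_lt ?_ hmain
  have b1 : (11 : ℝ) ^ (n + 1) ≤ 11 ^ j := pow_le_pow_right₀ (by norm_num) hnj
  have b2 : (3 : ℝ) ^ n ≤ 3 ^ j := pow_le_pow_right₀ (by norm_num) (by omega)
  have b3 : (36 : ℝ) ^ n ≤ 36 ^ j := pow_le_pow_right₀ (by norm_num) (by omega)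
  calc (87 : ℝ) ^ j * (3 ^ 10) ^ j * 11 ^ (n + 1) * 3 ^ n * 36 ^ n
      ≤ (87 : ℝ) ^ j * (3 ^ 10) ^ j * 11 ^ j * 3 ^ j * 36 ^ j := by gcongr
    _ = (87 * 3 ^ 10 * 11 * 3 * 36 : ℝ) ^ j := by rw [mul_pow, mul_pow, mul_pow, mul_pow]
    _ = (6103068444 : ℝ) ^ j := by norm_num

theorem numeric_three : ∃ t0 : ℕ, ∀ t : ℕ, t0 ≤ t →
    (Real.exp 1 * (28 * (t : ℝ) ^ 3 + 1)) ^ (t ^ 10) * 3 ^ (10 * t ^ 10) *
      ((11 * t ^ 11).choose ((t ^ 10 - t ^ 9) + 1) : ℝ) *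
      ((2 * (3 * (2 * (t : ℝ) ^ 17))) ^ (t ^ 10 - t ^ 9) / ((t ^ 10 - t ^ 9).factorial : ℝ)) <
      (2 * (2 * (t : ℝ) ^ 12)) ^ (t ^ 10 - t ^ 9) := by
  refine ⟨6103068444 ^ 2 + 1, fun t ht => ?_⟩
  have ht' : (6103068444 : ℕ) ^ 2 < t := ht
  have ht1 : 2 ≤ t := by omega
  have hT1 : (1 : ℝ) ≤ t := by exact_mod_cast (by omega : 1 ≤ t)
  have hT0 : (0 : ℝ) < t := by linarith
  have h910 : t ^ 9 ≤ t ^ 10 := Nat.pow_le_pow_right (by omega) (by omega)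
  obtain ⟨n, hn⟩ : ∃ n, n = t ^ 10 - t ^ 9 := ⟨_, rfl⟩
  obtain ⟨j, hj⟩ : ∃ j, j = t ^ 10 := ⟨_, rfl⟩
  have hnj : n + t ^ 9 = t ^ 10 := by omega
  have hc := core t n j ht' hj hnj
  rw [← hn, ← hj]
  have hF : (0 : ℝ) < (n.factorial : ℝ) := by exact_mod_cast n.factorial_pos
  have hF1 : (0 : ℝ) < ((n + 1).factorial : ℝ) := by exact_mod_cast (n + 1).factorial_pos
  have hFF : (n.factorial : ℝ) ≤ ((n + 1).factorial : ℝ) := by
    exact_mod_cast Nat.factorial_le (Nat.le_succ n)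
  -- lower bound of the factorials
  have hn2 : (t : ℝ) ^ 10 ≤ 2 * (n : ℝ) := by
    have h1 : t ^ 10 = t * t ^ 9 := by rw [pow_succ']
    have h2 : 2 * t ^ 9 ≤ t * t ^ 9 := Nat.mul_le_mul_right _ ht1
    exact_mod_cast (by omega : t ^ 10 ≤ 2 * n)
  have hlow : ((t : ℝ) ^ 10) ^ (2 * n) ≤ 36 ^ n * (n.factorial * (n + 1).factorial : ℝ) := by
    have h1 := fact_lower n
    have h2 : ((t : ℝ) ^ 10) ^ n ≤ 6 ^ n * (n.factorial : ℝ) := by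
      calc ((t : ℝ) ^ 10) ^ n ≤ (2 * (n : ℝ)) ^ n := pow_le_pow_left₀ (by positivity) hn2 n
        _ = 2 ^ n * (n : ℝ) ^ n := mul_pow _ _ _
        _ ≤ 2 ^ n * (3 ^ n * (n.factorial : ℝ)) := mul_le_mul_of_nonneg_left h1 (by positivity)
        _ = 6 ^ n * (n.factorial : ℝ) := by
            rw [← mul_assoc, ← mul_pow]; norm_num
    calc ((t : ℝ) ^ 10) ^ (2 * n) = ((t : ℝ) ^ 10) ^ n * ((t : ℝ) ^ 10) ^ n := by
          rw [two_mul, pow_add]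
      _ ≤ (6 ^ n * (n.factorial : ℝ)) * (6 ^ n * (n.factorial : ℝ)) :=
          mul_le_mul h2 h2 (by positivity) (by positivity)
      _ = 36 ^ n * (n.factorial * n.factorial : ℝ) := by
          have : (36 : ℝ) ^ n = 6 ^ n * 6 ^ n := by rw [← mul_pow]; norm_num
          rw [this]; ring
      _ ≤ 36 ^ n * (n.factorial * (n + 1).factorial : ℝ) := by gcongr
  have hch : ((11 * t ^ 11).choose (n + 1) : ℝ) ≤ (11 * (t : ℝ) ^ 11) ^ (n + 1) /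
      ((n + 1).factorial : ℝ) := by
    have := Nat.choose_le_pow_div (α := ℝ) (n + 1) (11 * t ^ 11)
    push_cast at this
    exact this
  have hA : Real.exp 1 * (28 * (t : ℝ) ^ 3 + 1) ≤ 87 * (t : ℝ) ^ 3 := by
    have h1 : (1 : ℝ) ≤ (t : ℝ) ^ 3 := one_le_pow₀ hT1
    have h2 : 28 * (t : ℝ) ^ 3 + 1 ≤ 29 * (t : ℝ) ^ 3 := by linarith
    calc Real.exp 1 * (28 * (t : ℝ) ^ 3 + 1) ≤ 3 * (29 * (t : ℝ) ^ 3) :=
          mul_le_mul (by linarith [Real.exp_one_lt_d9]) h2 (by positivity) (by norm_num)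
      _ = 87 * (t : ℝ) ^ 3 := by ring
  have e17 : (2 * (3 * (2 * (t : ℝ) ^ 17))) = 12 * (t : ℝ) ^ 17 := by ring
  have e12 : (2 * (2 * (t : ℝ) ^ 12)) = 4 * (t : ℝ) ^ 12 := by ring
  rw [e17, e12]
  calc (Real.exp 1 * (28 * (t : ℝ) ^ 3 + 1)) ^ j * 3 ^ (10 * j) *
      ((11 * t ^ 11).choose (n + 1) : ℝ) * ((12 * (t : ℝ) ^ 17) ^ n / (n.factorial : ℝ))
      ≤ (87 * (t : ℝ) ^ 3) ^ j * 3 ^ (10 * j) * ((11 * (t : ℝ) ^ 11) ^ (n + 1) /
      ((n + 1).factorial : ℝ)) * ((12 * (t : ℝ) ^ 17) ^ n / (n.factorial : ℝ)) := by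
        have h0 : 0 ≤ Real.exp 1 * (28 * (t : ℝ) ^ 3 + 1) := by positivity
        gcongr
    _ = ((87 * (t : ℝ) ^ 3) ^ j * 3 ^ (10 * j) * (11 * (t : ℝ) ^ 11) ^ (n + 1) *
      (12 * (t : ℝ) ^ 17) ^ n * 36 ^ n) / (36 ^ n * (n.factorial * (n + 1).factorial : ℝ)) := by
        field_simp
    _ < (4 * (t : ℝ) ^ 12) ^ n := by
        rw [div_lt_iff₀ (by positivity)]
        refine hc.trans_le ?_
        exact mul_le_mul_of_nonneg_left hlow (by positivity)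

end Pool.Agent.TSP92
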