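import Pool.Agent.Helper92.TSP.Defs

/-! Caratheodory for labelled points. -/

set_option autoImplicit false

namespace Pool.Agent.TSP92

open Finset

theorem cara (n : ℕ) (pt : ℕ → (Fin n → ℝ)) (C : Set ℕ) (y : Fin n → ℝ)
    (hy : y ∈ convexHull ℝ (pt '' C)) :
    ∃ T : Finset ℕ, (T : Set ℕ) ⊆ C ∧ T.card ≤ n + 1 ∧ y ∈ convexHull ℝ (pt '' (T : Set ℕ)) := by
  classical
  rw [convexHull_eq_union] at hy
  simp only [Set.mem_iUnion] at hy
  obtain ⟨S, hS, hai, hyS⟩ := hy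
  have hcard : S.card ≤ n + 1 := by
    have h1 := hai.card_le_finrank_succ
    rw [Fintype.card_coe] at h1
    refine h1.trans ?_
    have h2 : Module.finrank ℝ (vectorSpan ℝ (Set.range ((↑) : S → (Fin n → ℝ))))
        ≤ Module.finrank ℝ (Fin n → ℝ) := Submodule.finrank_le _
    rw [Module.finrank_fin_fun] at h2
    omega
  have hch : ∀ s : (Fin n → ℝ), ∃ k : ℕ, s ∈ S → k ∈ C ∧ pt k = s := by
    intro s
    by_cases hs : s ∈ S
    · obtain ⟨k, hk, hk2⟩ := hS hs
      exact ⟨k, fun _ => ⟨hk, hk2⟩⟩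
    · exact ⟨0, fun h => absurd h hs⟩
  choose g hg using hch
  refine ⟨S.image g, ?_, ?_, ?_⟩
  · intro k hk
    rw [Finset.coe_image] at hk
    obtain ⟨s, hs, rfl⟩ := hk
    exact (hg s hs).1
  · exact Finset.card_image_le.trans hcard
  · have h3 : (S : Set (Fin n → ℝ)) ⊆ pt '' ((S.image g : Finset ℕ) : Set ℕ) := by
      intro s hs
      refine ⟨g s, ?_, (hg s hs).2⟩
      rw [Finset.coe_image]
      exact ⟨s, hs, rfl⟩
    exact convexHull_mono h3 hyS

end Pool.Agent.TSP92
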