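import Pool.Agent.Helper92.TSP.Defs
import Pool.Agent.Helper92.TSP.M00
import Pool.Agent.Helper92.TSP.M05
import Pool.Agent.Helper92.TSP.M09
import Pool.Agent.Helper92.TSP.M20
import Pool.Agent.Helper92.TSP.M21
import Pool.Agent.Helper92.TSP.M22
import Pool.Agent.Helper92.TSP.M23
import Pool.Agent.Helper92.TSP.M25
import Pool.Agent.Helper92.TSP.M26
import Pool.Agent.Helper92.TSP.M27
import Pool.Agent.Helper92.TSP.M31

/-! Part III: labellings of a lattice ball. -/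

set_option autoImplicit false

namespace Pool.Agent.TSP92

open Finset

/-- Euclidean distance of real vectors. -/
noncomputable def rd {ι : Type} [Fintype ι] (a b : ι → ℝ) : ℝ :=
  Real.sqrt (∑ i, (a i - b i) ^ 2)

theorem rd_eq_dist {ι : Type} [Fintype ι] (a b : ι → ℝ) :
    rd a b = dist (WithLp.toLp 2 a : EuclideanSpace ℝ ι) (WithLp.toLp 2 b) := by
  rw [EuclideanSpace.dist_eq]
  unfold rd
  congr 1
  apply Finset.sum_congr rfl
  intro i _
  rw [Real.dist_eq, sq_abs]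

theorem rd_tri {ι : Type} [Fintype ι] (a b c : ι → ℝ) : rd a c ≤ rd a b + rd b c := by
  rw [rd_eq_dist, rd_eq_dist, rd_eq_dist]; exact dist_triangle _ _ _

theorem rd_comm {ι : Type} [Fintype ι] (a b : ι → ℝ) : rd a b = rd b a := by
  rw [rd_eq_dist, rd_eq_dist, dist_comm]

theorem rd_le_of_abs {ι : Type} [Fintype ι] (a b : ι → ℝ) (c : ℝ) (hc : 0 ≤ c)
    (h : ∀ i, |a i - b i| ≤ c) : rd a b ≤ Real.sqrt (Fintype.card ι) * c := by
  unfold rd
  rw [← Real.sqrt_sq hc, ← Real.sqrt_mul (by positivity)]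
  apply Real.sqrt_le_sqrt
  calc ∑ i, (a i - b i) ^ 2 ≤ ∑ _i : ι, c ^ 2 := by
        apply Finset.sum_le_sum
        intro i _
        rw [← sq_abs]
        exact pow_le_pow_left₀ (abs_nonneg _) (h i) 2
    _ = Fintype.card ι * c ^ 2 := by simp

theorem d2_eq_rd {ι : Type} [Fintype ι] (v w : ι → ℤ) :
    d2 v w = rd (fun i => (v i : ℝ)) (fun i => (w i : ℝ)) := rfl

/-- Representatives of labels. -/
theorem exists_rep {ι : Type} [Fintype ι] [DecidableEq ι] (N : ℕ) (lab : (ι → ℤ) → ℕ) :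
    ∃ p : ℕ → (ι → ℤ), ∀ v ∈ Vf ι N, p (lab v) ∈ Vf ι N ∧ lab (p (lab v)) = lab v := by
  classical
  refine ⟨fun B => if h : ∃ v ∈ Vf ι N, lab v = B then h.choose else 0, fun v hv => ?_⟩
  have hex : ∃ w ∈ Vf ι N, lab w = lab v := ⟨v, hv, rfl⟩
  simp only
  rw [dif_pos hex]
  exact hex.choose_spec

theorem part3 (hZ : ∀ k l, ZeroLemma k l) : ∃ t0 : ℕ, ∀ t : ℕ, t0 ≤ t →
    ∀ lab : ((Fin (t ^ 9) ⊕ Fin (t ^ 10 - t ^ 9)) → ℤ) → ℕ,
    (∀ v ∈ Vf (Fin (t ^ 9) ⊕ Fin (t ^ 10 - t ^ 9)) (20 * (2 * t ^ 17)),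
      ∀ w ∈ Vf (Fin (t ^ 9) ⊕ Fin (t ^ 10 - t ^ 9)) (20 * (2 * t ^ 17)),
      lab v = lab w → d2 v w ≤ 2 * (t : ℝ) ^ 17) →
    ∃ P : Finset ((Fin (t ^ 9) ⊕ Fin (t ^ 10 - t ^ 9)) → ℤ),
      Reach d2 (Vf (Fin (t ^ 9) ⊕ Fin (t ^ 10 - t ^ 9)) (20 * (2 * t ^ 17)) :
          Set ((Fin (t ^ 9) ⊕ Fin (t ^ 10 - t ^ 9)) → ℤ)) 0
        (P : Set ((Fin (t ^ 9) ⊕ Fin (t ^ 10 - t ^ 9)) → ℤ)) (21 * (2 * (t : ℝ) ^ 17)) ∧
      t ^ 11 ≤ (P.image lab).card := by
  classical
  obtain ⟨t1, ht1⟩ := numeric_three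
  refine ⟨max t1 2, fun t htt => ?_⟩
  have ht2 : 2 ≤ t := le_trans (le_max_right _ _) htt
  have hnum := ht1 t (le_trans (le_max_left _ _) htt)
  -- abbreviations
  set k := t ^ 9 with hk
  set l := t ^ 10 - t ^ 9 with hl
  intro lab hlab
  by_contra hcon
  push Not at hcon
  have ht1' : 1 ≤ t := by omega
  have hkl : k + l = t ^ 10 := by
    have : t ^ 9 ≤ t ^ 10 := Nat.pow_le_pow_right ht1' (by norm_num)
    omega
  have hcardι : Fintype.card (Fin k ⊕ Fin l) = t ^ 10 := by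
    rw [Fintype.card_sum, Fintype.card_fin, Fintype.card_fin, hkl]
  have htR : (2 : ℝ) ≤ t := by exact_mod_cast ht2
  have htR1 : (1 : ℝ) ≤ t := by linarith
  have htR0 : (0 : ℝ) < t := by linarith
  have hsqrt : Real.sqrt ((t : ℝ) ^ 10) = (t : ℝ) ^ 5 := by
    rw [show (t : ℝ) ^ 10 = ((t : ℝ) ^ 5) ^ 2 by ring, Real.sqrt_sq (by positivity)]
  have hsqrtι : Real.sqrt (Fintype.card (Fin k ⊕ Fin l) : ℝ) = (t : ℝ) ^ 5 := by
    rw [hcardι, Nat.cast_pow, hsqrt]
  set D : ℝ := 2 * (t : ℝ) ^ 17 with hD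
  have hD0 : 0 < D := by positivity
  -- comparison of powers
  have p5 : (t : ℝ) ^ 5 ≤ (t : ℝ) ^ 14 := pow_le_pow_right₀ htR1 (by norm_num)
  have p14 : (t : ℝ) ^ 14 ≤ (t : ℝ) ^ 17 := pow_le_pow_right₀ htR1 (by norm_num)
  have p5D : (t : ℝ) ^ 5 ≤ D / 2 := by rw [hD]; linarith
  have p14D : (t : ℝ) ^ 14 ≤ D / 2 := by rw [hD]; linarith
  have hcast20 : ((20 * (2 * t ^ 17) : ℕ) : ℝ) = 20 * D := by
    rw [hD]; push_cast; ring
  have hmemV : ∀ v : (Fin k ⊕ Fin l) → ℤ,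
      v ∈ Vf (Fin k ⊕ Fin l) (20 * (2 * t ^ 17)) ↔ d2 v 0 ≤ 20 * D := by
    intro v
    rw [mem_Vf, hcast20]
  -- greedy sets
  have hgr : ∀ z : (Fin k ⊕ Fin l) → ℤ, ∃ U : Finset ℕ, U.card ≤ t ^ 11 ∧
      (d2 (fun i => (t : ℤ) ^ 9 * z i) 0 ≤ 9 * D →
        ∀ v : (Fin k ⊕ Fin l) → ℤ, d2 v (fun i => (t : ℤ) ^ 9 * z i) ≤ 2 * (t : ℝ) ^ 14 →
          (Lam lab v \ U).card < t ^ 8 ∧ (Lam lab v).card < t ^ 11) := by
    intro z
    by_cases hz : d2 (fun i => (t : ℤ) ^ 9 * z i) 0 ≤ 9 * D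
    · obtain ⟨U, hU1, hU2⟩ := greedy t ht2 hcardι lab (fun P hP => hcon P hP)
        (fun i => (t : ℤ) ^ 9 * z i) hz
      exact ⟨U, hU1.le, fun _ => hU2⟩
    · exact ⟨∅, by simp, fun h => absurd h hz⟩
  choose U hU1 hU2 using hgr
  -- representatives
  obtain ⟨p, hp⟩ := exists_rep (ι := Fin k ⊕ Fin l) (20 * (2 * t ^ 17)) lab
  have hpD : ∀ v : (Fin k ⊕ Fin l) → ℤ, d2 v 0 ≤ 8 * D → d2 (p (lab v)) v ≤ D := by
    intro v hv
    have hvm : v ∈ Vf (Fin k ⊕ Fin l) (20 * (2 * t ^ 17)) := (hmemV v).2 (by linarith)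
    obtain ⟨h1, h2⟩ := hp v hvm
    exact hlab _ h1 _ hvm h2
  -- the function theta
  set hB : ℕ → ((Fin k ⊕ Fin l) → ℝ) → ℝ := fun B x =>
    ∑ z ∈ box (Fin k ⊕ Fin l) (12 * t ^ 8),
      if B ∈ U z then hat z (fun i => x i / (t : ℝ) ^ 9) else 0 with hhB
  set θ : ℕ → ((Fin k ⊕ Fin l) → ℝ) → ℝ := fun B x => max 0 (hB B x - (1 - 1 / (t : ℝ))) with hθ
  have hθc : ∀ B, Continuous (θ B) := by
    intro B
    rw [hθ]
    refine continuous_const.max (Continuous.sub ?_ continuous_const)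
    rw [hhB]
    refine continuous_finsetSum _ (fun z _ => ?_)
    by_cases hBz : B ∈ U z
    · simp only [hBz, if_true]
      exact (hat_cont z).comp (continuous_pi fun i => (continuous_apply i).div_const _)
    · simp only [hBz, if_false]
      exact continuous_const
  have hθ0 : ∀ B x, 0 ≤ θ B x := fun B x => le_max_left _ _
  -- generic s
  set labs : Finset ℕ := (Vf (Fin k ⊕ Fin l) (20 * (2 * t ^ 17))).image lab with hlabs
  set pa : ℕ → (Fin k → ℝ) := fun B a => ((p B (Sum.inl a) : ℤ) : ℝ) with hpa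
  set pb : ℕ → (Fin l → ℝ) := fun B b => ((p B (Sum.inr b) : ℤ) : ℝ) with hpb
  obtain ⟨s, hs, hsg⟩ := generic k ((labs.powerset.filter (fun T => T.card ≤ k)).image
    (fun T => T.image pa)) (by
      intro P hP
      rw [Finset.mem_image] at hP
      obtain ⟨T, hT, rfl⟩ := hP
      exact le_trans Finset.card_image_le (Finset.mem_filter.mp hT).2) D hD0
  -- candidates for the first coarse point
  set A : Finset ((Fin k ⊕ Fin l) → ℤ) := (box (Fin k ⊕ Fin l) (12 * t ^ 8)).filter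
    (fun z => ∑ i, (z i).natAbs ≤ 14 * t ^ 13) with hA
  have hAcard : (A.card : ℝ) ≤ (Real.exp 1 * (28 * (t : ℝ) ^ 3 + 1)) ^ (t ^ 10) := by
    have := lattice_count A (14 * (t : ℝ) ^ 3) (by positivity) (by
      intro z hz
      have h1 := (Finset.mem_filter.mp hz).2
      have h2 : ((∑ i, (z i).natAbs : ℕ) : ℝ) ≤ ((14 * t ^ 13 : ℕ) : ℝ) := by exact_mod_cast h1
      rw [hcardι]
      refine le_trans h2 (le_of_eq ?_)
      push_cast
      ring)
    rw [hcardι] at this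
    refine le_trans this (le_of_eq ?_)
    congr 2
    ring
  -- covering
  have hcov : ∀ y : Fin l → ℝ, (∀ i, |y i| ≤ 2 * (t : ℝ) ^ 12) →
      ∃ z : Fin (10 + 1) → ((Fin k ⊕ Fin l) → ℤ), z 0 ∈ A ∧
      (∀ i c, |z i c - z 0 c| ≤ 1) ∧ ∃ T : Finset ℕ, (∀ B ∈ T, ∃ i, B ∈ U (z i)) ∧
      T.card ≤ l + 1 ∧ (∀ B ∈ T, ∀ B' ∈ T, ∑ c, (pb B c - pb B' c) ^ 2 ≤ (3 * D) ^ 2) ∧
      y ∈ convexHull ℝ (pb '' (T : Set ℕ)) := by
    intro y hy
    have hyD : ∑ b, y b ^ 2 ≤ D ^ 2 := by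
      calc ∑ b, y b ^ 2 ≤ ∑ _b : Fin l, (2 * (t : ℝ) ^ 12) ^ 2 := by
            apply Finset.sum_le_sum
            intro i _
            rw [← sq_abs]
            exact pow_le_pow_left₀ (abs_nonneg _) (hy i) 2
        _ = (l : ℝ) * (2 * (t : ℝ) ^ 12) ^ 2 := by simp
        _ ≤ (t : ℝ) ^ 10 * (2 * (t : ℝ) ^ 12) ^ 2 := by
            apply mul_le_mul_of_nonneg_right _ (by positivity)
            have : l ≤ t ^ 10 := by omega
            exact_mod_cast this
        _ = D ^ 2 := by rw [hD]; ring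
    have hcD : Real.sqrt ((k : ℝ) + l) ≤ D := by
      have : (k : ℝ) + l = (t : ℝ) ^ 10 := by exact_mod_cast hkl
      rw [this, hsqrt]
      linarith
    obtain ⟨x, hx6, halt⟩ := core (hZ k l) D hD0 hcD lab p hpD θ hθc hθ0 s hs y hyD
    -- bounds on x
    have hx0 : rd x 0 ≤ 6 * D := by
      unfold rd
      rw [Real.sqrt_le_left (by positivity)]
      simpa using hx6
    have hxi : ∀ i, |x i| ≤ 6 * D := by
      intro i
      apply abs_le_of_sq_le_sq _ (by positivity)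
      exact le_trans (Finset.single_le_sum (f := fun i => x i ^ 2) (fun j _ => sq_nonneg _)
        (Finset.mem_univ i)) hx6
    set μ : ((Fin k ⊕ Fin l) → ℤ) → ℝ := fun z => hat z (fun i => x i / (t : ℝ) ^ 9) with hμ
    have hμ0 : ∀ z ∈ box (Fin k ⊕ Fin l) (12 * t ^ 8), 0 ≤ μ z := fun z _ => hat_nonneg _ _
    have hμs : ∑ z ∈ box (Fin k ⊕ Fin l) (12 * t ^ 8), μ z = 1 := by
      apply hat_sum
      intro i
      rw [abs_div, abs_of_pos (by positivity : (0 : ℝ) < (t : ℝ) ^ 9), div_le_iff₀ (by positivity)]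
      refine le_trans (hxi i) (le_of_eq ?_)
      rw [hD]; push_cast; ring
    -- a vertex
    obtain ⟨v0, hv0⟩ : ∃ v0 : (Fin k ⊕ Fin l) → ℤ, hat v0 x ≠ 0 := by
      by_contra hno
      push Not at hno
      obtain ⟨M, hM⟩ := exists_nat_ge (6 * D)
      have h1 := hat_sum (ι := Fin k ⊕ Fin l) M x (fun i => le_trans (hxi i) hM)
      rw [Finset.sum_eq_zero (fun v _ => hno v)] at h1
      exact zero_ne_one h1
    have hvx : ∀ v : (Fin k ⊕ Fin l) → ℤ, hat v x ≠ 0 →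
        rd (fun i => (v i : ℝ)) x ≤ (t : ℝ) ^ 5 := by
      intro v hv
      have h1 := hat_ne_zero v x hv
      have h2 := rd_le_of_abs (fun i => (v i : ℝ)) x 1 zero_le_one
        (fun i => by rw [abs_sub_comm]; exact (h1 i).le)
      rwa [hsqrtι, mul_one] at h2
    have hv7 : ∀ v : (Fin k ⊕ Fin l) → ℤ, hat v x ≠ 0 → d2 v 0 ≤ 7 * D := by
      intro v hv
      have h1 := rd_tri (fun i => (v i : ℝ)) x 0
      have h2 := hvx v hv
      have h3 : d2 v 0 = rd (fun i => (v i : ℝ)) 0 := by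
        rw [d2_eq_rd]; congr 1; funext i; simp
      rw [h3]
      linarith
    have hLam : ∀ v : (Fin k ⊕ Fin l) → ℤ, hat v x ≠ 0 → lab v ∈ Lam lab v0 := by
      intro v hv
      unfold Lam
      apply Finset.mem_image_of_mem
      rw [mem_nbh]
      intro i
      have h1 := hat_ne_zero v x hv i
      have h2 := hat_ne_zero v0 x hv0 i
      have h3 : |((v i - v0 i : ℤ) : ℝ)| < 2 := by
        push_cast
        rw [abs_lt] at h1 h2 ⊢
        constructor <;> linarith [h1.1, h1.2, h2.1, h2.2]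
      have h4 : |v i - v0 i| < 2 := by exact_mod_cast h3
      omega
    have hyz : ∀ z : (Fin k ⊕ Fin l) → ℤ, μ z ≠ 0 →
        rd x (fun i => (((t : ℤ) ^ 9 * z i : ℤ) : ℝ)) ≤ (t : ℝ) ^ 14 := by
      intro z hz
      have h1 := hat_ne_zero z _ hz
      have h2 := rd_le_of_abs x (fun i => (((t : ℤ) ^ 9 * z i : ℤ) : ℝ)) ((t : ℝ) ^ 9)
        (by positivity) (fun i => by
          have h3 := (h1 i).le
          have h4 : x i - (((t : ℤ) ^ 9 * z i : ℤ) : ℝ) = (t : ℝ) ^ 9 * (x i / (t : ℝ) ^ 9 - z i) := by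
            push_cast
            field_simp
          rw [h4, abs_mul, abs_of_pos (by positivity : (0 : ℝ) < (t : ℝ) ^ 9)]
          nlinarith [abs_nonneg (x i / (t : ℝ) ^ 9 - z i), pow_pos htR0 9])
      rw [hsqrtι] at h2
      refine le_trans h2 (le_of_eq ?_)
      ring
    have hy0 : ∀ z : (Fin k ⊕ Fin l) → ℤ, μ z ≠ 0 → d2 (fun i => (t : ℤ) ^ 9 * z i) 0 ≤ 7 * D := by
      intro z hz
      have h1 := hyz z hz
      have h2 := rd_tri (fun i => (((t : ℤ) ^ 9 * z i : ℤ) : ℝ)) x 0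
      rw [rd_comm] at h1
      have h3 : d2 (fun i => (t : ℤ) ^ 9 * z i) 0 = rd (fun i => (((t : ℤ) ^ 9 * z i : ℤ) : ℝ)) 0 := by
        rw [d2_eq_rd]; congr 1; funext i; simp
      rw [h3]
      linarith
    have hvz : ∀ z : (Fin k ⊕ Fin l) → ℤ, μ z ≠ 0 →
        d2 v0 (fun i => (t : ℤ) ^ 9 * z i) ≤ 2 * (t : ℝ) ^ 14 := by
      intro z hz
      have h1 := hyz z hz
      have h2 := rd_tri (fun i => (v0 i : ℝ)) x (fun i => (((t : ℤ) ^ 9 * z i : ℤ) : ℝ))
      have h3 := hvx v0 hv0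
      rw [d2_eq_rd]
      linarith
    have hUz : ∀ z : (Fin k ⊕ Fin l) → ℤ, μ z ≠ 0 →
        (Lam lab v0 \ U z).card < t ^ 8 ∧ (Lam lab v0).card < t ^ 11 := by
      intro z hz
      exact hU2 z (by have := hy0 z hz; linarith) v0 (hvz z hz)
    rcases halt with hrare | hcom
    · -- rare labels
      exfalso
      set C : Finset ℕ := (Lam lab v0).filter
        (fun B => (∃ v, hat v x ≠ 0 ∧ lab v = B) ∧ θ B x = 0) with hC
      have hCset : {B : ℕ | (∃ v, hat v x ≠ 0 ∧ lab v = B) ∧ θ B x = 0} = (C : Set ℕ) := by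
        ext B
        simp only [Set.mem_ofPred_eq, hC, Finset.coe_filter]
        constructor
        · rintro ⟨⟨v, hv, rfl⟩, h0⟩
          exact ⟨hLam v hv, ⟨v, hv, rfl⟩, h0⟩
        · exact fun h => h.2
      have hCcard : C.card < t * t ^ 8 := by
        apply rare_few t (t ^ 8) ht1' (box (Fin k ⊕ Fin l) (12 * t ^ 8)) μ hμ0 hμs U (Lam lab v0)
          (fun z _ hz => (hUz z hz).1) C (Finset.filter_subset _ _)
        intro B hB'
        have h1 : θ B x = 0 := (Finset.mem_filter.mp hB').2.2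
        rw [hθ] at h1
        simp only at h1
        have h2 : hB B x - (1 - 1 / (t : ℝ)) ≤ 0 := by
          rw [← h1]; exact le_max_right _ _
        have h3 : hB B x = ∑ z ∈ box (Fin k ⊕ Fin l) (12 * t ^ 8), if B ∈ U z then μ z else 0 := rfl
        rw [← h3]
        linarith
      rw [hCset] at hrare
      apply hsg (C.image pa) _ (by rw [Finset.coe_image]; exact hrare)
      apply Finset.mem_image_of_mem
      rw [Finset.mem_filter, Finset.mem_powerset]
      constructor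
      · intro B hB'
        obtain ⟨v, hv, rfl⟩ := (Finset.mem_filter.mp hB').2.1
        apply Finset.mem_image_of_mem
        rw [hmemV]
        have := hv7 v hv
        linarith
      · have : t * t ^ 8 = k := by rw [hk]; ring
        omega
    · -- common labels
      set C2 : Set ℕ := {B : ℕ | (∃ v, hat v x ≠ 0 ∧ lab v = B) ∧ 0 < θ B x} with hC2
      obtain ⟨T, hTC, hTcard, hyT⟩ := cara l pb C2 y hcom
      have hTL : T ⊆ Lam lab v0 := by
        intro B hB'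
        obtain ⟨⟨v, hv, rfl⟩, _⟩ := hTC hB'
        exact hLam v hv
      -- select on the finset of all common labels in T
      obtain ⟨z00, hz00, hz00'⟩ : ∃ z ∈ box (Fin k ⊕ Fin l) (12 * t ^ 8), μ z ≠ 0 := by
        by_contra hno
        push Not at hno
        rw [Finset.sum_eq_zero hno] at hμs
        exact zero_ne_one hμs
      have hTlt : T.card < t ^ 11 :=
        lt_of_le_of_lt (Finset.card_le_card hTL) (hUz z00 hz00').2
      obtain ⟨f, hf1, hf2⟩ := select_few t ht2 (box (Fin k ⊕ Fin l) (12 * t ^ 8)) μ hμ0 hμs U 11 T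
        hTlt (by
          intro B hB'
          have h1 := (hTC hB').2
          rw [hθ] at h1
          simp only at h1
          have h2 : 0 < hB B x - (1 - 1 / (t : ℝ)) := by
            by_contra hle
            push Not at hle
            rw [max_eq_left hle] at h1
            exact lt_irrefl _ h1
          have h3 : hB B x = ∑ z ∈ box (Fin k ⊕ Fin l) (12 * t ^ 8), if B ∈ U z then μ z else 0 := rfl
          rw [← h3]
          linarith)
      refine ⟨f, ?_, ?_, T, hf2, hTcard, ?_, hyT⟩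
      · -- f 0 in A
        rw [hA, Finset.mem_filter]
        refine ⟨(hf1 0).1, ?_⟩
        have h1 := hy0 (f 0) (hf1 0).2
        have h2 : d2 (fun i => (t : ℤ) ^ 9 * f 0 i) 0 ^ 2 = ((t : ℝ) ^ 9) ^ 2 * ∑ i, ((f 0 i : ℤ) : ℝ) ^ 2 := by
          rw [d2_sq, Finset.mul_sum]
          apply Finset.sum_congr rfl
          intro i _
          push_cast
          simp
          ring
        have h3 : ∑ i, ((f 0 i : ℤ) : ℝ) ^ 2 ≤ (14 * (t : ℝ) ^ 8) ^ 2 := by
          have h4 : d2 (fun i => (t : ℤ) ^ 9 * f 0 i) 0 ^ 2 ≤ (7 * D) ^ 2 :=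
            pow_le_pow_left₀ (d2_nonneg _ _) h1 2
          rw [h2] at h4
          have h5 : (7 * D) ^ 2 = ((t : ℝ) ^ 9) ^ 2 * (14 * (t : ℝ) ^ 8) ^ 2 := by rw [hD]; ring
          rw [h5] at h4
          exact le_of_mul_le_mul_left h4 (by positivity)
        have h6 : ((∑ i, (f 0 i).natAbs : ℕ) : ℝ) ^ 2 ≤ (14 * (t : ℝ) ^ 13) ^ 2 := by
          have h7 : ((∑ i, (f 0 i).natAbs : ℕ) : ℝ) = ∑ i, |((f 0 i : ℤ) : ℝ)| := by
            push_cast
            apply Finset.sum_congr rfl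
            intro i _
            rw [Nat.cast_natAbs]
            push_cast
            rfl
          rw [h7]
          have h8 := sq_sum_le_card_mul_sum_sq (s := (Finset.univ : Finset (Fin k ⊕ Fin l)))
            (f := fun i => |((f 0 i : ℤ) : ℝ)|)
          refine le_trans h8 ?_
          rw [Finset.card_univ, hcardι]
          simp only [sq_abs]
          push_cast
          calc (t : ℝ) ^ 10 * ∑ i, ((f 0 i : ℤ) : ℝ) ^ 2 ≤ (t : ℝ) ^ 10 * (14 * (t : ℝ) ^ 8) ^ 2 :=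
                mul_le_mul_of_nonneg_left h3 (by positivity)
            _ = (14 * (t : ℝ) ^ 13) ^ 2 := by ring
        have h9 : ((∑ i, (f 0 i).natAbs : ℕ) : ℝ) ≤ 14 * (t : ℝ) ^ 13 :=
          le_of_sq_le_sq h6 (by positivity)
        exact_mod_cast h9
      · intro i c
        have h1 := hat_ne_zero (f i) _ (hf1 i).2 c
        have h2 := hat_ne_zero (f 0) _ (hf1 0).2 c
        have h3 : |((f i c - f 0 c : ℤ) : ℝ)| < 2 := by
          push_cast
          rw [abs_lt] at h1 h2 ⊢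
          constructor <;> linarith [h1.1, h1.2, h2.1, h2.2]
        have h4 : |f i c - f 0 c| < 2 := by exact_mod_cast h3
        omega
      · intro B hB1 B' hB2
        have hpx : ∀ B ∈ T, rd (fun i => ((p B i : ℤ) : ℝ)) x ≤ D + (t : ℝ) ^ 5 := by
          intro B hB'
          obtain ⟨⟨v, hv, rfl⟩, _⟩ := hTC hB'
          have h1 := hpD v (by have := hv7 v hv; linarith)
          have h2 := hvx v hv
          have h3 := rd_tri (fun i => ((p (lab v) i : ℤ) : ℝ)) (fun i => (v i : ℝ)) x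
          rw [d2_eq_rd] at h1
          linarith
        have h1 := hpx B hB1
        have h2 := hpx B' hB2
        have h3 := rd_tri (fun i => ((p B i : ℤ) : ℝ)) x (fun i => ((p B' i : ℤ) : ℝ))
        rw [rd_comm x] at h3
        have h4 : rd (fun i => ((p B i : ℤ) : ℝ)) (fun i => ((p B' i : ℤ) : ℝ)) ≤ 3 * D := by
          linarith
        have h5 : rd (fun i => ((p B i : ℤ) : ℝ)) (fun i => ((p B' i : ℤ) : ℝ)) ^ 2 ≤ (3 * D) ^ 2 :=
          pow_le_pow_left₀ (Real.sqrt_nonneg _) h4 2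
        unfold rd at h5
        rw [Real.sq_sqrt (Finset.sum_nonneg fun i _ => sq_nonneg _), Fintype.sum_sum_type] at h5
        refine le_trans ?_ h5
        have h6 : 0 ≤ ∑ a : Fin k, (((p B (Sum.inl a) : ℤ) : ℝ) - ((p B' (Sum.inl a) : ℤ) : ℝ)) ^ 2 :=
          Finset.sum_nonneg fun i _ => sq_nonneg _
        simp only [hpb]
        linarith
  have hvol := cover_vol l 10 (t ^ 11) A U hU1 pb (3 * D) (2 * (t : ℝ) ^ 12) (by positivity)
    (by positivity) hcov
  rw [hcardι] at hvol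
  have hfin : (A.card : ℝ) * 3 ^ (10 * t ^ 10) * (((10 + 1) * t ^ 11).choose (l + 1) : ℝ) *
      ((2 * (3 * D)) ^ l / l.factorial) ≤
      (Real.exp 1 * (28 * (t : ℝ) ^ 3 + 1)) ^ (t ^ 10) * 3 ^ (10 * t ^ 10) *
      ((11 * t ^ 11).choose (l + 1) : ℝ) * ((2 * (3 * D)) ^ l / l.factorial) := by
    have e1 : (10 + 1) * t ^ 11 = 11 * t ^ 11 := by ring
    rw [e1]
    gcongr
  have := lt_of_le_of_lt (le_trans hvol hfin) hnum
  exact lt_irrefl _ this

end Pool.Agent.TSP92
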