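import Pool.Agent.Helper92.TSP.Defs

/-! Choice of the parameters. -/

set_option autoImplicit false

namespace Pool.Agent.TSP92

open Finset

private theorem exists_u (K : ℝ) (u0 : ℕ) : ∃ u : ℕ, u0 ≤ u ∧
    K * (Real.log 26880000 + 204 * Real.log (u : ℝ)) ≤ u := by
  have h1 := (Real.isLittleO_log_id_atTop.def (c := 1 / (2 * 204 * (|K| + 1))) (by positivity))
  have h2 := tendsto_natCast_atTop_atTop (R := ℝ) |>.eventually h1
  have h3 : ∀ᶠ n : ℕ in Filter.atTop, 2 * K * Real.log 26880000 ≤ (n : ℝ) :=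
    (tendsto_natCast_atTop_atTop (R := ℝ)).eventually_ge_atTop _
  obtain ⟨u, h2, h3, h4⟩ := (h2.and (h3.and (Filter.eventually_ge_atTop u0))).exists
  refine ⟨u, h4, ?_⟩
  simp only [id, Real.norm_eq_abs, Nat.abs_cast] at h2
  have h5 : K * (204 * Real.log (u : ℝ)) ≤ u / 2 := by
    have e1 : K * (204 * Real.log (u : ℝ)) ≤ (|K| + 1) * (204 * |Real.log (u : ℝ)|) := by
      calc K * (204 * Real.log (u : ℝ)) ≤ |K * (204 * Real.log (u : ℝ))| := le_abs_self _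
        _ = |K| * (204 * |Real.log (u : ℝ)|) := by
            rw [abs_mul, abs_mul, abs_of_pos (by norm_num : (0 : ℝ) < 204)]
        _ ≤ _ := by gcongr; linarith
    refine e1.trans ?_
    calc (|K| + 1) * (204 * |Real.log (u : ℝ)|) ≤
        (|K| + 1) * (204 * (1 / (2 * 204 * (|K| + 1)) * (u : ℝ))) := by gcongr
      _ = u / 2 := by
        have : |K| + 1 ≠ 0 := by positivity
        field_simp
  linarith

private theorem pow_le_exp {x L : ℝ} (hx : 0 < x) (h : Real.log x ≤ L) (n : ℕ) :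
    x ^ n ≤ Real.exp (n * L) := by
  rw [Real.exp_nat_mul]
  refine pow_le_pow_left₀ hx.le ?_ n
  rw [← Real.log_le_iff_le_exp hx]
  exact h

theorem params (C : ℝ) (t0 : ℕ) : ∃ t : ℕ, t0 ≤ t ∧ 2 ≤ t ∧ ∃ l q s d m : ℕ, q.Prime ∧
    80 * (2 * t ^ 17) ≤ 2 ^ l ∧ 21000 * 2 ^ l * (2 * t ^ 17) ≤ q ∧ d ≤ q ∧ s < d ∧ 100 ≤ q ∧
    0 < m ∧
    8 * (41 * ((2 * t ^ 17 : ℕ) : ℝ)) ^ (2 * t ^ 10) * m ≤ (q : ℝ) ^ (d - s) ∧
    8 * (41 * ((2 * t ^ 17 : ℕ) : ℝ)) ^ (2 * t ^ 10) *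
      Real.exp (-4 * ((2 : ℝ) ^ l * ((2 * t ^ 17 : ℕ) : ℝ) / q) ^ 2) ^ (s + 1) ≤ 1 ∧
    4 * (41 * ((2 * t ^ 17 : ℕ) : ℝ)) ^ (2 * t ^ 10) * Real.exp (-3 * (d : ℝ)) ≤ 1 ∧
    ((q : ℝ) / Real.exp 1) ^ d < m ∧
    C * Real.log ((q : ℝ) ^ (d - s)) * 11 < ((t : ℝ) ^ 11 - 1) * (1 / 100) / 4 := by
  obtain ⟨u, hu0, hu⟩ := exists_u (42000 ^ 2 * 10 + 8800 * |C|) (t0 + 2)
  have hu2 : 2 ≤ u := by omega
  have hU2 : (2 : ℝ) ≤ (u : ℝ) := by exact_mod_cast hu2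
  have hU1 : (1 : ℝ) ≤ (u : ℝ) := by linarith
  set U : ℝ := (u : ℝ) with hUdef
  set Λ : ℝ := Real.log 26880000 + 204 * Real.log U with hΛ
  have hlogc : 1 ≤ Real.log 26880000 := by
    rw [Real.le_log_iff_exp_le (by norm_num)]
    have := Real.exp_one_lt_d9
    linarith
  have hlogU : 0 ≤ Real.log U := Real.log_nonneg hU1
  have hΛ1 : 1 ≤ Λ := by linarith
  have hK1 : 42000 ^ 2 * 10 * Λ ≤ U := by
    have : 0 ≤ 8800 * |C| * Λ := by positivity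
    nlinarith
  have hK2 : 8800 * |C| * Λ ≤ U := by
    have : 0 ≤ 42000 ^ 2 * 10 * Λ := by positivity
    nlinarith
  -- the parameters
  set t : ℕ := u ^ 6 with ht
  set D : ℕ := 2 * t ^ 17 with hD
  have hDr : (D : ℝ) = 2 * U ^ 102 := by
    rw [hD, ht]; push_cast; ring
  have hDpos : 0 < D := by positivity
  have hD1 : 1 ≤ D := hDpos
  obtain ⟨l, hl1, hl2⟩ : ∃ l : ℕ, 80 * D ≤ 2 ^ l ∧ 2 ^ l ≤ 160 * D := by
    refine ⟨Nat.clog 2 (80 * D), Nat.le_pow_clog (by norm_num) _, ?_⟩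
    have h1 : 2 ^ (Nat.clog 2 (80 * D)).pred < 80 * D :=
      Nat.pow_pred_clog_lt_self (by norm_num) (by omega)
    have h2 : 0 < Nat.clog 2 (80 * D) := Nat.clog_pos (by norm_num) (by omega)
    have h3 : 2 ^ Nat.clog 2 (80 * D) = 2 * 2 ^ (Nat.clog 2 (80 * D)).pred := by
      rw [← pow_succ', Nat.pred_eq_sub_one, Nat.sub_add_cancel h2]
    omega
  have hn0 : 21000 * 2 ^ l * D ≠ 0 := by positivity
  obtain ⟨q, hq, hq1, hq2⟩ := Nat.exists_prime_lt_and_le_two_mul _ hn0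
  have hqU : (q : ℝ) ≤ 26880000 * U ^ 204 := by
    have h1 : (q : ℝ) ≤ 2 * (21000 * 2 ^ l * D) := by exact_mod_cast hq2
    have h2 : (2 : ℝ) ^ l ≤ 160 * D := by exact_mod_cast hl2
    have h3 : (0 : ℝ) ≤ D := by positivity
    calc (q : ℝ) ≤ 2 * (21000 * 2 ^ l * D) := h1
      _ ≤ 2 * (21000 * (160 * D) * D) := by gcongr
      _ = 26880000 * U ^ 204 := by rw [hDr]; ring
  have hq_ge : (21000 : ℝ) * 2 ^ l * D ≤ q := by exact_mod_cast hq1.le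
  have h2lD : (80 : ℝ) * D ≤ 2 ^ l := by exact_mod_cast hl1
  have hDr1 : (1 : ℝ) ≤ D := by exact_mod_cast hD1
  have hq_geD : (1680000 : ℝ) * D * D ≤ q := by
    calc (1680000 : ℝ) * D * D = 21000 * (80 * D) * D := by ring
      _ ≤ 21000 * 2 ^ l * D := by gcongr
      _ ≤ q := hq_ge
  have hq100 : (100 : ℝ) ≤ q := by nlinarith
  have hqpos : (0 : ℝ) < q := by linarith
  have hlogq : Real.log q ≤ Λ := by
    calc Real.log q ≤ Real.log (26880000 * U ^ 204) := Real.log_le_log hqpos hqU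
      _ = Λ := by
        rw [Real.log_mul (by norm_num) (by positivity), Real.log_pow]
        push_cast
        ring
  have hlogq0 : 0 ≤ Real.log q := Real.log_nonneg (by linarith)
  have hlogD : Real.log (41 * (D : ℝ)) ≤ Λ := by
    refine le_trans (Real.log_le_log (by positivity) ?_) hlogq
    nlinarith
  have hpowD : (41 * (D : ℝ)) ^ (2 * t ^ 10) ≤ Real.exp (2 * U ^ 60 * Λ) := by
    have := pow_le_exp (by positivity : (0 : ℝ) < 41 * (D : ℝ)) hlogD (2 * t ^ 10)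
    refine this.trans (le_of_eq ?_)
    have e : ((2 * t ^ 10 : ℕ) : ℝ) = 2 * U ^ 60 := by
      rw [ht, hUdef]; push_cast; ring
    rw [e]
  have he2 : (2 : ℝ) ≤ Real.exp 1 := by
    have := Real.add_one_le_exp (1 : ℝ)
    linarith
  have he8 : (8 : ℝ) ≤ Real.exp 3 := by
    have : Real.exp 3 = Real.exp 1 ^ 3 := by rw [← Real.exp_nat_mul]; norm_num
    rw [this]
    calc (8 : ℝ) = 2 ^ 3 := by norm_num
      _ ≤ _ := by gcongr
  have he4 : (4 : ℝ) ≤ Real.exp 3 := by linarith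
  have he16 : (16 : ℝ) ≤ Real.exp 4 := by
    have : Real.exp 4 = Real.exp 1 ^ 4 := by rw [← Real.exp_nat_mul]; norm_num
    rw [this]
    calc (16 : ℝ) = 2 ^ 4 := by norm_num
      _ ≤ _ := by gcongr
  have hU60 : 1 ≤ U ^ 60 := one_le_pow₀ hU1
  have hU62 : 1 ≤ U ^ 62 := one_le_pow₀ hU1
  have hbase : 3 + 2 * U ^ 60 * Λ ≤ 5 * U ^ 60 * Λ := by nlinarith
  have hΛU : Λ ≤ U / (42000 ^ 2 * 10) := by
    rw [le_div_iff₀ (by norm_num)]; linarith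
  have h5 : 5 * U ^ 60 * Λ ≤ 4 / 42000 ^ 2 * U ^ 62 := by
    calc 5 * U ^ 60 * Λ ≤ 5 * U ^ 60 * (U / (42000 ^ 2 * 10)) := by gcongr
      _ = 1 / 2 / 42000 ^ 2 * U ^ 61 := by ring
      _ ≤ 4 / 42000 ^ 2 * U ^ 62 := by
        have : U ^ 61 ≤ U ^ 62 := pow_le_pow_right₀ hU1 (by norm_num)
        have h0 : (0 : ℝ) ≤ U ^ 62 := by positivity
        have : 1 / 2 / 42000 ^ 2 * U ^ 61 ≤ 1 / 2 / 42000 ^ 2 * U ^ 62 := by gcongr
        nlinarith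
  have hA : (0 : ℝ) < 8 * (41 * (D : ℝ)) ^ (2 * t ^ 10) := by positivity
  have hsd : u ^ 62 ≤ u ^ 64 := Nat.pow_le_pow_right (by omega) (by norm_num)
  have hmain : ((q : ℝ) / Real.exp 1) ^ (u ^ 64) + 1 ≤
      (q : ℝ) ^ (u ^ 64 - u ^ 62) / (8 * (41 * (D : ℝ)) ^ (2 * t ^ 10)) := by
    have h1 : (1 : ℝ) ≤ ((q : ℝ) / Real.exp 1) ^ (u ^ 64) := by
      refine one_le_pow₀ ?_
      rw [one_le_div (Real.exp_pos 1)]
      have := Real.exp_one_lt_d9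
      linarith
    have h2 : 2 * ((q : ℝ) / Real.exp 1) ^ (u ^ 64) ≤
        (q : ℝ) ^ (u ^ 64 - u ^ 62) / (8 * (41 * (D : ℝ)) ^ (2 * t ^ 10)) := by
      rw [le_div_iff₀ hA, div_pow, ← Real.exp_nat_mul, mul_one]
      have h3 : (q : ℝ) ^ (u ^ 64) = (q : ℝ) ^ (u ^ 62) * (q : ℝ) ^ (u ^ 64 - u ^ 62) := by
        rw [← pow_add, Nat.add_sub_cancel' hsd]
      rw [h3]
      have h4 : 16 * (41 * (D : ℝ)) ^ (2 * t ^ 10) * (q : ℝ) ^ (u ^ 62) ≤
          Real.exp ((u ^ 64 : ℕ) : ℝ) := by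
        have h5 : (q : ℝ) ^ (u ^ 62) ≤ Real.exp (U ^ 62 * Λ) := by
          have := pow_le_exp hqpos hlogq (u ^ 62)
          refine this.trans (le_of_eq ?_)
          push_cast
          rfl
        calc 16 * (41 * (D : ℝ)) ^ (2 * t ^ 10) * (q : ℝ) ^ (u ^ 62) ≤
            Real.exp 4 * Real.exp (2 * U ^ 60 * Λ) * Real.exp (U ^ 62 * Λ) := by gcongr
          _ = Real.exp (4 + 2 * U ^ 60 * Λ + U ^ 62 * Λ) := by rw [Real.exp_add, Real.exp_add]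
          _ ≤ Real.exp ((u ^ 64 : ℕ) : ℝ) := by
            apply Real.exp_le_exp.2
            push_cast
            rw [← hUdef]
            have e1 : U ^ 60 ≤ U ^ 62 := pow_le_pow_right₀ hU1 (by norm_num)
            have e2 : 4 + 2 * U ^ 60 * Λ + U ^ 62 * Λ ≤ 7 * (U ^ 62 * Λ) := by nlinarith
            have e3 : Λ ≤ U / 7 := by
              rw [le_div_iff₀ (by norm_num)]
              nlinarith
            have e4 : 7 * (U ^ 62 * Λ) ≤ U ^ 63 := by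
              calc 7 * (U ^ 62 * Λ) ≤ 7 * (U ^ 62 * (U / 7)) := by gcongr
                _ = U ^ 63 := by ring
            have e5 : U ^ 63 ≤ U ^ 64 := pow_le_pow_right₀ hU1 (by norm_num)
            linarith
      have h6 : 0 ≤ (q : ℝ) ^ (u ^ 64 - u ^ 62) := by positivity
      have h7 : 0 < Real.exp ((u ^ 64 : ℕ) : ℝ) := Real.exp_pos _
      rw [mul_div_assoc', div_mul_eq_mul_div, div_le_iff₀ h7]
      calc 2 * ((q : ℝ) ^ (u ^ 62) * (q : ℝ) ^ (u ^ 64 - u ^ 62)) *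
            (8 * (41 * (D : ℝ)) ^ (2 * t ^ 10)) =
          (q : ℝ) ^ (u ^ 64 - u ^ 62) *
            (16 * (41 * (D : ℝ)) ^ (2 * t ^ 10) * (q : ℝ) ^ (u ^ 62)) := by ring
        _ ≤ (q : ℝ) ^ (u ^ 64 - u ^ 62) * Real.exp ((u ^ 64 : ℕ) : ℝ) := by gcongr
    linarith
  refine ⟨t, ?_, ?_, l, q, u ^ 62, u ^ 64,
    ⌊(q : ℝ) ^ (u ^ 64 - u ^ 62) / (8 * (41 * (D : ℝ)) ^ (2 * t ^ 10))⌋₊, hq, hl1, hq1.le, ?_, ?_, ?_, ?_, ?_,
    ?_, ?_, ?_, ?_⟩
  · calc t0 ≤ u := by omega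
      _ = u ^ 1 := (pow_one u).symm
      _ ≤ u ^ 6 := Nat.pow_le_pow_right (by omega) (by norm_num)
  · calc 2 ≤ u := hu2
      _ = u ^ 1 := (pow_one u).symm
      _ ≤ u ^ 6 := Nat.pow_le_pow_right (by omega) (by norm_num)
  · have h1 : (U : ℝ) ^ 64 ≤ q := by
      have h2 : (1680000 : ℝ) * D * D = 6720000 * U ^ 204 := by rw [hDr]; ring
      have h3 : U ^ 64 ≤ U ^ 204 := pow_le_pow_right₀ hU1 (by norm_num)
      have h4 : (0 : ℝ) ≤ U ^ 204 := by positivity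
      nlinarith
    have h5 : ((u ^ 64 : ℕ) : ℝ) ≤ (q : ℝ) := by push_cast; exact h1
    exact_mod_cast h5
  · exact Nat.pow_lt_pow_right (by omega) (by norm_num)
  · exact_mod_cast hq100
  · -- 0 < m
    rw [Nat.floor_pos]
    have : (0 : ℝ) ≤ ((q : ℝ) / Real.exp 1) ^ (u ^ 64) := by positivity
    linarith
  · -- floor
    have := Nat.floor_le (show (0 : ℝ) ≤ (q : ℝ) ^ (u ^ 64 - u ^ 62) /
      (8 * (41 * (D : ℝ)) ^ (2 * t ^ 10)) by positivity)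
    rw [le_div_iff₀ hA] at this
    linarith
  · -- item 8
    have h1 : (1 / 42000 : ℝ) ≤ (2 : ℝ) ^ l * (D : ℝ) / q := by
      rw [le_div_iff₀ hqpos]
      have : (q : ℝ) ≤ 2 * (21000 * 2 ^ l * D) := by exact_mod_cast hq2
      linarith
    have h2 : (1 / 42000 : ℝ) ^ 2 ≤ ((2 : ℝ) ^ l * (D : ℝ) / q) ^ 2 := by gcongr
    have h3 : Real.exp (-4 * ((2 : ℝ) ^ l * (D : ℝ) / q) ^ 2) ^ (u ^ 62 + 1) ≤
        Real.exp (-(4 / 42000 ^ 2 * U ^ 62)) := by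
      rw [← Real.exp_nat_mul]
      apply Real.exp_le_exp.2
      push_cast
      rw [← hUdef]
      nlinarith [show (0 : ℝ) ≤ U ^ 62 by positivity]
    calc 8 * (41 * (D : ℝ)) ^ (2 * t ^ 10) *
          Real.exp (-4 * ((2 : ℝ) ^ l * (D : ℝ) / q) ^ 2) ^ (u ^ 62 + 1)
        ≤ Real.exp 3 * Real.exp (2 * U ^ 60 * Λ) * Real.exp (-(4 / 42000 ^ 2 * U ^ 62)) := by
          gcongr
      _ = Real.exp (3 + 2 * U ^ 60 * Λ + -(4 / 42000 ^ 2 * U ^ 62)) := by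
          rw [Real.exp_add, Real.exp_add]
      _ ≤ 1 := by
          rw [Real.exp_le_one_iff]
          linarith
  · -- item 9
    have h3 : Real.exp (-3 * ((u ^ 64 : ℕ) : ℝ)) ≤ Real.exp (-(4 / 42000 ^ 2 * U ^ 62)) := by
      apply Real.exp_le_exp.2
      push_cast
      rw [← hUdef]
      have e1 : U ^ 62 ≤ U ^ 64 := pow_le_pow_right₀ hU1 (by norm_num)
      have e2 : (4 / 42000 ^ 2 : ℝ) * U ^ 62 ≤ 3 * U ^ 62 := by
        gcongr; norm_num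
      nlinarith
    calc 4 * (41 * (D : ℝ)) ^ (2 * t ^ 10) * Real.exp (-3 * ((u ^ 64 : ℕ) : ℝ))
        ≤ Real.exp 3 * Real.exp (2 * U ^ 60 * Λ) * Real.exp (-(4 / 42000 ^ 2 * U ^ 62)) := by
          gcongr
      _ = Real.exp (3 + 2 * U ^ 60 * Λ + -(4 / 42000 ^ 2 * U ^ 62)) := by
          rw [Real.exp_add, Real.exp_add]
      _ ≤ 1 := by
          rw [Real.exp_le_one_iff]
          linarith
  · -- item 10
    have := Nat.lt_floor_add_one ((q : ℝ) ^ (u ^ 64 - u ^ 62) /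
      (8 * (41 * (D : ℝ)) ^ (2 * t ^ 10)))
    linarith
  · -- item 11
    rw [Real.log_pow]
    have h1 : ((u ^ 64 - u ^ 62 : ℕ) : ℝ) ≤ U ^ 64 := by
      have : ((u ^ 64 - u ^ 62 : ℕ) : ℝ) ≤ ((u ^ 64 : ℕ) : ℝ) := by
        exact_mod_cast Nat.sub_le _ _
      refine this.trans (le_of_eq ?_)
      push_cast
      rfl
    have h2 : C * (((u ^ 64 - u ^ 62 : ℕ) : ℝ) * Real.log q) ≤ |C| * (U ^ 64 * Λ) := by
      have h0 : (0 : ℝ) ≤ ((u ^ 64 - u ^ 62 : ℕ) : ℝ) := by positivity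
      calc C * (((u ^ 64 - u ^ 62 : ℕ) : ℝ) * Real.log q) ≤
          |C| * (((u ^ 64 - u ^ 62 : ℕ) : ℝ) * Real.log q) := by
            gcongr
            exact le_abs_self C
        _ ≤ |C| * (U ^ 64 * Λ) := by gcongr
    have h3 : |C| * (U ^ 64 * Λ) * 8800 ≤ U ^ 65 := by
      calc |C| * (U ^ 64 * Λ) * 8800 = U ^ 64 * (8800 * |C| * Λ) := by ring
        _ ≤ U ^ 64 * U := by gcongr
        _ = U ^ 65 := by ring
    have h4 : ((t : ℕ) : ℝ) ^ 11 = U ^ 66 := by rw [ht]; push_cast; ring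
    have h5 : U ^ 66 = U * U ^ 65 := by ring
    have h6 : (1 : ℝ) ≤ U ^ 65 := one_le_pow₀ hU1
    rw [h4]
    nlinarith

end Pool.Agent.TSP92
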