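import Pool.Agent.Helper92.TSP.Defs
import Pool.Agent.Helper92.TSP.M01
import Pool.Agent.Helper92.TSP.M02
import Pool.Agent.Helper92.TSP.M03
import Pool.Agent.Helper92.TSP.M04
import Pool.Agent.Helper92.TSP.M08
import Pool.Agent.Helper92.TSP.M10
import Pool.Agent.Helper92.TSP.M11
import Pool.Agent.Helper92.TSP.M19
import Pool.Agent.Helper92.TSP.M28
import Pool.Agent.Helper92.TSP.M29

/-! Assembly. -/

set_option autoImplicit false

namespace Pool.Agent.TSP92

open Finset

lemma ut30_block {X : Type} [Fintype X] [DecidableEq X] (L : List X) (hall : ∀ x, x ∈ L) (m : ℕ)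
    (hm : 0 < m) (B : ℕ) :
    (Finset.univ.filter (fun x => L.idxOf x / m = B)).card ≤ m := by
  have h1 : (Finset.univ.filter (fun x => L.idxOf x / m = B)).card ≤
      (Finset.Ico (B * m) (B * m + m)).card := by
    apply Finset.card_le_card_of_injOn (fun x => L.idxOf x)
    · intro x hx
      rw [Finset.mem_coe, Finset.mem_filter] at hx
      rw [Finset.mem_coe, Finset.mem_Ico]
      obtain ⟨_, hx⟩ := hx
      have := Nat.div_add_mod (L.idxOf x) m
      have h2 := Nat.mod_lt (L.idxOf x) hm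
      rw [hx, mul_comm] at this
      show B * m ≤ L.idxOf x ∧ L.idxOf x < B * m + m
      omega
    · intro x _ y _ hxy
      exact (List.idxOf_inj (hall x)).1 hxy
  simpa using h1

theorem main_counterexample (C : ℝ) (hC : 0 < C) : ∃ (X : Type) (_ : Fintype X) (_ : DecidableEq X) (d : X → X → ℝ),
    IsMet d ∧ 0 < Fintype.card X ∧ ∀ L : List X, L.Nodup → (∀ x, x ∈ L) →
      ∃ (S : Finset X) (M : List X), M.Nodup ∧ (∀ x, x ∈ M ↔ x ∈ S) ∧
        C * Real.log (Fintype.card X) * tcost d M <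
          tcost d (L.filter (fun x => decide (x ∈ S))) := by
  have hZ : ∀ k l, ZeroLemma k l := fun k l =>
    zeroLemma_of k l (brouwer_of _ (noRetract_of _ (smallT _)))
  obtain ⟨t0, h3⟩ := part3 hZ
  obtain ⟨t, ht0, ht2, l, q, s, d, m, hq, hDl, hlq, hdq, hsd, hq100, hm0, n1, n2, n3, n4, n5⟩ :=
    params C t0
  haveI : Fact q.Prime := ⟨hq⟩
  set D : ℕ := 2 * t ^ 17 with hD
  have hD0 : 0 < D := by positivity
  have hd0 : 0 < d := by omega
  have hrd : d - s ≤ d := Nat.sub_le _ _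
  have hsurj : Function.Surjective (HH (vand q (d - s) d)) := vand_surj hdq hrd
  have hw : ∀ k : Fin (d - s) → ZMod q, k ≠ 0 →
      s + 1 ≤ (Finset.univ.filter (fun i : Fin d => ∑ a, k a * vand q (d - s) d i a ≠ 0)).card := by
    intro k hk
    have := vand_weight (r := d - s) hdq hrd k hk
    have e : d - (d - s) = s := by omega
    rwa [e] at this
  have hmet := dX_isMet hd0 (vand q (d - s) d) hsurj
  have hcardX : Fintype.card (Fin (d - s) → ZMod q) = q ^ (d - s) := by
    rw [Fintype.card_fun, ZMod.card, Fintype.card_fin]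
  have hcard0 : 0 < Fintype.card (Fin (d - s) → ZMod q) := by
    rw [hcardX]
    exact pow_pos hq.pos _
  refine ⟨Fin (d - s) → ZMod q, inferInstance, inferInstance, dX (vand q (d - s) d), hmet,
    hcard0, ?_⟩
  intro L hL hall
  -- the number of coordinates
  have hcι : Fintype.card (Fin (t ^ 9) ⊕ Fin (t ^ 10 - t ^ 9)) = t ^ 10 := by
    rw [Fintype.card_sum, Fintype.card_fin, Fintype.card_fin]
    have : t ^ 9 ≤ t ^ 10 := Nat.pow_le_pow_right (by omega) (by norm_num)
    omega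
  have h4 : 4 * 2 ^ l * D ≤ q := by
    refine le_trans ?_ hlq
    gcongr
    norm_num
  obtain ⟨Good, hGood, hF⟩ := part2 (ι := Fin (t ^ 9) ⊕ Fin (t ^ 10 - t ^ 9)) q l D (d - s) d s m
    (vand q (d - s) d) hsurj hw hD0 hd0 hDl h4 (fun x => L.idxOf x / m)
    (fun B => ut30_block L hall m hm0 B)
    (by rw [hcι]; exact n1) (by rw [hcι]; exact n2) (by rw [hcι]; exact n3)
  have hq0 : (0 : ℝ) < q := by exact_mod_cast hq.pos
  have hκ : (5 * 2 ^ l / q : ℝ) * (21 * (2 * (t : ℝ) ^ 17)) ≤ (1 / 100) / 2 := by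
    have h5 : ((21000 * 2 ^ l * D : ℕ) : ℝ) ≤ q := by exact_mod_cast hlq
    rw [div_mul_eq_mul_div, div_le_iff₀ hq0]
    rw [hD] at h5
    push_cast at h5
    nlinarith
  have hS : ∀ x ∈ Good, ∃ P : Finset (Fin (d - s) → ZMod q),
      Reach (dX (vand q (d - s) d)) Set.univ x (P : Set (Fin (d - s) → ZMod q)) ((1 / 100) / 2) ∧
      t ^ 11 ≤ (P.image (fun y => L.idxOf y / m)).card := by
    intro x hx
    obtain ⟨F, hF0, hLip, hsep⟩ := hF x hx
    obtain ⟨P, hP, hPc⟩ := h3 t ht0 (fun v => L.idxOf (F v) / m) (by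
      intro v hv w hw' hvw
      by_contra hcon
      push Not at hcon
      refine hsep v hv w hw' ?_ hvw
      rw [hD]
      push_cast
      exact hcon)
    refine ⟨P.image F, ?_, ?_⟩
    · have h0V : (0 : (Fin (t ^ 9) ⊕ Fin (t ^ 10 - t ^ 9)) → ℤ) ∈
          (Vf (Fin (t ^ 9) ⊕ Fin (t ^ 10 - t ^ 9)) (20 * (2 * t ^ 17)) :
            Set ((Fin (t ^ 9) ⊕ Fin (t ^ 10 - t ^ 9)) → ℤ)) := by
        rw [Finset.mem_coe, mem_Vf]
        have : d2 (0 : (Fin (t ^ 9) ⊕ Fin (t ^ 10 - t ^ 9)) → ℤ) 0 = 0 := by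
          simp [d2]
        rw [this]
        positivity
      have hmap := Reach.map (d' := dX (vand q (d - s) d)) (W := Set.univ)
        (κ := 5 * 2 ^ l / q) F h0V (fun v _ => Set.mem_univ _) (by positivity)
        (fun v hv w hw' => hLip v hv w hw') hP
      rw [hF0] at hmap
      refine hmap.mono ?_ hκ
      rw [Finset.coe_image]
    · rw [Finset.image_image]
      exact hPc
  have ht11 : 1 ≤ t ^ 11 := Nat.one_le_pow _ _ (by omega)
  obtain ⟨S, M, a, ha, hMn, hMS, hM1, hM2⟩ := part1 (dX (vand q (d - s) d)) hmet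
    (fun x y => dX_le_one hd0 (vand q (d - s) d) hsurj x y) (1 / 100) (by norm_num) (by norm_num)
    m (t ^ 11) ht11
    (by
      intro x
      have h6 := ball_card hd0 hq100 (vand q (d - s) d) hsurj x
      have h7 := lt_of_le_of_lt h6 n4
      exact_mod_cast h7)
    hcard0 L hL hall Good hGood hS
  refine ⟨S, M, hMn, hMS, lt_of_lt_of_le ?_ hM2⟩
  rw [hcardX]
  push_cast
  have hlog : 0 ≤ Real.log ((q : ℝ) ^ (d - s)) := by
    apply Real.log_nonneg
    apply one_le_pow₀
    have : 1 ≤ q := hq.pos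
    exact_mod_cast this
  calc C * Real.log ((q : ℝ) ^ (d - s)) * tcost (dX (vand q (d - s) d)) M
      ≤ C * Real.log ((q : ℝ) ^ (d - s)) * (11 * a) :=
        mul_le_mul_of_nonneg_left hM1 (by positivity)
    _ = a * (C * Real.log ((q : ℝ) ^ (d - s)) * 11) := by ring
    _ < a * (((t : ℝ) ^ 11 - 1) * (1 / 100) / 4) := mul_lt_mul_of_pos_left n5 ha
    _ = a * ((t : ℝ) ^ 11 - 1) * (1 / 100) / 4 := by ring

end Pool.Agent.TSP92
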