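import Pool.Agent.Helper92.TSP.Defs

/-! Transfer to Fin n: from main_counterexample to the frozen statement S14588. -/

set_option autoImplicit false

namespace Pool.Agent.TSP92

open Finset

private lemma tcost_map {α β : Type} (f : α → β) (d : β → β → ℝ) (l : List α) :
    tcost d (l.map f) = ((l.zip (l.rotate 1)).map (fun p => d (f p.1) (f p.2))).sum := by
  unfold tcost
  rw [← List.map_rotate, List.zip_map, List.map_map]
  rfl

theorem transfer
    (H : ∀ C : ℝ, 0 < C → ∃ (X : Type) (_ : Fintype X) (_ : DecidableEq X) (d : X → X → ℝ),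
      IsMet d ∧ 0 < Fintype.card X ∧ ∀ L : List X, L.Nodup → (∀ x, x ∈ L) →
        ∃ (S : Finset X) (M : List X), M.Nodup ∧ (∀ x, x ∈ M ↔ x ∈ S) ∧
          C * Real.log (Fintype.card X) * tcost d M <
            tcost d (L.filter (fun x => decide (x ∈ S)))) :
    ¬ (∃ C : ℝ, 0 < C ∧
      ∀ (n : ℕ) (d : Fin n → Fin n → ℝ),
        (∀ i j, d i j = 0 ↔ i = j) →
        (∀ i j, d i j = d j i) →
        (∀ i j k, d i k ≤ d i j + d j k) →
        ∃ L : List (Fin n), L.Nodup ∧ (∀ x, x ∈ L) ∧
          ∀ (S : Finset (Fin n)) (M : List (Fin n)),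
            M.Nodup → (∀ x, x ∈ M ↔ x ∈ S) →
              (((L.filter (fun x => x ∈ S)).zip
                  ((L.filter (fun x => x ∈ S)).rotate 1)).map
                  (fun p => d p.1 p.2)).sum
                ≤ C * Real.log n *
                  ((M.zip (M.rotate 1)).map (fun p => d p.1 p.2)).sum) := by
  rintro ⟨C, hC, hmain⟩
  obtain ⟨X, iF, iD, d, hmet, hpos, hX⟩ := H C hC
  set n := Fintype.card X with hn
  let e : X ≃ Fin n := Fintype.equivFin X
  obtain ⟨L, hLn, hLm, hL⟩ := hmain n (fun i j => d (e.symm i) (e.symm j))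
    (fun i j => by rw [hmet.zero]; exact e.symm.injective.eq_iff)
    (fun i j => hmet.symm _ _) (fun i j k => hmet.tri _ _ _)
  obtain ⟨S, M, hMn, hMS, hlt⟩ := hX (L.map e.symm) (hLn.map e.symm.injective)
    (fun x => List.mem_map.2 ⟨e x, hLm _, e.symm_apply_apply x⟩)
  have hle := hL (S.map e.toEmbedding) (M.map e) (hMn.map e.injective) (by
    intro i
    rw [Finset.mem_map_equiv, List.mem_map, ← hMS]
    constructor
    · rintro ⟨x, hx, rfl⟩
      rwa [e.symm_apply_apply]
    · intro hx
      exact ⟨e.symm i, hx, e.apply_symm_apply i⟩)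
  have h1 : (L.map e.symm).filter (fun x => decide (x ∈ S))
      = (L.filter (fun x => decide (x ∈ S.map e.toEmbedding))).map e.symm := by
    rw [List.filter_map]
    congr 1
    refine List.filter_congr fun i _ => ?_
    simp only [Function.comp_apply, Finset.mem_map_equiv]
  have h2 : ((M.map e).zip ((M.map e).rotate 1)).map
      (fun p => (fun i j => d (e.symm i) (e.symm j)) p.1 p.2) = (M.zip (M.rotate 1)).map
      (fun p => d p.1 p.2) := by
    rw [← List.map_rotate, List.zip_map, List.map_map]
    refine List.map_congr_left fun p _ => ?_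
    simp
  rw [h1, tcost_map] at hlt
  rw [h2] at hle
  exact absurd hlt (not_lt.2 hle)

end Pool.Agent.TSP92
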